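import Pool.Agent.InnerAm.FreeGrp

/-!
# The group: an infinite direct sum of free groups, with a bicharacter
-/

noncomputable section

set_option linter.unusedSectionVars false

namespace Pool.Agent.OpEq

open Pool.Agent.InnerAm (startsA conj_cover conj_disj one_notMem_startsA)

/-- The free group on three generators. -/
abbrev F3 : Type := FreeGroup (Fin 3)

/-- The direct sum of countably many copies of `F3`. -/
def GG : Subgroup (ℕ → F3) where
  carrier := {g | (Function.mulSupport g).Finite}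
  one_mem' := by
    show (Function.mulSupport (1 : ℕ → F3)).Finite
    rw [Function.mulSupport_one]
    exact Set.finite_empty
  mul_mem' := fun {g h} hg hh => (Set.Finite.union hg hh).subset (Function.mulSupport_mul g h)
  inv_mem' := fun {g} hg => by
    show (Function.mulSupport g⁻¹).Finite
    rw [Function.mulSupport_inv]
    exact hg

/-- The homomorphism to `ℤ/3` with `a ↦ 1`, `b, c ↦ 0`. -/
def chiHom : F3 →* Multiplicative (ZMod 3) :=
  FreeGroup.lift fun i => Multiplicative.ofAdd (if i = 0 then 1 else 0)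

/-- `chiHom`, additively. -/
def chi (x : F3) : ZMod 3 := (chiHom x).toAdd

@[simp] theorem chi_one : chi 1 = 0 := by unfold chi; rw [map_one]; rfl
theorem chi_mul (x y : F3) : chi (x * y) = chi x + chi y := by unfold chi; rw [map_mul]; rfl
theorem chi_inv (x : F3) : chi x⁻¹ = -chi x := by unfold chi; rw [map_inv]; rfl
theorem chi_of (i : Fin 3) : chi (FreeGroup.of i) = if i = 0 then 1 else 0 := by
  unfold chi chiHom
  rw [FreeGroup.lift_apply_of]
  rfl

theorem coe_mul_apply (g h : GG) (i : ℕ) : (g * h).1 i = g.1 i * h.1 i := rfl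
theorem coe_inv_apply (g : GG) (i : ℕ) : (g⁻¹).1 i = (g.1 i)⁻¹ := rfl
theorem coe_one_apply (i : ℕ) : (1 : GG).1 i = 1 := rfl

theorem support_chi (g : GG) : (Function.support fun i => chi (g.1 i)).Finite := by
  refine Set.Finite.subset g.2 fun i hi => ?_
  rw [Function.mem_support] at hi
  rw [Function.mem_mulSupport]
  intro h
  rw [h] at hi
  exact hi chi_one

/-- The total degree. -/
def deg (g : GG) : ZMod 3 := ∑ᶠ i, chi (g.1 i)

/-- The sum of the degrees before `i`. -/
def pre (i : ℕ) (g : GG) : ZMod 3 := ∑ j ∈ Finset.range i, chi (g.1 j)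

/-- The sum of the degrees over the block `[l, m)`. -/
def dgb (l m : ℕ) (g : GG) : ZMod 3 := ∑ j ∈ Finset.Ico l m, chi (g.1 j)

theorem deg_mul (g h : GG) : deg (g * h) = deg g + deg h := by
  unfold deg
  rw [← finsum_add_distrib (support_chi g) (support_chi h)]
  exact finsum_congr fun i => chi_mul _ _

theorem pre_mul (i : ℕ) (g h : GG) : pre i (g * h) = pre i g + pre i h := by
  unfold pre
  rw [← Finset.sum_add_distrib]
  exact Finset.sum_congr rfl fun i _ => chi_mul _ _

theorem dgb_mul (l m : ℕ) (g h : GG) : dgb l m (g * h) = dgb l m g + dgb l m h := by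
  unfold dgb
  rw [← Finset.sum_add_distrib]
  exact Finset.sum_congr rfl fun i _ => chi_mul _ _

/-- The bicharacter `β(g, h) = ∑_{i > j} χ(g_i) χ(h_j)`. -/
def beta (g h : GG) : ZMod 3 := ∑ᶠ i, chi (g.1 i) * pre i h

theorem support_beta (g : GG) (f : ℕ → ZMod 3) :
    (Function.support fun i => chi (g.1 i) * f i).Finite := by
  refine (support_chi g).subset fun i hi => ?_
  rw [Function.mem_support] at hi ⊢
  exact left_ne_zero_of_mul hi

theorem beta_mul_left (g g' h : GG) : beta (g * g') h = beta g h + beta g' h := by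
  unfold beta
  rw [← finsum_add_distrib (support_beta g _) (support_beta g' _)]
  refine finsum_congr fun i => ?_
  rw [coe_mul_apply, chi_mul, add_mul]

theorem beta_mul_right (g h h' : GG) : beta g (h * h') = beta g h + beta g h' := by
  unfold beta
  rw [← finsum_add_distrib (support_beta g _) (support_beta g _)]
  refine finsum_congr fun i => ?_
  rw [pre_mul, mul_add]

theorem beta_one_left (h : GG) : beta 1 h = 0 := by
  have := beta_mul_left 1 1 h
  rw [mul_one] at this
  exact left_eq_add.1 this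

theorem beta_one_right (h : GG) : beta h 1 = 0 := by
  have := beta_mul_right h 1 1
  rw [mul_one] at this
  exact left_eq_add.1 this

/-- The bicharacter with values in the circle. -/
def phi : GG →* GG →* Circle where
  toFun g :=
    { toFun := fun h => ZMod.toCircle (beta g h)
      map_one' := by rw [beta_one_right, AddChar.map_zero_eq_one]
      map_mul' := fun h h' => by rw [beta_mul_right, AddChar.map_add_eq_mul] }
  map_one' := by
    ext h
    show ((ZMod.toCircle (beta 1 h) : Circle) : ℂ) = 1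
    rw [beta_one_left, AddChar.map_zero_eq_one]
    rfl
  map_mul' g g' := by
    ext h
    show ((ZMod.toCircle (beta (g * g') h) : Circle) : ℂ) =
      ((ZMod.toCircle (beta g h) * ZMod.toCircle (beta g' h) : Circle) : ℂ)
    rw [beta_mul_left, AddChar.map_add_eq_mul]

theorem phi_apply (g h : GG) : phi g h = ZMod.toCircle (beta g h) := rfl

/-- Elements supported in `I`. -/
def GI (I : Set ℕ) : Subgroup GG where
  carrier := {g | ∀ i, i ∉ I → g.1 i = 1}
  one_mem' := fun _ _ => rfl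
  mul_mem' := fun {g h} hg hh i hi => by rw [coe_mul_apply, hg i hi, hh i hi, mul_one]
  inv_mem' := fun {g} hg i hi => by rw [coe_inv_apply, hg i hi, inv_one]

theorem mem_GI {I : Set ℕ} {g : GG} : g ∈ GI I ↔ ∀ i, i ∉ I → g.1 i = 1 := Iff.rfl

theorem GI_mono {I J : Set ℕ} (h : I ⊆ J) {g : GG} (hg : g ∈ GI I) : g ∈ GI J :=
  fun i hi => hg i fun h' => hi (h h')

theorem GI_inter {I J : Set ℕ} {g : GG} (hg : g ∈ GI I) (hg' : g ∈ GI J) : g ∈ GI (I ∩ J) :=
  fun i hi => by
    by_cases h : i ∈ I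
    · exact hg' i fun h' => hi ⟨h, h'⟩
    · exact hg i h

theorem GI_comm {I J : Set ℕ} (h : ∀ i ∈ I, i ∉ J) {g g' : GG} (hg : g ∈ GI I)
    (hg' : g' ∈ GI J) : g * g' = g' * g := by
  refine Subtype.ext (funext fun i => ?_)
  rw [coe_mul_apply, coe_mul_apply]
  by_cases hi : i ∈ I
  · rw [hg' i (h i hi), mul_one, one_mul]
  · rw [hg i hi, mul_one, one_mul]

theorem GI_eq_one {I J : Set ℕ} (h : ∀ i ∈ I, i ∉ J) {g : GG} (hg : g ∈ GI I)
    (hg' : g ∈ GI J) : g = 1 := by
  refine Subtype.ext (funext fun i => ?_)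
  rw [coe_one_apply]
  by_cases hi : i ∈ I
  · exact hg' i (h i hi)
  · exact hg i hi

theorem exists_bound (g : GG) : ∃ k, ∀ k', k ≤ k' → g ∈ GI (Set.Iio k') := by
  obtain ⟨k, hk⟩ := (show (Function.mulSupport g.1).Finite from g.2).bddAbove
  refine ⟨k + 1, fun k' hk' i hi => ?_⟩
  by_contra h
  have := hk (Function.mem_mulSupport.2 h)
  rw [Set.mem_Iio] at hi
  omega

theorem deg_eq_sum {g : GG} {s : Finset ℕ} (hg : g ∈ GI (s : Set ℕ)) :
    deg g = ∑ i ∈ s, chi (g.1 i) := by
  unfold deg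
  refine finsum_eq_sum_of_support_subset _ fun i hi => ?_
  by_contra h
  rw [Function.mem_support, hg i h] at hi
  exact hi chi_one

theorem beta_eq_sum {g : GG} {s : Finset ℕ} (hg : g ∈ GI (s : Set ℕ)) (h : GG) :
    beta g h = ∑ i ∈ s, chi (g.1 i) * pre i h := by
  unfold beta
  refine finsum_eq_sum_of_support_subset _ fun i hi => ?_
  by_contra h'
  rw [Function.mem_support, hg i h', chi_one, zero_mul] at hi
  exact hi rfl

theorem pre_eq_zero {k i : ℕ} (hi : i ≤ k) {g : GG} (hg : g ∈ GI (Set.Ici k)) : pre i g = 0 := by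
  refine Finset.sum_eq_zero fun j hj => ?_
  have := Finset.mem_range.1 hj
  rw [hg j (by rw [Set.mem_Ici]; omega), chi_one]

theorem pre_eq_deg {k i : ℕ} (hi : k ≤ i) {g : GG} (hg : g ∈ GI (Set.Iio k)) :
    pre i g = deg g := by
  rw [deg_eq_sum (s := Finset.range i)]
  · rfl
  · exact GI_mono (fun j hj => by
      rw [Set.mem_Iio] at hj
      rw [Finset.coe_range, Set.mem_Iio]
      omega) hg

theorem beta_early_late {k : ℕ} {h g : GG} (hh : h ∈ GI (Set.Iio k)) (hg : g ∈ GI (Set.Ici k)) :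
    beta h g = 0 := by
  unfold beta
  refine finsum_eq_zero_of_forall_eq_zero fun i => ?_
  by_cases hi : i < k
  · rw [pre_eq_zero hi.le hg, mul_zero]
  · rw [hh i hi, chi_one, zero_mul]

theorem beta_late_early {k : ℕ} {h g : GG} (hh : h ∈ GI (Set.Iio k)) (hg : g ∈ GI (Set.Ici k)) :
    beta g h = deg g * deg h := by
  unfold beta
  have : ∀ i, chi (g.1 i) * pre i h = chi (g.1 i) * deg h := by
    intro i
    by_cases hi : k ≤ i
    · rw [pre_eq_deg hi hh]
    · rw [hg i hi, chi_one, zero_mul, zero_mul]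
  rw [finsum_congr this, ← finsum_mul']
  · rfl
  · exact support_chi g

/-- The element with coordinates `x` on the block `[l, m)`. -/
def blk (l m : ℕ) (x : F3) : GG :=
  ⟨fun i => if l ≤ i ∧ i < m then x else 1, by
    refine (Set.finite_Ico l m).subset fun i hi => ?_
    rw [Function.mem_mulSupport] at hi
    by_contra h
    exact hi (if_neg h)⟩

theorem blk_apply (l m : ℕ) (x : F3) (i : ℕ) :
    (blk l m x).1 i = if l ≤ i ∧ i < m then x else 1 := rfl

theorem blk_mem (l m : ℕ) (x : F3) : blk l m x ∈ GI (Set.Ico l m) := by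
  intro i hi
  rw [blk_apply, if_neg (show ¬ (l ≤ i ∧ i < m) from hi)]

theorem chi_blk {x : F3} (hx : chi x = 0) (l m i : ℕ) : chi ((blk l m x).1 i) = 0 := by
  rw [blk_apply]
  split_ifs
  · exact hx
  · exact chi_one

theorem beta_blk_left {x : F3} (hx : chi x = 0) (l m : ℕ) (g : GG) : beta (blk l m x) g = 0 := by
  unfold beta
  refine finsum_eq_zero_of_forall_eq_zero fun i => ?_
  rw [chi_blk hx, zero_mul]

theorem beta_blk_right {x : F3} (hx : chi x = 0) (l m : ℕ) (g : GG) :
    beta g (blk l m x) = 0 := by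
  unfold beta
  refine finsum_eq_zero_of_forall_eq_zero fun i => ?_
  have : pre i (blk l m x) = 0 := Finset.sum_eq_zero fun j _ => chi_blk hx l m j
  rw [this, mul_zero]

/-- `a_k`. -/
def ak (k : ℕ) : GG := blk k (k + 1) (FreeGroup.of 0)

theorem ak_mem (k : ℕ) : ak k ∈ GI (Set.Ico k (k + 1)) := blk_mem _ _ _

theorem deg_ak (k : ℕ) : deg (ak k) = 1 := by
  rw [deg_eq_sum (s := {k})]
  · rw [Finset.sum_singleton]
    unfold ak
    rw [blk_apply, if_pos ⟨le_rfl, by omega⟩, chi_of, if_pos rfl]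
  · refine GI_mono (fun i hi => ?_) (ak_mem k)
    rw [Set.mem_Ico] at hi
    rw [Finset.coe_singleton, Set.mem_singleton_iff]
    omega

/-! ### The sets in the gap lemma -/

/-- The first nontrivial coordinate in `[l, m)` starts with `b`. -/
def Sset (l m : ℕ) : Set GG :=
  {g | ∃ i, l ≤ i ∧ i < m ∧ (∀ j, l ≤ j → j < i → g.1 j = 1) ∧ g.1 i ∈ startsA (1 : Fin 3)}

/-- Some coordinate in `[l, m)` is nontrivial. -/
def Xset (l m : ℕ) : Set GG := ((GI (Set.Ico l m)ᶜ : Subgroup GG) : Set GG)ᶜ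

theorem mem_Xset {l m : ℕ} {g : GG} : g ∈ Xset l m ↔ ∃ i, l ≤ i ∧ i < m ∧ g.1 i ≠ 1 := by
  unfold Xset
  rw [Set.mem_compl_iff, SetLike.mem_coe, mem_GI]
  push Not
  constructor
  · rintro ⟨i, hi, h⟩
    rw [Set.mem_compl_iff, not_not, Set.mem_Ico] at hi
    exact ⟨i, hi.1, hi.2, h⟩
  · rintro ⟨i, h1, h2, h⟩
    exact ⟨i, fun h' => h' ⟨h1, h2⟩, h⟩

theorem conj_blk (l m : ℕ) (x : F3) (g : GG) {i : ℕ} (h1 : l ≤ i) (h2 : i < m) :
    (blk l m x * g * (blk l m x)⁻¹).1 i = x * g.1 i * x⁻¹ := by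
  rw [coe_mul_apply, coe_mul_apply, coe_inv_apply, blk_apply, if_pos ⟨h1, h2⟩]

theorem conj_blk' (l m : ℕ) (x : F3) (g : GG) {i : ℕ} (h1 : l ≤ i) (h2 : i < m) :
    ((blk l m x)⁻¹ * g * (blk l m x)).1 i = x⁻¹ * g.1 i * x := by
  rw [coe_mul_apply, coe_mul_apply, coe_inv_apply, blk_apply, if_pos ⟨h1, h2⟩]

theorem Sset_conj {l m : ℕ} {x : F3} {g : GG} : blk l m x * g * (blk l m x)⁻¹ ∈ Sset l m ↔
    ∃ i, l ≤ i ∧ i < m ∧ (∀ j, l ≤ j → j < i → g.1 j = 1) ∧
      x * g.1 i * x⁻¹ ∈ startsA (1 : Fin 3) := by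
  constructor
  · rintro ⟨i, h1, h2, h3, h4⟩
    rw [conj_blk l m x g h1 h2] at h4
    refine ⟨i, h1, h2, fun j hj hji => ?_, h4⟩
    have := h3 j hj hji
    rw [conj_blk l m x g hj (hji.trans h2), mul_inv_eq_one, mul_eq_left] at this
    exact this
  · rintro ⟨i, h1, h2, h3, h4⟩
    refine ⟨i, h1, h2, fun j hj hji => ?_, ?_⟩
    · rw [conj_blk l m x g hj (hji.trans h2), h3 j hj hji, mul_one, mul_inv_cancel]
    · rw [conj_blk l m x g h1 h2]
      exact h4

theorem Sset_conj' {l m : ℕ} {x : F3} {g : GG} : (blk l m x)⁻¹ * g * (blk l m x) ∈ Sset l m ↔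
    ∃ i, l ≤ i ∧ i < m ∧ (∀ j, l ≤ j → j < i → g.1 j = 1) ∧
      x⁻¹ * g.1 i * x ∈ startsA (1 : Fin 3) := by
  constructor
  · rintro ⟨i, h1, h2, h3, h4⟩
    rw [conj_blk' l m x g h1 h2] at h4
    refine ⟨i, h1, h2, fun j hj hji => ?_, h4⟩
    have := h3 j hj hji
    rw [conj_blk' l m x g hj (hji.trans h2), mul_assoc, inv_mul_eq_one, eq_comm,
      mul_eq_right] at this
    exact this
  · rintro ⟨i, h1, h2, h3, h4⟩
    refine ⟨i, h1, h2, fun j hj hji => ?_, ?_⟩
    · rw [conj_blk' l m x g hj (hji.trans h2), h3 j hj hji, mul_one, inv_mul_cancel]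
    · rw [conj_blk' l m x g h1 h2]
      exact h4

theorem first_unique {l : ℕ} {g : GG} {i i' : ℕ} (h1 : l ≤ i) (h1' : l ≤ i')
    (h2 : ∀ j, l ≤ j → j < i → g.1 j = 1) (h2' : ∀ j, l ≤ j → j < i' → g.1 j = 1)
    (h3 : g.1 i ≠ 1) (h3' : g.1 i' ≠ 1) : i = i' := by
  rcases lt_trichotomy i i' with h | h | h
  · exact absurd (h2' i h1 h) h3
  · exact h
  · exact absurd (h2 i' h1' h) h3'

theorem ne_one_of_startsA {x : F3} (h : x ∈ startsA (1 : Fin 3)) : x ≠ 1 := by
  rintro rfl
  exact one_notMem_startsA _ h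

theorem ne_one_of_conj {x y : F3} (h : y * x * y⁻¹ ∈ startsA (1 : Fin 3)) : x ≠ 1 := by
  rintro rfl
  rw [mul_one, mul_inv_cancel] at h
  exact one_notMem_startsA _ h

theorem ne_one_of_conj' {x y : F3} (h : y⁻¹ * x * y ∈ startsA (1 : Fin 3)) : x ≠ 1 := by
  rintro rfl
  rw [mul_one, inv_mul_cancel] at h
  exact one_notMem_startsA _ h

section GapSets

variable (l m : ℕ)

/-- `B_{lm}` -/
abbrev BB : GG := blk l m (FreeGroup.of 1)
/-- `C_{lm}` -/
abbrev CC : GG := blk l m (FreeGroup.of 2)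

theorem gap_cover (g : GG) (hg : g ∈ Xset l m) :
    g ∈ Sset l m ∨ BB l m * g * (BB l m)⁻¹ ∈ Sset l m := by
  classical
  rw [mem_Xset] at hg
  have hfind := Nat.find_spec hg
  have hmin := fun j => Nat.find_min hg (m := j)
  set i := Nat.find hg
  have h3 : ∀ j, l ≤ j → j < i → g.1 j = 1 := by
    intro j hj hji
    by_contra hne
    exact hmin j hji ⟨hj, hji.trans hfind.2.1, hne⟩
  rcases conj_cover (1 : Fin 3) hfind.2.2 with h | h
  · left
    exact ⟨i, hfind.1, hfind.2.1, h3, h⟩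
  · right
    exact Sset_conj.2 ⟨i, hfind.1, hfind.2.1, h3, h⟩

theorem gap_sub1 (g : GG) (hg : g ∈ Sset l m) : g ∈ Xset l m := by
  obtain ⟨i, h1, h2, -, h4⟩ := hg
  exact mem_Xset.2 ⟨i, h1, h2, ne_one_of_startsA h4⟩

theorem gap_sub2 (g : GG) (hg : CC l m * g * (CC l m)⁻¹ ∈ Sset l m) : g ∈ Xset l m := by
  obtain ⟨i, h1, h2, -, h4⟩ := Sset_conj.1 hg
  exact mem_Xset.2 ⟨i, h1, h2, ne_one_of_conj h4⟩

theorem gap_sub3 (g : GG) (hg : (CC l m)⁻¹ * g * CC l m ∈ Sset l m) : g ∈ Xset l m := by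
  obtain ⟨i, h1, h2, -, h4⟩ := Sset_conj'.1 hg
  exact mem_Xset.2 ⟨i, h1, h2, ne_one_of_conj' h4⟩

theorem gap_disj1 (g : GG) (hg : g ∈ Sset l m) : CC l m * g * (CC l m)⁻¹ ∉ Sset l m := by
  intro hg'
  obtain ⟨i, h1, h2, h3, h4⟩ := hg
  obtain ⟨i', h1', h2', h3', h4'⟩ := Sset_conj.1 hg'
  have e := first_unique h1 h1' h3 h3' (ne_one_of_startsA h4) (ne_one_of_conj h4')
  subst e
  exact (conj_disj (a := (1 : Fin 3)) (b := 2) (by decide) (g.1 i)).1 h4 h4'

theorem gap_disj2 (g : GG) (hg : g ∈ Sset l m) : (CC l m)⁻¹ * g * CC l m ∉ Sset l m := by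
  intro hg'
  obtain ⟨i, h1, h2, h3, h4⟩ := hg
  obtain ⟨i', h1', h2', h3', h4'⟩ := Sset_conj'.1 hg'
  have e := first_unique h1 h1' h3 h3' (ne_one_of_startsA h4) (ne_one_of_conj' h4')
  subst e
  exact (conj_disj (a := (1 : Fin 3)) (b := 2) (by decide) (g.1 i)).2.1 h4 h4'

theorem gap_disj3 (g : GG) (hg : CC l m * g * (CC l m)⁻¹ ∈ Sset l m) :
    (CC l m)⁻¹ * g * CC l m ∉ Sset l m := by
  intro hg'
  obtain ⟨i, h1, h2, h3, h4⟩ := Sset_conj.1 hg
  obtain ⟨i', h1', h2', h3', h4'⟩ := Sset_conj'.1 hg'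
  have e := first_unique h1 h1' h3 h3' (ne_one_of_conj h4) (ne_one_of_conj' h4')
  subst e
  exact (conj_disj (a := (1 : Fin 3)) (b := 2) (by decide) (g.1 i)).2.2 h4 h4'

end GapSets

/-! ### Swapping the blocks `[l, m)` and `[m, 2m - l)` -/

section Swap

variable (l m : ℕ)

/-- The permutation of `ℕ` swapping `[l, m)` and `[m, 2m - l)`. -/
def tauFun (i : ℕ) : ℕ :=
  if l ≤ i ∧ i < m then i + (m - l) else if m ≤ i ∧ i < m + (m - l) then i - (m - l) else i

theorem tauFun_invol {l m : ℕ} (hlm : l ≤ m) (i : ℕ) : tauFun l m (tauFun l m i) = i := by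
  unfold tauFun
  split_ifs <;> omega

variable {l m}

/-- `tauFun` as an equivalence. -/
def tau (hlm : l ≤ m) : ℕ ≃ ℕ where
  toFun := tauFun l m
  invFun := tauFun l m
  left_inv := tauFun_invol hlm
  right_inv := tauFun_invol hlm

/-- The automorphism of `GG` swapping the blocks `[l, m)` and `[m, 2m - l)`. -/
def sw (hlm : l ≤ m) : GG ≃* GG where
  toFun g := ⟨fun i => g.1 (tauFun l m i), by
    show (Function.mulSupport (fun i => g.1 (tauFun l m i))).Finite
    have h : (Function.mulSupport g.1).Finite := g.2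
    exact h.preimage (f := tauFun l m) ((tau hlm).injective.injOn)⟩
  invFun g := ⟨fun i => g.1 (tauFun l m i), by
    show (Function.mulSupport (fun i => g.1 (tauFun l m i))).Finite
    have h : (Function.mulSupport g.1).Finite := g.2
    exact h.preimage (f := tauFun l m) ((tau hlm).injective.injOn)⟩
  left_inv g := by
    refine Subtype.ext (funext fun i => ?_)
    show g.1 (tauFun l m (tauFun l m i)) = g.1 i
    rw [tauFun_invol hlm]
  right_inv g := by
    refine Subtype.ext (funext fun i => ?_)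
    show g.1 (tauFun l m (tauFun l m i)) = g.1 i
    rw [tauFun_invol hlm]
  map_mul' g h := rfl

theorem sw_apply (hlm : l ≤ m) (g : GG) (i : ℕ) : (sw hlm g).1 i = g.1 (tauFun l m i) := rfl

theorem sw_sw (hlm : l ≤ m) (g : GG) : sw hlm (sw hlm g) = g := (sw hlm).left_inv g

theorem sw_fix (hlm : l ≤ m) {g : GG} (hg : g ∈ GI (Set.Iio l)) : sw hlm g = g := by
  refine Subtype.ext (funext fun i => ?_)
  rw [sw_apply]
  by_cases hi : i < l
  · have : tauFun l m i = i := by unfold tauFun; split_ifs <;> omega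
    rw [this]
  · rw [hg i hi, hg]
    rw [Set.mem_Iio]
    unfold tauFun
    split_ifs <;> omega

theorem sw_mem (hlm : l ≤ m) {g : GG} (hg : g ∈ GI (Set.Iio m)) :
    sw hlm g ∈ GI (Set.Iio l ∪ Set.Ico m (m + (m - l))) := by
  intro i hi
  rw [sw_apply]
  refine hg _ ?_
  rw [Set.mem_union, Set.mem_Iio, Set.mem_Ico] at hi
  rw [Set.mem_Iio]
  unfold tauFun
  split_ifs <;> omega

theorem dgb_sw (hlm : l ≤ m) (g : GG) : dgb l m (sw hlm g) = dgb m (m + (m - l)) g := by
  unfold dgb
  have e : ∀ j ∈ Finset.Ico l m, chi ((sw hlm g).1 j) = chi (g.1 (j + (m - l))) := by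
    intro j hj
    rw [Finset.mem_Ico] at hj
    rw [sw_apply]
    have : tauFun l m j = j + (m - l) := by unfold tauFun; rw [if_pos hj]
    rw [this]
  rw [Finset.sum_congr rfl e, Finset.sum_Ico_add' (fun j => chi (g.1 j)) l m (m - l)]
  congr 2
  omega

theorem dgb_sw' (hlm : l ≤ m) (g : GG) : dgb m (m + (m - l)) (sw hlm g) = dgb l m g := by
  rw [← dgb_sw hlm, sw_sw]

theorem pre_sw (hlm : l ≤ m) (k : GG) (d : ℕ) (hd : l + d ≤ m) :
    pre (m + d) k = pre (l + d) (sw hlm k) + dgb l m k := by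
  induction d with
  | zero =>
    have e1 : pre (l + 0) (sw hlm k) = pre l k := by
      unfold pre
      refine Finset.sum_congr rfl fun j hj => ?_
      have := Finset.mem_range.1 hj
      rw [sw_apply]
      have : tauFun l m j = j := by unfold tauFun; split_ifs <;> omega
      rw [this]
    rw [e1]
    unfold pre dgb
    exact (Finset.sum_range_add_sum_Ico (fun j => chi (k.1 j)) hlm).symm
  | succ d ih =>
    have e1 : pre (m + (d + 1)) k = pre (m + d) k + chi (k.1 (m + d)) := by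
      unfold pre
      rw [← add_assoc, Finset.sum_range_succ]
    have e2 : pre (l + (d + 1)) (sw hlm k) =
        pre (l + d) (sw hlm k) + chi ((sw hlm k).1 (l + d)) := by
      unfold pre
      rw [← add_assoc, Finset.sum_range_succ]
    have e3 : tauFun l m (l + d) = m + d := by unfold tauFun; split_ifs <;> omega
    rw [e1, e2, ih (by omega), sw_apply, e3]
    ring

theorem beta_sw (hlm : l ≤ m) {p : GG} (hp : p ∈ GI (Set.Iio m)) (k : GG) :
    beta (sw hlm p) k = beta p (sw hlm k) + dgb l m p * dgb l m k := by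
  have e1 : beta (sw hlm p) k = ∑ᶠ i, chi (p.1 i) * pre (tauFun l m i) k := by
    unfold beta
    rw [← finsum_comp_equiv (tau hlm) (f := fun i => chi (p.1 i) * pre (tauFun l m i) k)]
    refine finsum_congr fun i => ?_
    show chi ((sw hlm p).1 i) * pre i k =
      chi (p.1 (tauFun l m i)) * pre (tauFun l m (tauFun l m i)) k
    rw [tauFun_invol hlm, sw_apply]
  have e2 : ∑ᶠ i, chi (p.1 i) * pre (tauFun l m i) k =
      ∑ i ∈ Finset.range m, chi (p.1 i) * pre (tauFun l m i) k := by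
    refine finsum_eq_sum_of_support_subset _ fun i hi => ?_
    by_contra h'
    rw [Finset.coe_range] at h'
    rw [Function.mem_support, hp i h', chi_one, zero_mul] at hi
    exact hi rfl
  have e3 : beta p (sw hlm k) = ∑ i ∈ Finset.range m, chi (p.1 i) * pre i (sw hlm k) := by
    refine beta_eq_sum ?_ _
    rw [Finset.coe_range]
    exact hp
  have e4 : dgb l m p = ∑ i ∈ Finset.range m, if l ≤ i then chi (p.1 i) else 0 := by
    unfold dgb
    rw [← Finset.sum_filter]
    refine Finset.sum_congr ?_ fun _ _ => rfl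
    ext i
    rw [Finset.mem_Ico, Finset.mem_filter, Finset.mem_range]
    tauto
  rw [e1, e2, e3, e4, Finset.sum_mul, ← Finset.sum_add_distrib]
  refine Finset.sum_congr rfl fun i hi => ?_
  have him := Finset.mem_range.1 hi
  by_cases hli : l ≤ i
  · rw [if_pos hli, ← mul_add]
    congr 1
    have e5 := pre_sw hlm k (i - l) (by omega)
    have e6 : tauFun l m i = m + (i - l) := by unfold tauFun; split_ifs <;> omega
    have e7 : l + (i - l) = i := by omega
    rw [e7] at e5
    rw [e6, e5]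
  · rw [if_neg hli, zero_mul, add_zero]
    congr 1
    have e6 : tauFun l m i = i := by unfold tauFun; split_ifs <;> omega
    rw [e6]
    unfold pre
    refine Finset.sum_congr rfl fun j hj => ?_
    have := Finset.mem_range.1 hj
    rw [sw_apply]
    have : tauFun l m j = j := by unfold tauFun; split_ifs <;> omega
    rw [this]

end Swap

/-! ### Degrees of elements of `GI` -/

theorem dgb_eq_zero {l m : ℕ} {I : Set ℕ} (h : ∀ i, l ≤ i → i < m → i ∉ I) {g : GG}
    (hg : g ∈ GI I) : dgb l m g = 0 := by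
  refine Finset.sum_eq_zero fun j hj => ?_
  rw [Finset.mem_Ico] at hj
  rw [hg j (h j hj.1 hj.2), chi_one]

/-! ### Cube roots of unity -/

theorem one_le_norm_sub_one {z : ℂ} (h3 : z ^ 3 = 1) (h1 : z ≠ 1) : 1 ≤ ‖z - 1‖ := by
  have hz : ‖z‖ = 1 := by
    have : ‖z‖ ^ 3 = 1 := by rw [← norm_pow, h3, norm_one]
    exact (pow_eq_one_iff_of_nonneg (norm_nonneg _) (by norm_num)).1 this
  have h2 : z ^ 2 + z + 1 = 0 := by
    have : (z - 1) * (z ^ 2 + z + 1) = 0 := by
      have : (z - 1) * (z ^ 2 + z + 1) = z ^ 3 - 1 := by ring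
      rw [this, h3, sub_self]
    rcases mul_eq_zero.1 this with h | h
    · exact absurd (sub_eq_zero.1 h) h1
    · exact h
  have h4 : z * (starRingEnd ℂ) z = 1 := by
    rw [Complex.mul_conj, Complex.normSq_eq_norm_sq, hz]; norm_num
  have h5 : z + 1 + (starRingEnd ℂ) z = 0 := by
    have : (z ^ 2 + z + 1) * (starRingEnd ℂ) z = 0 := by rw [h2, zero_mul]
    have e : (z ^ 2 + z + 1) * (starRingEnd ℂ) z =
        z * (z * (starRingEnd ℂ) z) + z * (starRingEnd ℂ) z + (starRingEnd ℂ) z := by ring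
    rw [e, h4, mul_one] at this
    exact this
  have h6 : 2 * z.re + 1 = 0 := by
    have := congrArg Complex.re h5
    rw [Complex.add_re, Complex.add_re, Complex.conj_re, Complex.one_re, Complex.zero_re] at this
    linarith
  have h7 := Complex.abs_re_le_norm (z - 1)
  rw [Complex.sub_re, Complex.one_re] at h7
  have h8 : |z.re - 1| = 3 / 2 := by
    have : z.re = -1 / 2 := by linarith
    rw [this]; norm_num
  rw [h8] at h7
  linarith

theorem toCircle_cube (j : ZMod 3) : ((ZMod.toCircle j : Circle) : ℂ) ^ 3 = 1 := by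
  rw [← Circle.coe_pow, ← AddChar.map_nsmul_eq_pow]
  have : (3 : ℕ) • j = 0 := by
    rw [nsmul_eq_mul]
    have : ((3 : ℕ) : ZMod 3) = 0 := ZMod.natCast_self 3
    rw [this, zero_mul]
  rw [this, AddChar.map_zero_eq_one, Circle.coe_one]

theorem toCircle_ne_one {j : ZMod 3} (hj : j ≠ 0) : ((ZMod.toCircle j : Circle) : ℂ) ≠ 1 := by
  intro h
  apply hj
  apply ZMod.injective_toCircle
  rw [AddChar.map_zero_eq_one]
  exact Circle.ext h

theorem toCircle_gap {j : ZMod 3} (hj : j ≠ 0) :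
    1 ≤ ‖((ZMod.toCircle j : Circle) : ℂ) - 1‖ :=
  one_le_norm_sub_one (toCircle_cube j) (toCircle_ne_one hj)

end Pool.Agent.OpEq
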