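import Pool.Agent.OpEq.Slices
import Pool.Agent.OpEq.Grp

/-!
# Operator level lemmas: levels, transport, relative commutant estimate
-/

noncomputable section

set_option linter.unusedSectionVars false

namespace Pool.Agent.OpEq

open scoped ENNReal InnerProductSpace ComplexOrder Topology
open Pool.Agent.InnerAm (ell2 delta normSq_ell2 delta_apply norm_delta compEquiv
  compEquiv_apply)
open Pool.Agent.ExT (mulInd mulInd_apply norm_le_of_sq inner_delta_left inner_delta_right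
  hasSum_delta ext_delta commVN mem_commVN TracialVNA)

section General

variable {G : Type} [Group G] {φ : G →* G →* Circle}

/-- Truncation commutes with right multiplication by elements of degree zero. -/
theorem mulInd_mul_right {A V : Set G} (hV : IsSlice V) (x : ell2 G →L[ℂ] ell2 G) {η : ell2 G}
    (hη : ∀ g, g ∉ A → (η : G → ℂ) g = 0)
    (hA : ∀ a ∈ A, ∀ k, k * a⁻¹ ∈ V ↔ k ∈ V) :
    mulInd V (x η) = cut V x η := by
  classical
  ext k
  rw [mulInd_apply]
  have h1 := hasSum_apply x η k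
  have h2 := hasSum_apply (cut V x) η k
  by_cases hk : k ∈ V
  · rw [if_pos hk]
    refine h1.unique ?_
    convert h2 using 1
    funext g
    by_cases hg : g ∈ A
    · rw [cut_delta hV, if_pos ((hA g hg k).2 hk)]
    · rw [hη g hg, zero_mul, zero_mul]
  · rw [if_neg hk]
    symm
    refine apply_eq_zero fun g hg => ?_
    have hgA : g ∈ A := by
      by_contra h
      exact hg (hη g h)
    rw [cut_delta hV, if_neg fun h => hk ((hA g hgA k).1 h)]

/-- Truncation commutes with left multiplication by elements of degree zero. -/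
theorem mulInd_mul_left {A V : Set G} {r : ell2 G →L[ℂ] ell2 G} (hr : SuppIn φ A r)
    (hA : ∀ a ∈ A, ∀ h, a * h ∈ V ↔ h ∈ V) (η : ell2 G) :
    mulInd V (r η) = r (mulInd V η) := by
  classical
  ext k
  rw [mulInd_apply]
  have h1 := hasSum_apply r η k
  have h2 := hasSum_apply r (mulInd V η) k
  by_cases hk : k ∈ V
  · rw [if_pos hk]
    refine h1.unique ?_
    convert h2 using 1
    funext g
    rw [mulInd_apply]
    by_cases hg : k * g⁻¹ ∈ A
    · have := hA _ hg g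
      rw [inv_mul_cancel_right] at this
      rw [if_pos (this.1 hk)]
    · rw [hr.delta_eq_zero hg, mul_zero, mul_zero]
  · rw [if_neg hk]
    symm
    refine apply_eq_zero fun g hg => ?_
    refine hr.delta_eq_zero fun hg' => ?_
    have := hA _ hg' g
    rw [inv_mul_cancel_right] at this
    apply hg
    rw [mulInd_apply, if_neg fun h => hk (this.2 h)]

/-- Conjugation by a monomial unitary. -/
theorem transport {e : G ≃* G} {p : G → Circle} {A : Set G}
    (hp : ∀ g ∈ A, ∀ h, p (e.symm g * h) * (p h)⁻¹ * φ g (e h) = φ (e.symm g) h)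
    {x : ell2 G →L[ℂ] ell2 G} (hx : SuppIn φ A x) :
    mono e.toEquiv p * x * star (mono e.toEquiv p) ∈ TGvn φ ∧
      ∀ k, ((mono e.toEquiv p * x * star (mono e.toEquiv p)) (delta 1) : G → ℂ) k =
        (x (delta 1) : G → ℂ) (e k) := by
  have key : ∀ h k, ((mono e.toEquiv p * x * star (mono e.toEquiv p)) (delta h) : G → ℂ) k =
      (φ (k * h⁻¹) h : ℂ) * (x (delta 1) : G → ℂ) (e (k * h⁻¹)) := by
    intro h k
    show (mono e.toEquiv p (x (star (mono e.toEquiv p) (delta h))) : G → ℂ) k = _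
    rw [mono_apply, star_mono, mono_delta]
    have e1 : e.toEquiv.symm.symm h = e h := rfl
    have e2 : e.toEquiv.symm (e h) = h := e.toEquiv.symm_apply_apply h
    rw [e1, e2, map_smul]
    show (p k : ℂ) * (((p h)⁻¹ : Circle) * (x (delta (e h)) : G → ℂ) (e k)) = _
    rw [apply_delta hx.mem, ← map_inv, ← map_mul]
    by_cases hA : e (k * h⁻¹) ∈ A
    · have h1 := hp _ hA h
      rw [e.symm_apply_apply, inv_mul_cancel_right] at h1
      rw [← h1, Circle.coe_mul, Circle.coe_mul]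
      ring
    · rw [hx.supp _ hA, mul_zero, mul_zero, mul_zero, mul_zero]
  have key1 : ∀ k, ((mono e.toEquiv p * x * star (mono e.toEquiv p)) (delta 1) : G → ℂ) k =
        (x (delta 1) : G → ℂ) (e k) := by
    intro k
    rw [key, inv_one, mul_one, map_one, Circle.coe_one, one_mul]
  refine ⟨mem_TG_of_coeff fun h k => ?_, key1⟩
  rw [key, key1]

end General

/-! ### The concrete group -/

/-- The set `G⁰_{≥ l}`. -/
def E0 (l : ℕ) : Set GG := ((GI (Set.Ici l) : Subgroup GG) : Set GG) ∩ {g | deg g = 0}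

theorem isSlice_GI (I : Set ℕ) : IsSlice ((GI I : Subgroup GG) : Set GG) := isSlice_subgroup _

theorem isSlice_deg (j : ZMod 3) : IsSlice {g : GG | deg g = j} := isSlice_level deg deg_mul j

theorem isSlice_dgb (l m : ℕ) (j : ZMod 3) : IsSlice {g : GG | dgb l m g = j} :=
  isSlice_level _ (dgb_mul l m) j

theorem isSlice_E0 (l : ℕ) : IsSlice (E0 l) := (isSlice_GI _).inter (isSlice_deg 0)

theorem phi_ak_late {k : ℕ} {g : GG} (hg : g ∈ GI (Set.Ici (k + 1))) :
    ak k * g = g * ak k ∧ phi (ak k) g = 1 ∧ phi g (ak k) = ZMod.toCircle (deg g) := by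
  have h1 : ak k ∈ GI (Set.Iio (k + 1)) :=
    GI_mono (fun i hi => by rw [Set.mem_Ico] at hi; rw [Set.mem_Iio]; omega) (ak_mem k)
  refine ⟨GI_comm (fun i hi => ?_) h1 hg, ?_, ?_⟩
  · rw [Set.mem_Iio] at hi
    rw [Set.mem_Ici]
    omega
  · rw [phi_apply, beta_early_late h1 hg, AddChar.map_zero_eq_one]
  · rw [phi_apply, beta_late_early h1 hg, deg_ak, mul_one]

theorem phi_ak_early {k : ℕ} {g : GG} (hg : g ∈ GI (Set.Iio k)) :
    ak k * g = g * ak k ∧ phi (ak k) g = ZMod.toCircle (deg g) ∧ phi g (ak k) = 1 := by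
  have h1 : ak k ∈ GI (Set.Ici k) :=
    GI_mono (fun i hi => by rw [Set.mem_Ico] at hi; rw [Set.mem_Ici]; omega) (ak_mem k)
  refine ⟨GI_comm (fun i hi => ?_) h1 hg, ?_, ?_⟩
  · rw [Set.mem_Ici] at hi
    rw [Set.mem_Iio]
    omega
  · rw [phi_apply, beta_late_early hg h1, deg_ak, one_mul]
  · rw [phi_apply, beta_early_late hg h1, AddChar.map_zero_eq_one]

theorem gap_block (l m : ℕ) (ξ : ell2 GG) : ‖mulInd (Xset l m) ξ‖ ≤
    10 * (‖Kop phi (BB l m) ξ‖ + ‖Kop phi (CC l m) ξ‖) :=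
  gap_lemma (gap_cover l m) (gap_sub1 l m) (gap_sub2 l m) (gap_sub3 l m) (gap_disj1 l m)
    (gap_disj2 l m) (gap_disj3 l m) ξ
    (le_add_of_nonneg_right (norm_nonneg _)) (le_add_of_nonneg_left (norm_nonneg _))

/-- The relative commutant estimate. -/
theorem rc_bound (l : ℕ) (ξ : ell2 GG) : ‖mulInd (E0 (l + 1))ᶜ ξ‖ ≤
    10 * (‖Kop phi (BB 0 (l + 1)) ξ‖ + ‖Kop phi (CC 0 (l + 1)) ξ‖) + ‖Kop phi (ak l) ξ‖ := by
  have h1 := gap_block 0 (l + 1) ξ
  set T : Set GG := {g | g ∈ GI (Set.Ici (l + 1)) ∧ deg g ≠ 0} with hT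
  have h2 : 1 * ‖mulInd T ξ‖ ≤ ‖Kop phi (ak l) ξ‖ := by
    refine phase_gap zero_le_one (fun g hg => ?_) ξ
    obtain ⟨h3, h4, h5⟩ := phi_ak_late hg.1
    refine ⟨h3, ?_⟩
    rw [h4, h5, Circle.coe_one, norm_sub_rev]
    exact toCircle_gap hg.2
  have h3 : ‖mulInd (E0 (l + 1))ᶜ ξ‖ ^ 2 ≤ ‖mulInd (Xset 0 (l + 1)) ξ‖ ^ 2 + ‖mulInd T ξ‖ ^ 2 := by
    refine sq_mulInd_le_add (fun g hg => ?_) ξ
    by_cases hg1 : g ∈ GI (Set.Ico 0 (l + 1))ᶜ
    · right
      have hg2 : g ∈ GI (Set.Ici (l + 1)) := GI_mono (fun i hi => by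
        rw [Set.mem_compl_iff, Set.mem_Ico] at hi
        rw [Set.mem_Ici]
        omega) hg1
      exact ⟨hg2, fun h => hg ⟨hg2, h⟩⟩
    · left
      exact hg1
  have h4 : ‖mulInd (E0 (l + 1))ᶜ ξ‖ ≤ ‖mulInd (Xset 0 (l + 1)) ξ‖ + ‖mulInd T ξ‖ := by
    have a1 := norm_nonneg (mulInd (Xset 0 (l + 1)) ξ)
    have a2 := norm_nonneg (mulInd T ξ)
    have a3 := norm_nonneg (mulInd (E0 (l + 1))ᶜ ξ)
    nlinarith
  linarith

/-- The phases implementing the swap. -/
def swp (l m : ℕ) (k : GG) : Circle := ZMod.toCircle (dgb m (m + (m - l)) k * dgb l m k)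

/-- The unitary implementing the swap of the blocks `[l, m)` and `[m, 2m - l)`. -/
def swU {l m : ℕ} (hlm : l ≤ m) : ell2 GG →L[ℂ] ell2 GG := mono (sw hlm).toEquiv (swp l m)

theorem swp_rel {l m : ℕ} (hlm : l ≤ m) (g : GG) (hg : g ∈ GI (Set.Iio m)) (h : GG) :
    swp l m ((sw hlm).symm g * h) * (swp l m h)⁻¹ * phi g (sw hlm h) =
      phi ((sw hlm).symm g) h := by
  have e0 : (sw hlm).symm g = sw hlm g := rfl
  rw [e0, phi_apply, phi_apply, beta_sw hlm hg]
  unfold swp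
  rw [dgb_mul, dgb_mul, dgb_sw, dgb_sw', ← AddChar.map_neg_eq_inv, ← AddChar.map_add_eq_mul,
    ← AddChar.map_add_eq_mul]
  congr 1
  have e1 : dgb m (m + (m - l)) g = 0 := dgb_eq_zero (I := Set.Iio m) (fun i hi _ => by
    rw [Set.mem_Iio]; omega) hg
  rw [e1]
  ring

theorem swU_star_mul {l m : ℕ} (hlm : l ≤ m) : star (swU hlm) * swU hlm = 1 := mono_star_mul _ _
theorem swU_mul_star {l m : ℕ} (hlm : l ≤ m) : swU hlm * star (swU hlm) = 1 := mono_mul_star _ _

/-- Conjugation by `swU`. -/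
def swC {l m : ℕ} (hlm : l ≤ m) (x : ell2 GG →L[ℂ] ell2 GG) : ell2 GG →L[ℂ] ell2 GG :=
  swU hlm * x * star (swU hlm)

section SwC

variable {l m : ℕ} (hlm : l ≤ m)

theorem swC_mul (x y : ell2 GG →L[ℂ] ell2 GG) : swC hlm (x * y) = swC hlm x * swC hlm y := by
  unfold swC
  calc swU hlm * (x * y) * star (swU hlm) = swU hlm * x * (1 * y * star (swU hlm)) := by
        noncomm_ring
    _ = swU hlm * x * (star (swU hlm) * swU hlm * y * star (swU hlm)) := by rw [swU_star_mul]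
    _ = _ := by noncomm_ring

theorem swC_one : swC hlm 1 = 1 := by
  unfold swC
  rw [mul_one, swU_mul_star]

theorem swC_star (x : ell2 GG →L[ℂ] ell2 GG) : swC hlm (star x) = star (swC hlm x) := by
  unfold swC
  rw [star_mul, star_mul, star_star, mul_assoc]

theorem swC_sub (x y : ell2 GG →L[ℂ] ell2 GG) : swC hlm (x - y) = swC hlm x - swC hlm y := by
  unfold swC
  rw [mul_sub, sub_mul]

theorem norm_swC_le (x : ell2 GG →L[ℂ] ell2 GG) : ‖swC hlm x‖ ≤ ‖x‖ := by
  unfold swC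
  have h1 : ‖swU hlm‖ ≤ 1 := norm_mono_le _ _
  have h2 : ‖star (swU hlm)‖ ≤ 1 := by
    unfold swU
    rw [star_mono]
    exact norm_mono_le _ _
  calc ‖swU hlm * x * star (swU hlm)‖ ≤ ‖swU hlm‖ * ‖x‖ * ‖star (swU hlm)‖ :=
        (norm_mul_le _ _).trans (mul_le_mul_of_nonneg_right (norm_mul_le _ _) (norm_nonneg _))
    _ ≤ 1 * ‖x‖ * 1 := by
        gcongr
    _ = ‖x‖ := by ring

theorem norm_swC_delta (x : ell2 GG →L[ℂ] ell2 GG) :
    ‖swC hlm x (delta 1)‖ = ‖x (delta 1)‖ := by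
  show ‖mono _ _ (x (star (mono (sw hlm).toEquiv (swp l m)) (delta 1)))‖ = _
  rw [norm_mono, star_mono, mono_delta]
  have e1 : (sw hlm).toEquiv.symm.symm 1 = 1 := map_one (sw hlm)
  rw [e1, map_smul, norm_smul, Circle.norm_coe, one_mul]

theorem swC_mem {x : ell2 GG →L[ℂ] ell2 GG} (hx : SuppIn phi (GI (Set.Iio m)) x) :
    swC hlm x ∈ TGvn phi := (transport (swp_rel hlm) hx).1

theorem swC_apply {x : ell2 GG →L[ℂ] ell2 GG} (hx : SuppIn phi (GI (Set.Iio m)) x) (k : GG) :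
    (swC hlm x (delta 1) : GG → ℂ) k = (x (delta 1) : GG → ℂ) (sw hlm k) :=
  (transport (swp_rel hlm) hx).2 k

theorem swC_supp {x : ell2 GG →L[ℂ] ell2 GG} (hx : SuppIn phi (GI (Set.Iio m)) x) :
    SuppIn phi (GI (Set.Iio l ∪ Set.Ico m (m + (m - l)))) (swC hlm x) := by
  refine ⟨swC_mem hlm hx, fun k hk => ?_⟩
  rw [swC_apply hlm hx, hx.supp]
  intro h
  have := sw_mem hlm h
  rw [sw_sw] at this
  exact hk this

theorem swC_fix {x : ell2 GG →L[ℂ] ell2 GG} (hx : SuppIn phi (GI (Set.Iio l)) x) :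
    swC hlm x = x := by
  have hx' : SuppIn phi (GI (Set.Iio m)) x := hx.mono fun g hg =>
    GI_mono (Set.Iio_subset_Iio hlm) hg
  refine eq_of_delta_one (swC_mem hlm hx') hx.mem ?_
  ext k
  rw [swC_apply hlm hx']
  by_cases hk : k ∈ GI (Set.Iio l)
  · rw [sw_fix hlm hk]
  · rw [hx.supp k hk, hx.supp]
    intro h
    apply hk
    have := sw_fix hlm h
    rw [sw_sw] at this
    rw [this]
    exact h

end SwC

end Pool.Agent.OpEq
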