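import Pool.Agent.OpEq.Inst
import Pool.Agent.OpEq.Core1
import Pool.Agent.ExT.LGFactor

/-!
# The sentence has value `≤ 0` in `M`; `M` is a II₁ factor
-/

noncomputable section

set_option linter.unusedSectionVars false

namespace Pool.Agent.OpEq

open scoped ENNReal InnerProductSpace ComplexOrder Topology
open Filter
open Pool.Agent.InnerAm (ell2 delta normSq_ell2 delta_apply norm_delta compEquiv
  compEquiv_apply)
open Pool.Agent.ExT (mulInd mulInd_apply norm_le_of_sq inner_delta_left inner_delta_right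
  hasSum_delta ext_delta commVN mem_commVN TracialVNA)

theorem norm_mulInd_union {G : Type} [Group G] {S T X : Set G} (h : X ⊆ S ∪ T) (ξ : ell2 G) :
    ‖mulInd X ξ‖ ≤ ‖mulInd S ξ‖ + ‖mulInd T ξ‖ := by
  have h3 := sq_mulInd_le_add h ξ
  have a1 := norm_nonneg (mulInd S ξ)
  have a2 := norm_nonneg (mulInd T ξ)
  have a3 := norm_nonneg (mulInd X ξ)
  nlinarith

theorem near0 (ξ : ell2 GG) {ε : ℝ} (hε : 0 < ε) :
    ∃ k, ∀ k', k ≤ k' → ‖mulInd ((GI (Set.Iio k') : Subgroup GG) : Set GG)ᶜ ξ‖ < ε := by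
  classical
  obtain ⟨s, hs⟩ := exists_finset_mulInd ξ hε
  choose K hK using exists_bound
  refine ⟨s.sup K, fun k' hk' => lt_of_le_of_lt (norm_mulInd_mono (fun g hg => ?_) ξ) hs⟩
  intro hgs
  exact hg (hK g k' ((Finset.le_sup hgs).trans hk'))

theorem conj_bound {k k' : ℕ} (hk : k ≤ k') {y : ell2 GG →L[ℂ] ell2 GG} (hy : y ∈ TGvn phi) :
    ‖(Lop phi (ak k') * y * star (Lop phi (ak k')) - Lop phi (ak k) * y * star (Lop phi (ak k)))
      (delta 1)‖ ≤ 2 * ‖mulInd ((GI (Set.Iio k) : Subgroup GG) : Set GG)ᶜ (y (delta 1))‖ := by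
  set a := Lop phi (ak k) with ha
  set a' := Lop phi (ak k') with ha'
  have am : a ∈ TGvn phi := Lop_mem _
  have am' : a' ∈ TGvn phi := Lop_mem _
  have sl : IsSlice ((GI (Set.Iio k) : Subgroup GG) : Set GG) := isSlice_GI _
  set y' := cut ((GI (Set.Iio k) : Subgroup GG) : Set GG) y with hy'
  have y's : SuppIn phi (GI (Set.Iio k)) y' := cut_supp' sl hy
  have y'm : y' ∈ TGvn phi := y's.mem
  have hcomm : (star a * a') * y' = y' * (star a * a') := by
    have h1 : SuppIn phi {g | g ∈ GI (Set.Ici k) ∧ deg g = 0} (star a * a') := by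
      have h2 : SuppIn phi {ak k} a := suppIn_Lop rfl
      have h3 : SuppIn phi {ak k'} a' := suppIn_Lop rfl
      have h4 : SuppIn phi {(ak k)⁻¹} (star a) := h2.star fun b hb => by
        rw [Set.mem_singleton_iff] at hb ⊢
        rw [hb]
      refine h4.mul h3 fun b hb c hc => ?_
      rw [Set.mem_singleton_iff] at hb hc
      subst hb hc
      have m1 : ak k ∈ GI (Set.Ici k) :=
        GI_mono (fun i hi => by rw [Set.mem_Ico] at hi; rw [Set.mem_Ici]; omega) (ak_mem k)
      have m2 : ak k' ∈ GI (Set.Ici k) :=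
        GI_mono (fun i hi => by rw [Set.mem_Ico] at hi; rw [Set.mem_Ici]; omega) (ak_mem k')
      refine ⟨mul_mem (inv_mem m1) m2, ?_⟩
      have h5 := deg_mul (ak k) (ak k)⁻¹
      have h6 : deg (1 : GG) = 0 := by
        have := deg_mul 1 1
        rw [mul_one] at this
        exact left_eq_add.1 this
      rw [mul_inv_cancel, h6, deg_ak] at h5
      rw [deg_mul, deg_ak]
      rw [add_comm] at h5
      exact h5.symm
    refine commute_of_supp h1 y's fun b hb c hc => ⟨GI_comm (fun i hi => ?_) hb.1 hc, ?_⟩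
    · rw [Set.mem_Ici] at hi
      rw [Set.mem_Iio]
      omega
    · rw [phi_apply, phi_apply, beta_late_early hc hb.1, beta_early_late hc hb.1, hb.2, zero_mul]
  have aa : a * star a = 1 := Lop_mul_star _ _
  have aa' : a' * star a' = 1 := Lop_mul_star _ _
  have e1 : a' * y' * star a' = a * y' * star a := by
    calc a' * y' * star a' = (a * star a) * a' * y' * star a' := by rw [aa, one_mul]
      _ = a * ((star a * a') * y') * star a' := by noncomm_ring
      _ = a * y' * star a * (a' * star a') := by rw [hcomm]; noncomm_ring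
      _ = a * y' * star a := by rw [aa', mul_one]
  have hn : ∀ b ∈ TGvn phi, ‖b‖ ≤ 1 → ∀ x ∈ TGvn phi, ‖(b * x * star b) (delta 1)‖ ≤
      ‖x (delta 1)‖ := by
    intro b hb hb1 x hx
    rw [mul_assoc]
    have h1 : ‖(b * (x * star b)) (delta 1)‖ ≤ ‖b‖ * ‖(x * star b) (delta 1)‖ :=
      b.le_opNorm _
    have h2 := norm_mul_delta hx (star_mem hb)
    have h3 : ‖star b‖ = ‖b‖ := norm_star b
    rw [h3] at h2
    have n1 := norm_nonneg (x (delta 1))
    have n2 := norm_nonneg ((x * star b) (delta 1))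
    have n3 := norm_nonneg b
    calc ‖(b * (x * star b)) (delta 1)‖ ≤ ‖b‖ * ‖(x * star b) (delta 1)‖ := h1
      _ ≤ 1 * ‖(x * star b) (delta 1)‖ := by gcongr
      _ ≤ 1 * (‖b‖ * ‖x (delta 1)‖) := by gcongr
      _ ≤ 1 * (1 * ‖x (delta 1)‖) := by gcongr
      _ = ‖x (delta 1)‖ := by ring
  have e2 : a' * y * star a' - a * y * star a =
      a' * (y - y') * star a' - a * (y - y') * star a := by
    rw [mul_sub, sub_mul, mul_sub, sub_mul, e1]
    abel
  rw [e2, sub_apply]
  refine (norm_sub_le _ _).trans ?_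
  have h1 := hn a' am' (norm_Lop_le _ _) (y - y') (sub_mem hy y'm)
  have h2 := hn a am (norm_Lop_le _ _) (y - y') (sub_mem hy y'm)
  have e3 := congrArg norm (sub_cut_delta sl y)
  rw [← hy'] at e3
  rw [e3] at h1 h2
  linarith

theorem ak_rel {k k' : ℕ} (hk : k < k') :
    Lop phi (ak k') * Lop phi (ak k) = zet • (Lop phi (ak k) * Lop phi (ak k')) := by
  have h1 : ak k ∈ GI (Set.Iio k') :=
    GI_mono (fun i hi => by rw [Set.mem_Ico] at hi; rw [Set.mem_Iio]; omega) (ak_mem k)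
  obtain ⟨h2, h3, h4⟩ := phi_ak_early h1
  rw [Lop_mul, Lop_mul, h3, h4, deg_ak, Circle.coe_one, one_smul, h2]
  rfl

theorem z_bound (k' : ℕ) (ξ : ell2 GG) : ‖Kop phi (ak k') ξ‖ ≤
    2 * ‖mulInd ((GI (Set.Iio k') : Subgroup GG) : Set GG)ᶜ ξ‖ +
    22 * (‖Kop phi (BB 0 1) ξ‖ + ‖Kop phi (CC 0 1) ξ‖ + ‖Kop phi (ak 0) ξ‖) := by
  set T : Set GG := {g | ak k' * g = g * ak k' ∧ phi (ak k') g = phi g (ak k')} with hT
  have h1 : ‖Kop phi (ak k') ξ‖ ≤ 2 * ‖mulInd Tᶜ ξ‖ := norm_Kop_le_compl (fun g hg => hg) ξ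
  have h2 : ‖mulInd Tᶜ ξ‖ ≤ ‖mulInd ((GI (Set.Iio k') : Subgroup GG) : Set GG)ᶜ ξ‖ +
      ‖mulInd (E0 1)ᶜ ξ‖ := by
    refine norm_mulInd_union (fun g hg => ?_) ξ
    by_contra hcon
    rw [Set.mem_union, not_or, Set.mem_compl_iff, Set.mem_compl_iff, not_not, not_not] at hcon
    obtain ⟨hc1, hc2⟩ := hcon
    apply hg
    obtain ⟨h3, h4, h5⟩ := phi_ak_early hc1
    have h6 : deg g = 0 := hc2.2
    refine ⟨h3, ?_⟩
    rw [h4, h5, h6, AddChar.map_zero_eq_one]
  have h3 := rc_bound 0 ξ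
  rw [zero_add] at h3
  have n1 := norm_nonneg (Kop phi (BB 0 1) ξ)
  have n2 := norm_nonneg (Kop phi (CC 0 1) ξ)
  have n3 := norm_nonneg (Kop phi (ak 0) ξ)
  linarith

/-- The tracial von Neumann algebra. -/
abbrev NM : TracialVNA (ell2 GG) := TG phi

/-- The unitaries `u_g` in `M`. -/
def UU (g : GG) : NM.A := ⟨Lop phi g, Lop_mem g⟩

theorem UU_mem (g : GG) : UU g ∈ ballM NM := norm_Lop_le phi g

theorem nrm_UU1 (g : GG) : nrm (tauM NM) (star (UU g) * UU g - 1) = 0 := by
  rw [nrm_M]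
  show ‖(star (Lop phi g) * Lop phi g - 1) (delta 1)‖ = 0
  rw [Lop_star_mul, sub_self]
  exact norm_zero

theorem nrm_UU2 (g : GG) : nrm (tauM NM) (UU g * star (UU g) - 1) = 0 := by
  rw [nrm_M]
  show ‖(Lop phi g * star (Lop phi g) - 1) (delta 1)‖ = 0
  rw [Lop_mul_star, sub_self]
  exact norm_zero

theorem nrm_comm (g : GG) (z : NM.A) : nrm (tauM NM) (UU g * z - z * UU g) =
    ‖Kop phi g (z.1 (delta 1))‖ := by
  rw [nrm_M, ← comm_delta z.2]
  rfl

theorem claim1 {δ : ℝ} (hδ : 0 < δ) : sigma.val (tauM NM) (ballM NM) Fin.elim0 ≤ δ := by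
  have hδ' : 0 < δ / 10 := by positivity
  refine sigma_le ballM_nonempty polyBdd_M ⟨UU (BB 0 1), UU_mem _, UU (CC 0 1), UU_mem _,
    UU (ak 0), UU_mem _, fun y1 hy1 y2 hy2 y3 hy3 => ?_⟩
  obtain ⟨k1, hk1⟩ := near0 (y1.1 (delta 1)) hδ'
  obtain ⟨k2, hk2⟩ := near0 (y2.1 (delta 1)) hδ'
  obtain ⟨k3, hk3⟩ := near0 (y3.1 (delta 1)) hδ'
  set k := max k1 (max k2 k3) with hk
  have a1 := hk1 k (le_max_left _ _)
  have a2 := hk2 k ((le_max_left _ _).trans (le_max_right _ _))
  have a3 := hk3 k ((le_max_right _ _).trans (le_max_right _ _))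
  refine ⟨UU (ak k), UU_mem _, fun z1 hz1 z2 hz2 => ?_⟩
  obtain ⟨j1, hj1⟩ := near0 (z1.1 (delta 1)) hδ'
  obtain ⟨j2, hj2⟩ := near0 (z2.1 (delta 1)) hδ'
  set k' := max (k + 1) (max j1 j2) with hk'
  have b0 : k < k' := lt_of_lt_of_le (Nat.lt_succ_self k) (le_max_left _ _)
  have b1 := hj1 k' ((le_max_left _ _).trans (le_max_right _ _))
  have b2 := hj2 k' ((le_max_right _ _).trans (le_max_right _ _))
  refine ⟨UU (ak k'), UU_mem _, ?_⟩
  have c : ∀ y : NM.A, ‖mulInd ((GI (Set.Iio k) : Subgroup GG) : Set GG)ᶜ (y.1 (delta 1))‖ <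
      δ / 10 → nrm (tauM NM) (UU (ak k') * y * star (UU (ak k')) -
        UU (ak k) * y * star (UU (ak k))) ≤ 2 * (δ / 10) := by
    intro y hy
    rw [nrm_M]
    refine (conj_bound b0.le y.2).trans ?_
    linarith
  have c7 : nrm (tauM NM) (UU (ak k') * UU (ak k) -
      algebraMap ℂ NM.A zet * (UU (ak k) * UU (ak k'))) = 0 := by
    rw [nrm_M]
    show ‖(Lop phi (ak k') * Lop phi (ak k) -
      algebraMap ℂ (ell2 GG →L[ℂ] ell2 GG) zet * (Lop phi (ak k) * Lop phi (ak k')))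
        (delta 1)‖ = 0
    rw [ak_rel b0, ← Algebra.smul_def, sub_self]
    exact norm_zero
  have d : ∀ z : NM.A, ‖mulInd ((GI (Set.Iio k') : Subgroup GG) : Set GG)ᶜ (z.1 (delta 1))‖ <
      δ / 10 → max 0 (nrm (tauM NM) (UU (ak k') * z - z * UU (ak k')) -
        22 * (nrm (tauM NM) (UU (BB 0 1) * z - z * UU (BB 0 1)) +
          nrm (tauM NM) (UU (CC 0 1) * z - z * UU (CC 0 1)) +
          nrm (tauM NM) (UU (ak 0) * z - z * UU (ak 0)))) ≤ 2 * (δ / 10) := by
    intro z hz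
    rw [nrm_comm, nrm_comm, nrm_comm, nrm_comm]
    refine max_le (by positivity) ?_
    have := z_bound k' (z.1 (delta 1))
    linarith
  unfold VV
  rw [nrm_UU1, nrm_UU2, nrm_UU1, nrm_UU2, c7]
  have c1 := c y1 a1
  have c2 := c y2 a2
  have c3 := c y3 a3
  have d1 := d z1 b1
  have d2 := d z2 b2
  linarith

theorem NM_factor : Pub.IsII1Factor NM.alg NM.Ω where
  norm_Ω := NM.norm_Ω
  trace := NM.trace
  faithful := NM.faithful
  centre z hz hc := by
    have hz' : z ∈ TGvn phi := hz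
    refine ⟨(z (delta 1) : GG → ℂ) 1, eq_of_delta_one hz'
      ((TGvn phi).toStarSubalgebra.smul_mem (one_mem (TGvn phi)) _) ?_⟩
    ext g
    rw [smul_apply]
    show _ = (z (delta 1) : GG → ℂ) 1 * (delta (1 : GG) : GG → ℂ) g
    rw [delta_apply]
    by_cases hg : g = 1
    · subst hg; simp
    · rw [if_neg hg, mul_zero]
      obtain ⟨m, hm⟩ := exists_bound g
      have hgm := hm m le_rfl
      have hX : g ∈ Xset 0 m := by
        rw [mem_Xset]
        by_contra hcon
        push Not at hcon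
        apply hg
        refine Subtype.ext (funext fun i => ?_)
        by_cases hi : i < m
        · exact hcon i (Nat.zero_le _) hi
        · exact hgm i hi
      have hK : ∀ h : GG, ‖Kop phi h (z (delta 1))‖ = 0 := by
        intro h
        rw [← comm_delta hz', hc _ (Lop_mem h), sub_self]
        exact norm_zero
      have h1 := gap_block 0 m (z (delta 1))
      rw [hK, hK, add_zero, mul_zero] at h1
      have h2 : mulInd (Xset 0 m) (z (delta 1)) = 0 := norm_le_zero_iff.1 h1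
      classical
      have h3 : (mulInd (Xset 0 m) (z (delta 1)) : GG → ℂ) g = 0 := by rw [h2]; rfl
      rw [mulInd_apply, if_pos hX] at h3
      exact h3
  infinite := by
    refine Pool.Agent.ExT.not_finiteDimensional_of (N := NM) (fun k : ℕ => UU (ak k)) ?_
    have hinj : Function.Injective ak := by
      intro k k' h
      by_contra hne
      have h1 : (ak k).1 k = FreeGroup.of 0 := by
        unfold ak
        rw [blk_apply, if_pos ⟨le_rfl, by omega⟩]
      rw [h] at h1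
      unfold ak at h1
      rw [blk_apply, if_neg (by omega)] at h1
      exact FreeGroup.of_ne_one 0 h1.symm
    have := (Pool.Agent.ExT.orthonormal_delta (G := GG)).linearIndependent.comp ak hinj
    show LinearIndependent ℂ (fun k : ℕ => Lop phi (ak k) (delta 1))
    simp only [Lop_delta_one]
    exact this

end Pool.Agent.OpEq
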