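import Pool.Agent.OpEq.Core2

/-!
# The main argument
-/

noncomputable section

set_option linter.unusedSectionVars false

namespace Pool.Agent.OpEq

open scoped ENNReal InnerProductSpace ComplexOrder Topology
open Filter
open Pool.Agent.InnerAm (ell2 delta normSq_ell2 delta_apply norm_delta compEquiv
  compEquiv_apply)
open Pool.Agent.ExT (mulInd mulInd_apply norm_le_of_sq inner_delta_left inner_delta_right
  hasSum_delta ext_delta commVN mem_commVN TracialVNA)

/-- The tracial von Neumann algebra. -/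
abbrev NN : TracialVNA (ell2 GG) := TG phi

/-- Termwise truncation. -/
def cutS (A : ℕ → Set GG) (hA : ∀ n, IsSlice (A n)) (x : BS NN) : BS NN :=
  ⟨fun n => cut (A n) (x.1 n), fun n => cut_mem (hA n) (x.mem n), by
    obtain ⟨C, hC⟩ := x.bdd
    exact ⟨C, fun n => (norm_cut_le _ _).trans (hC n)⟩⟩

theorem cutS_apply (A : ℕ → Set GG) (hA : ∀ n, IsSlice (A n)) (x : BS NN) (n : ℕ) :
    (cutS A hA x).1 n = cut (A n) (x.1 n) := rfl

theorem mk_cutS {A : ℕ → Set GG} {hA : ∀ n, IsSlice (A n)} {x : BS NN}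
    (h : Tendsto (fun n => ‖mulInd (A n)ᶜ (x.1 n (delta 1))‖) atTop (𝓝 0)) :
    cls (cutS A hA x) = cls x := by
  symm
  rw [cls_eq]
  refine h.congr fun n => ?_
  show _ = ‖(x.1 n - cut (A n) (x.1 n)) (delta 1)‖
  rw [sub_cut_delta (hA n)]

/-- The sequence of unitaries `u_{g_n}`. -/
def LS (g : ℕ → GG) : BS NN :=
  ⟨fun n => Lop phi (g n), fun _ => Lop_mem _, 1, fun _ => norm_Lop_le _ _⟩

theorem LS_star_mul (g : ℕ → GG) : star (cls (LS g)) * cls (LS g) = 1 := by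
  rw [cls_star, ← cls_mul, ← cls_one]
  congr 1
  exact BS.ext' fun n => Lop_star_mul phi (g n)

theorem LS_mul_star (g : ℕ → GG) : cls (LS g) * star (cls (LS g)) = 1 := by
  rw [cls_star, ← cls_mul, ← cls_one]
  congr 1
  exact BS.ext' fun n => Lop_mul_star phi (g n)

theorem kop_of_comm {x : BS NN} {g : ℕ → GG}
    (h : cls x * cls (LS g) = cls (LS g) * cls x) :
    Tendsto (fun n => ‖Kop phi (g n) (x.1 n (delta 1))‖) atTop (𝓝 0) := by
  rw [← cls_mul, ← cls_mul, eq_comm, cls_eq] at h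
  refine h.congr fun n => ?_
  rw [← comm_delta (x.mem n)]
  rfl

theorem lemmaA (l m : ℕ → ℕ) {x : BS NN}
    (hB : cls x * cls (LS fun n => BB (l n) (m n)) =
      cls (LS fun n => BB (l n) (m n)) * cls x)
    (hC : cls x * cls (LS fun n => CC (l n) (m n)) =
      cls (LS fun n => CC (l n) (m n)) * cls x) :
    cls (cutS (fun n => ((GI (Set.Ico (l n) (m n))ᶜ : Subgroup GG) : Set GG))
      (fun _ => isSlice_GI _) x) = cls x := by
  refine mk_cutS ?_
  have h1 := kop_of_comm hB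
  have h2 := kop_of_comm hC
  refine squeeze_zero (fun n => norm_nonneg _)
    (fun n => gap_block (l n) (m n) (x.1 n (delta 1))) ?_
  simpa using (h1.add h2).const_mul 10

theorem lemmaC (l : ℕ → ℕ) {x : BS NN}
    (hB : cls x * cls (LS fun n => BB 0 (l n + 1)) =
      cls (LS fun n => BB 0 (l n + 1)) * cls x)
    (hC : cls x * cls (LS fun n => CC 0 (l n + 1)) =
      cls (LS fun n => CC 0 (l n + 1)) * cls x)
    (ha : cls x * cls (LS fun n => ak (l n)) =
      cls (LS fun n => ak (l n)) * cls x) :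
    cls (cutS (fun n => E0 (l n + 1)) (fun _ => isSlice_E0 _) x) = cls x := by
  refine mk_cutS ?_
  have h1 := kop_of_comm hB
  have h2 := kop_of_comm hC
  have h3 := kop_of_comm ha
  refine squeeze_zero (fun n => norm_nonneg _) (fun n => rc_bound (l n) (x.1 n (delta 1))) ?_
  simpa using ((h1.add h2).const_mul 10).add h3

section Sw

variable {l m : ℕ → ℕ} (hlm : ∀ n, l n ≤ m n)

/-- Termwise swap. -/
def swS (x : BS NN) (hx : ∀ n, SuppIn phi (GI (Set.Iio (m n))) (x.1 n)) : BS NN :=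
  ⟨fun n => swC (hlm n) (x.1 n), fun n => swC_mem _ (hx n), by
    obtain ⟨C, hC⟩ := x.bdd
    exact ⟨C, fun n => (norm_swC_le _ _).trans (hC n)⟩⟩

theorem mk_swS_congr {x y : BS NN} (hx : ∀ n, SuppIn phi (GI (Set.Iio (m n))) (x.1 n))
    (hy : ∀ n, SuppIn phi (GI (Set.Iio (m n))) (y.1 n)) (h : cls x = cls y) :
    cls (swS hlm x hx) = cls (swS hlm y hy) := by
  rw [cls_eq] at h ⊢
  refine h.congr fun n => ?_
  show _ = ‖(swC (hlm n) (x.1 n) - swC (hlm n) (y.1 n)) (delta 1)‖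
  rw [← swC_sub, norm_swC_delta]
  rfl

end Sw

/-- The data of the main argument. -/
structure Data where
  l : ℕ → ℕ
  m : ℕ → ℕ
  hlm : ∀ n, l n + 1 ≤ m n
  w : BS NN
  w2 : BS NN
  hw : ∀ n, ‖w.1 n‖ ≤ 1
  u1 : star (cls w) * cls w = 1
  u2 : cls w * star (cls w) = 1
  u3 : star (cls w2) * cls w2 = 1
  u4 : cls w2 * star (cls w2) = 1
  rel : cls w2 * cls w = kap •
    (cls w * cls w2)
  czB : star (cls w2) * cls (LS fun n => BB (l n + 1) (m n)) =
    cls (LS fun n => BB (l n + 1) (m n)) * star (cls w2)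
  czC : star (cls w2) * cls (LS fun n => CC (l n + 1) (m n)) =
    cls (LS fun n => CC (l n + 1) (m n)) * star (cls w2)
  near : Tendsto (fun n => ‖mulInd ((GI (Set.Iio (m n)) : Subgroup GG) : Set GG)ᶜ
    (w.1 n (delta 1))‖) atTop (𝓝 0)
  cyB : cls w2 * cls (LS fun n => BB 0 (l n + 1)) * star (cls w2) =
    cls w * cls (LS fun n => BB 0 (l n + 1)) * star (cls w)
  cyC : cls w2 * cls (LS fun n => CC 0 (l n + 1)) * star (cls w2) =
    cls w * cls (LS fun n => CC 0 (l n + 1)) * star (cls w)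
  cya : cls w2 * cls (LS fun n => ak (l n)) * star (cls w2) =
    cls w * cls (LS fun n => ak (l n)) * star (cls w)

namespace Data

variable (D : Data)

/-- Sequences `y` to which the argument applies. -/
structure Good (y : ℕ → GG) : Prop where
  mem : ∀ n, y n ∈ GI (Set.Iio (D.l n + 1))
  rel : cls D.w2 * cls (LS y) * star (cls D.w2) =
    cls D.w * cls (LS y) * star (cls D.w)

theorem goodB : D.Good fun n => BB 0 (D.l n + 1) :=
  ⟨fun _ => GI_mono (fun _ hi => hi.2) (blk_mem _ _ _), D.cyB⟩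

theorem goodC : D.Good fun n => CC 0 (D.l n + 1) :=
  ⟨fun _ => GI_mono (fun _ hi => hi.2) (blk_mem _ _ _), D.cyC⟩

theorem gooda : D.Good fun n => ak (D.l n) :=
  ⟨fun _ => GI_mono (fun _ hi => hi.2) (ak_mem _), D.cya⟩

/-- `w'` -/
def w' : BS NN := cutS (fun n => ((GI (Set.Iio (D.m n)) : Subgroup GG) : Set GG))
  (fun _ => isSlice_GI _) D.w

theorem mk_w' : cls D.w' = cls D.w := mk_cutS D.near

theorem w'_supp (n : ℕ) : SuppIn phi (GI (Set.Iio (D.m n))) (D.w'.1 n) :=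
  cut_supp' (isSlice_GI _) (D.w.mem n)

theorem norm_w' (n : ℕ) : ‖D.w'.1 n‖ ≤ 1 := (norm_cut_le _ _).trans (D.hw n)

theorem comm_B : cls D.w2 * cls (LS fun n => BB (D.l n + 1) (D.m n)) =
    cls (LS fun n => BB (D.l n + 1) (D.m n)) * cls D.w2 :=
  comm_of_star_comm D.u3 D.u4 D.czB

theorem comm_C : cls D.w2 * cls (LS fun n => CC (D.l n + 1) (D.m n)) =
    cls (LS fun n => CC (D.l n + 1) (D.m n)) * cls D.w2 :=
  comm_of_star_comm D.u3 D.u4 D.czC

theorem yz_comm {y : ℕ → GG} (hy : ∀ n, y n ∈ GI (Set.Iio (D.l n + 1))) {x : F3}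
    (hx : chi x = 0) : cls (LS y) * cls (LS fun n => blk (D.l n + 1) (D.m n) x) =
      cls (LS fun n => blk (D.l n + 1) (D.m n) x) * cls (LS y) := by
  rw [← cls_mul, ← cls_mul]
  congr 1
  refine BS.ext' fun n => ?_
  show Lop phi (y n) * Lop phi (blk (D.l n + 1) (D.m n) x) =
    Lop phi (blk (D.l n + 1) (D.m n) x) * Lop phi (y n)
  rw [Lop_mul, Lop_mul, phi_apply, phi_apply, beta_blk_left hx, beta_blk_right hx,
    GI_comm (fun i hi => ?_) (hy n) (blk_mem _ _ _)]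
  rw [Set.mem_Iio] at hi
  rw [Set.mem_Ico]
  omega

theorem chi_b : chi (FreeGroup.of 1) = 0 := by rw [chi_of]; rfl
theorem chi_c : chi (FreeGroup.of 2) = 0 := by rw [chi_of]; rfl

/-- `r` -/
def r (y : ℕ → GG) : BS NN :=
  cutS (fun n => ((GI (Set.Ico (D.l n + 1) (D.m n))ᶜ : Subgroup GG) : Set GG))
    (fun _ => isSlice_GI _) (D.w' * LS y * star D.w')

theorem mk_r {y : ℕ → GG} (hy : D.Good y) :
    cls (D.r y) = cls D.w * cls (LS y) * star (cls D.w) := by
  have h1 : cls (D.w' * LS y * star D.w') =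
      cls D.w * cls (LS y) * star (cls D.w) := by
    rw [cls_mul, cls_mul, ← cls_star, mk_w']
  rw [← h1]
  refine lemmaA (fun n => D.l n + 1) D.m ?_ ?_
  · rw [h1, ← hy.rel]
    exact conj_comm D.comm_B D.czB (D.yz_comm hy.mem chi_b)
  · rw [h1, ← hy.rel]
    exact conj_comm D.comm_C D.czC (D.yz_comm hy.mem chi_c)

theorem r_supp {y : ℕ → GG} (hy : ∀ n, y n ∈ GI (Set.Iio (D.l n + 1))) (n : ℕ) :
    SuppIn phi (GI (Set.Iio (D.l n + 1))) ((D.r y).1 n) := by
  have h1 : SuppIn phi (GI (Set.Iio (D.m n))) ((D.w' * LS y * star D.w').1 n) := by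
    have h2 := D.w'_supp n
    have h3 : SuppIn phi (GI (Set.Iio (D.m n))) (Lop phi (y n)) :=
      suppIn_Lop (GI_mono (Set.Iio_subset_Iio (D.hlm n)) (hy n))
    exact (h2.mul h3 fun a ha b hb => mul_mem ha hb).mul (h2.star fun a ha => inv_mem ha)
      fun a ha b hb => mul_mem ha hb
  refine (cut_supp (isSlice_GI _) h1).mono fun g hg => ?_
  refine GI_mono (fun i hi => ?_) (GI_inter hg.1 hg.2)
  rw [Set.mem_inter_iff, Set.mem_compl_iff, Set.mem_Ico, Set.mem_Iio] at hi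
  rw [Set.mem_Iio]
  omega

/-- `S(w')` -/
def S : BS NN := swS D.hlm D.w' D.w'_supp

/-- the class of `S(w')` -/
def s : QQ NN := cls D.S

theorem s_star_mul : star D.s * D.s = 1 := by
  have hsupp : ∀ n, SuppIn phi (GI (Set.Iio (D.m n))) ((star D.w' * D.w').1 n) := fun n =>
    ((D.w'_supp n).star fun a ha => inv_mem ha).mul (D.w'_supp n) fun a ha b hb => mul_mem ha hb
  have h1 : cls (star D.w' * D.w') = cls 1 := by
    rw [cls_mul, ← cls_star, mk_w', D.u1, cls_one]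
  have h2 := mk_swS_congr D.hlm hsupp (fun n => suppIn_one (one_mem (GI _))) h1
  have h3 : swS D.hlm (star D.w' * D.w') hsupp = star D.S * D.S := by
    refine BS.ext' fun n => ?_
    show swC (D.hlm n) (star (D.w'.1 n) * D.w'.1 n) = star (swC _ _) * swC _ _
    rw [swC_mul, swC_star]
  have h4 : swS D.hlm (1 : BS NN) (fun n => suppIn_one (one_mem (GI _))) = 1 :=
    BS.ext' fun n => swC_one (D.hlm n)
  rw [h3, h4, cls_mul, cls_one, ← cls_star] at h2
  exact h2

theorem s_mul_star : D.s * star D.s = 1 := by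
  have hsupp : ∀ n, SuppIn phi (GI (Set.Iio (D.m n))) ((D.w' * star D.w').1 n) := fun n =>
    (D.w'_supp n).mul ((D.w'_supp n).star fun a ha => inv_mem ha) fun a ha b hb => mul_mem ha hb
  have h1 : cls (D.w' * star D.w') = cls 1 := by
    rw [cls_mul, ← cls_star, mk_w', D.u2, cls_one]
  have h2 := mk_swS_congr D.hlm hsupp (fun n => suppIn_one (one_mem (GI _))) h1
  have h3 : swS D.hlm (D.w' * star D.w') hsupp = D.S * star D.S := by
    refine BS.ext' fun n => ?_
    show swC (D.hlm n) (D.w'.1 n * star (D.w'.1 n)) = swC _ _ * star (swC _ _)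
    rw [swC_mul, swC_star]
  have h4 : swS D.hlm (1 : BS NN) (fun n => suppIn_one (one_mem (GI _))) = 1 :=
    BS.ext' fun n => swC_one (D.hlm n)
  rw [h3, h4, cls_mul, cls_one, ← cls_star] at h2
  exact h2

theorem w_y {y : ℕ → GG} (hy : D.Good y) : cls (D.w' * LS y) = cls (D.r y * D.w') := by
  rw [cls_mul, cls_mul, mk_r D hy, mk_w']
  calc cls D.w * cls (LS y) = cls D.w * cls (LS y) * (star (cls D.w) * cls D.w) := by
        rw [D.u1, mul_one]
    _ = _ := by noncomm_ring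

theorem s_y {y : ℕ → GG} (hy : D.Good y) : D.s * cls (LS y) = cls (D.r y) * D.s := by
  have hy' : ∀ n, SuppIn phi (GI (Set.Iio (D.l n + 1))) ((LS y).1 n) := fun n =>
    suppIn_Lop (hy.mem n)
  have hr' := D.r_supp hy.mem
  have hmono : ∀ n, ∀ x, SuppIn phi (GI (Set.Iio (D.l n + 1))) x →
      SuppIn phi (GI (Set.Iio (D.m n))) x := fun n x hx =>
    hx.mono fun g hg => GI_mono (Set.Iio_subset_Iio (D.hlm n)) hg
  have h1 : ∀ n, SuppIn phi (GI (Set.Iio (D.m n))) ((D.w' * LS y).1 n) := fun n =>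
    (D.w'_supp n).mul (hmono n _ (hy' n)) fun a ha b hb => mul_mem ha hb
  have h2 : ∀ n, SuppIn phi (GI (Set.Iio (D.m n))) ((D.r y * D.w').1 n) := fun n =>
    (hmono n _ (hr' n)).mul (D.w'_supp n) fun a ha b hb => mul_mem ha hb
  have h3 := mk_swS_congr D.hlm h1 h2 (D.w_y hy)
  have h4 : swS D.hlm (D.w' * LS y) h1 = D.S * LS y := by
    refine BS.ext' fun n => ?_
    show swC (D.hlm n) (D.w'.1 n * (LS y).1 n) = swC (D.hlm n) (D.w'.1 n) * (LS y).1 n
    rw [swC_mul, swC_fix (D.hlm n) (hy' n)]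
  have h5 : swS D.hlm (D.r y * D.w') h2 = D.r y * D.S := by
    refine BS.ext' fun n => ?_
    show swC (D.hlm n) ((D.r y).1 n * D.w'.1 n) = (D.r y).1 n * swC (D.hlm n) (D.w'.1 n)
    rw [swC_mul, swC_fix (D.hlm n) (hr' n)]
  rw [h4, h5, cls_mul, cls_mul] at h3
  exact h3

/-- `c₀` -/
def c0 : BS NN := star D.S *
  cutS (fun n => ((GI (Set.Ico (D.l n + 1) (D.m n))ᶜ : Subgroup GG) : Set GG))
    (fun _ => isSlice_GI _) D.w2

theorem mk_c0 : cls D.c0 = star D.s * cls D.w2 := by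
  unfold c0
  rw [cls_mul, lemmaA (fun n => D.l n + 1) D.m D.comm_B D.comm_C, ← cls_star]
  rfl

theorem c_y {y : ℕ → GG} (hy : D.Good y) :
    cls D.c0 * cls (LS y) = cls (LS y) * cls D.c0 := by
  rw [mk_c0]
  refine c_comm D.s_star_mul D.s_mul_star D.u3 (D.s_y hy) ?_
  rw [mk_r D hy]
  exact hy.rel

/-- `c'` -/
def c1 : BS NN := cutS (fun n => E0 (D.l n + 1)) (fun _ => isSlice_E0 _) D.c0

theorem mk_c1 : cls D.c1 = cls D.c0 :=
  lemmaC D.l (D.c_y D.goodB) (D.c_y D.goodC) (D.c_y D.gooda)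

theorem c0_supp (n : ℕ) :
    SuppIn phi (GI (Set.Ico (D.l n + 1) (D.m n))ᶜ) (D.c0.1 n) := by
  have h1 : SuppIn phi (GI (Set.Ico (D.l n + 1) (D.m n))ᶜ) (D.S.1 n) :=
    (swC_supp (D.hlm n) (D.w'_supp n)).mono fun g hg => GI_mono (fun i hi => by
      rw [Set.mem_union, Set.mem_Iio, Set.mem_Ico] at hi
      rw [Set.mem_compl_iff, Set.mem_Ico]
      omega) hg
  exact (h1.star fun a ha => inv_mem ha).mul (cut_supp' (isSlice_GI _) (D.w2.mem n))
    fun a ha b hb => mul_mem ha hb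

theorem c1_comm (n : ℕ) : D.c1.1 n * D.w'.1 n = D.w'.1 n * D.c1.1 n := by
  refine commute_of_supp (cut_supp (isSlice_E0 _) (D.c0_supp n)) (D.w'_supp n)
    fun a ha b hb => ?_
  have ha1 : a ∈ GI (Set.Ici (D.m n)) := by
    refine GI_mono (fun i hi => ?_) (GI_inter ha.1.1 ha.2)
    rw [Set.mem_inter_iff, Set.mem_compl_iff, Set.mem_Ico, Set.mem_Ici] at hi
    rw [Set.mem_Ici]
    omega
  have ha2 : deg a = 0 := ha.1.2
  refine ⟨GI_comm (fun i hi => ?_) ha1 hb, ?_⟩
  · rw [Set.mem_Ici] at hi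
    rw [Set.mem_Iio]
    omega
  · rw [phi_apply, phi_apply, beta_late_early hb ha1, beta_early_late hb ha1, ha2, zero_mul]

theorem c_w : (star D.s * cls D.w2) * cls D.w = cls D.w * (star D.s * cls D.w2) := by
  rw [← mk_c0, ← mk_c1, ← mk_w', ← cls_mul, ← cls_mul]
  congr 1
  exact BS.ext' fun n => D.c1_comm n

theorem s_w : D.s * cls D.w =
    kap • (cls D.w * D.s) :=
  sw_rel D.s_star_mul D.s_mul_star D.u4 D.c_w D.rel

/-- `w_j` -/
def wj (j : ZMod 3) : BS NN :=
  cutS (fun n => {g : GG | dgb (D.l n + 1) (D.m n) g = j}) (fun _ => isSlice_dgb _ _ _) D.w'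

theorem wj_supp (j : ZMod 3) (n : ℕ) : SuppIn phi (GI (Set.Iio (D.m n))) ((D.wj j).1 n) :=
  (cut_supp (isSlice_dgb _ _ _) (D.w'_supp n)).mono Set.inter_subset_right

theorem wj_supp' (j : ZMod 3) (n : ℕ) :
    SuppIn phi {g : GG | dgb (D.l n + 1) (D.m n) g = j} ((D.wj j).1 n) :=
  cut_supp' (isSlice_dgb _ _ _) (D.w'_supp n).mem

theorem wj_y (j : ZMod 3) {y : ℕ → GG} (hy : D.Good y) :
    cls (D.wj j) * cls (LS y) = cls (D.r y) * cls (D.wj j) := by
  have h := D.w_y hy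
  rw [← cls_mul, ← cls_mul]
  rw [cls_eq] at h ⊢
  refine squeeze_zero (fun n => norm_nonneg _) (fun n => ?_) h
  exact project_intertwine j (suppIn_Lop (hy.mem n)) (D.r_supp hy.mem n)

theorem q_y (j : ZMod 3) {y : ℕ → GG} (hy : D.Good y) :
    cls (star (D.wj j) * D.wj j) * cls (LS y) =
      cls (LS y) * cls (star (D.wj j) * D.wj j) := by
  rw [cls_mul, ← cls_star]
  refine q_comm (LS_mul_star y) ?_ (D.wj_y j hy)
  rw [mk_r D hy, star_mul, star_mul, star_star]
  calc cls D.w * (star (cls (LS y)) * star (cls D.w)) *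
        (cls D.w * cls (LS y) * star (cls D.w))
      = cls D.w * star (cls (LS y)) * (star (cls D.w) * cls D.w) * cls (LS y) *
        star (cls D.w) := by noncomm_ring
    _ = cls D.w * (star (cls (LS y)) * cls (LS y)) * star (cls D.w) := by
        rw [D.u1]; noncomm_ring
    _ = 1 := by rw [LS_star_mul, mul_one, D.u2]

theorem wj_null (j : ZMod 3) : cls (D.wj j) = 0 := by
  set q : BS NN := star (D.wj j) * D.wj j with hq
  set q' : BS NN := cutS (fun n => E0 (D.l n + 1)) (fun _ => isSlice_E0 _) q with hq'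
  have h1 : cls q' = cls q :=
    lemmaC D.l (D.q_y j D.goodB) (D.q_y j D.goodC) (D.q_y j D.gooda)
  have h2 : ∀ n, SuppIn phi (GI (Set.Ico (D.l n + 1) (D.m n))) (q'.1 n) := by
    intro n
    have h3 : SuppIn phi (GI (Set.Iio (D.m n))) (q.1 n) :=
      ((D.wj_supp j n).star fun a ha => inv_mem ha).mul (D.wj_supp j n)
        fun a ha b hb => mul_mem ha hb
    refine (cut_supp (isSlice_E0 _) h3).mono fun g hg => ?_
    refine GI_mono (fun i hi => ?_) (GI_inter hg.1.1 hg.2)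
    rw [Set.mem_inter_iff, Set.mem_Ici, Set.mem_Iio] at hi
    exact hi
  have h4 : Tendsto (fun n => ‖(q.1 n - q'.1 n) (delta 1)‖) atTop (𝓝 0) :=
    cls_eq.1 h1.symm
  have h5 : Tendsto (fun n => ‖(D.S.1 n * D.w'.1 n -
      kap • (D.w'.1 n * D.S.1 n)) (delta 1)‖)
      atTop (𝓝 0) := by
    have h0 : cls (D.S * D.w') = cls (kap • (D.w' * D.S)) := by
      rw [cls_mul, cls_smul, cls_mul, mk_w']
      exact D.s_w
    rw [cls_eq] at h0
    exact h0
  have h6 : ∀ n, ‖(D.wj j).1 n (delta 1)‖ ^ 4 ≤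
      (2 * ‖(D.S.1 n * D.w'.1 n -
      kap • (D.w'.1 n * D.S.1 n)) (delta 1)‖) ^ 2 +
      2 * ‖(q.1 n - q'.1 n) (delta 1)‖ := by
    intro n
    refine (trace_ineq (D.hlm n) (D.wj_supp j n) ((norm_cut_le _ _).trans (D.norm_w' n))
      (h2 n)).trans (add_le_add ?_ le_rfl)
    have e1 := exchange_norm (D.hlm n) (D.wj_supp j n) (D.wj_supp' j n)
    have e2 := project_rel (D.hlm n) j (D.w'_supp n)
      kap
    refine pow_le_pow_left₀ (norm_nonneg _) (e1.trans ?_) 2
    exact mul_le_mul_of_nonneg_left e2 (by norm_num)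
  have h7 : Tendsto (fun n => ‖(D.wj j).1 n (delta 1)‖ ^ 4) atTop (𝓝 0) := by
    refine squeeze_zero (fun n => by positivity) h6 ?_
    simpa using ((h5.const_mul 2).pow 2).add (h4.const_mul 2)
  rw [cls_eq_zero]
  have h8 := h7.sqrt.sqrt
  rw [Real.sqrt_zero, Real.sqrt_zero] at h8
  refine h8.congr fun n => ?_
  have e : ‖(D.wj j).1 n (delta 1)‖ ^ 4 = (‖(D.wj j).1 n (delta 1)‖ ^ 2) ^ 2 := by ring
  rw [e, Real.sqrt_sq (by positivity), Real.sqrt_sq (norm_nonneg _)]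
  rfl

theorem contradiction (D : Data) : False := by
  have h1 : cls D.w' = ∑ j : ZMod 3, cls (D.wj j) :=
    cls_sum fun n => sum_cut (D.l n + 1) (D.m n) (D.w'_supp n).mem
  have h2 : cls D.w = 0 := by
    rw [← mk_w', h1]
    exact Finset.sum_eq_zero fun j _ => D.wj_null j
  have h3 := D.u1
  rw [h2, mul_zero] at h3
  exact QQ.one_ne_zero' h3.symm

end Data

end Pool.Agent.OpEq
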