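import Pool.Agent.OpEq.Claim1
import Pool.Agent.OpEq.Core3

/-!
# The sentence does not have value `0` in `M^op`
-/

noncomputable section

set_option linter.unusedSectionVars false

namespace Pool.Agent.OpEq

open scoped ENNReal InnerProductSpace ComplexOrder Topology
open Filter
open Pool.Agent.InnerAm (ell2 delta normSq_ell2 delta_apply norm_delta compEquiv
  compEquiv_apply)
open Pool.Agent.ExT (mulInd mulInd_apply norm_le_of_sq inner_delta_left inner_delta_right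
  hasSum_delta ext_delta commVN mem_commVN TracialVNA)

theorem conj_zet : (starRingEnd ℂ) zet = kap := by
  unfold zet kap
  rw [← Circle.coe_inv_eq_conj, ← AddChar.map_neg_eq_inv]

theorem nrm_nonneg {A : Type} [Ring A] [StarRing A] (τ : A → ℂ) (a : A) : 0 ≤ nrm τ a :=
  Real.sqrt_nonneg _

theorem comm_F_bound {l m : ℕ} {x : F3} (hx : chi x = 0) {F : ell2 GG →L[ℂ] ell2 GG}
    (hF : F ∈ TGvn phi) :
    ‖(Lop phi (blk (l + 1) m x) * F - F * Lop phi (blk (l + 1) m x)) (delta 1)‖ ≤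
      2 * ‖mulInd ((GI (Set.Iio (l + 1)) : Subgroup GG) : Set GG)ᶜ (F (delta 1))‖ := by
  rw [comm_delta hF]
  refine norm_Kop_le_compl (fun g hg => ?_) _
  refine ⟨(GI_comm (fun i hi => ?_) hg (blk_mem _ _ _)).symm, ?_⟩
  · rw [Set.mem_Iio] at hi
    rw [Set.mem_Ico]
    omega
  · rw [phi_apply, phi_apply, beta_blk_left hx, beta_blk_right hx]

/-- The data extracted from a small value of the sentence in `M^op`. -/
structure Pre (ε : ℝ) (l m : ℕ) (W W2 : ell2 GG →L[ℂ] ell2 GG) : Prop where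
  hlm : l + 1 ≤ m
  memW : W ∈ TGvn phi
  memW2 : W2 ∈ TGvn phi
  normW : ‖W‖ ≤ 1
  normW2 : ‖W2‖ ≤ 1
  u1 : ‖(star W * W - 1) (delta 1)‖ ≤ ε
  u2 : ‖(W * star W - 1) (delta 1)‖ ≤ ε
  u3 : ‖(star W2 * W2 - 1) (delta 1)‖ ≤ ε
  u4 : ‖(W2 * star W2 - 1) (delta 1)‖ ≤ ε
  yB : ‖(W2 * Lop phi (BB 0 (l + 1)) * star W2 - W * Lop phi (BB 0 (l + 1)) * star W)
    (delta 1)‖ ≤ ε
  yC : ‖(W2 * Lop phi (CC 0 (l + 1)) * star W2 - W * Lop phi (CC 0 (l + 1)) * star W)
    (delta 1)‖ ≤ ε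
  ya : ‖(W2 * Lop phi (ak l) * star W2 - W * Lop phi (ak l) * star W) (delta 1)‖ ≤ ε
  rel : ‖(W2 * W - kap • (W * W2)) (delta 1)‖ ≤ ε
  zB : ‖(star W2 * Lop phi (BB (l + 1) m) - Lop phi (BB (l + 1) m) * star W2) (delta 1)‖ ≤
    133 * ε
  zC : ‖(star W2 * Lop phi (CC (l + 1) m) - Lop phi (CC (l + 1) m) * star W2) (delta 1)‖ ≤
    133 * ε
  near : ‖mulInd ((GI (Set.Iio m) : Subgroup GG) : Set GG)ᶜ (W (delta 1))‖ ≤ ε

/-- The unitaries `u_g` in `M^op`. -/
def UO (g : GG) : (NM.A)ᵐᵒᵖ := MulOpposite.op (UU g)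

theorem UO_mem (g : GG) : UO g ∈ ballO NM := norm_Lop_le phi g

theorem extract {ε : ℝ} (hε : 0 < ε) (h : sigma.val (tauO NM) (ballO NM) Fin.elim0 < ε) :
    ∃ (l m : ℕ) (W W2 : ell2 GG →L[ℂ] ell2 GG), Pre ε l m W W2 := by
  obtain ⟨F1, hF1, F2, hF2, F3, hF3, h⟩ := sigma_lt ballO_nonempty polyBdd_O h
  obtain ⟨l1, hl1⟩ := near0 (F1.unop.1 (delta 1)) hε
  obtain ⟨l2, hl2⟩ := near0 (F2.unop.1 (delta 1)) hε
  obtain ⟨l3, hl3⟩ := near0 (F3.unop.1 (delta 1)) hε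
  set l := max l1 (max l2 l3) with hl
  have a1 := hl1 (l + 1) ((le_max_left _ _).trans (Nat.le_succ _))
  have a2 := hl2 (l + 1) (((le_max_left _ _).trans (le_max_right _ _)).trans (Nat.le_succ _))
  have a3 := hl3 (l + 1) (((le_max_right _ _).trans (le_max_right _ _)).trans (Nat.le_succ _))
  obtain ⟨w, hw, h⟩ := h (UO (BB 0 (l + 1))) (UO_mem _) (UO (CC 0 (l + 1))) (UO_mem _)
    (UO (ak l)) (UO_mem _)
  have hw' : ‖w.unop.1‖ ≤ 1 := hw
  set W : ell2 GG →L[ℂ] ell2 GG := star w.unop.1 with hW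
  have eW : w.unop.1 = star W := (star_star _).symm
  have mW : W ∈ TGvn phi := star_mem w.unop.2
  obtain ⟨m1, hm1⟩ := near0 (W (delta 1)) hε
  set m := max (l + 1) m1 with hm
  have b1 := hm1 m (le_max_right _ _)
  obtain ⟨w2, hw2, h⟩ := h (UO (BB (l + 1) m)) (UO_mem _) (UO (CC (l + 1) m)) (UO_mem _)
  have hw2' : ‖w2.unop.1‖ ≤ 1 := hw2
  set W2 : ell2 GG →L[ℂ] ell2 GG := star w2.unop.1 with hW2
  have eW2 : w2.unop.1 = star W2 := (star_star _).symm
  have mW2 : W2 ∈ TGvn phi := star_mem w2.unop.2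
  unfold VV at h
  have n1 := nrm_nonneg (tauO NM) (star w * w - 1)
  have n2 := nrm_nonneg (tauO NM) (w * star w - 1)
  have n3 := nrm_nonneg (tauO NM) (star w2 * w2 - 1)
  have n4 := nrm_nonneg (tauO NM) (w2 * star w2 - 1)
  have n5 := nrm_nonneg (tauO NM) (w2 * UO (BB 0 (l + 1)) * star w2 -
    w * UO (BB 0 (l + 1)) * star w)
  have n6 := nrm_nonneg (tauO NM) (w2 * UO (CC 0 (l + 1)) * star w2 -
    w * UO (CC 0 (l + 1)) * star w)
  have n7 := nrm_nonneg (tauO NM) (w2 * UO (ak l) * star w2 - w * UO (ak l) * star w)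
  have n8 := nrm_nonneg (tauO NM) (w2 * w - algebraMap ℂ _ zet * (w * w2))
  have n9 := le_max_left (0 : ℝ) (nrm (tauO NM) (w2 * UO (BB (l + 1) m) -
    UO (BB (l + 1) m) * w2) - 22 * (nrm (tauO NM) (F1 * UO (BB (l + 1) m) -
    UO (BB (l + 1) m) * F1) + nrm (tauO NM) (F2 * UO (BB (l + 1) m) - UO (BB (l + 1) m) * F2) +
    nrm (tauO NM) (F3 * UO (BB (l + 1) m) - UO (BB (l + 1) m) * F3)))
  have n9' := le_max_right (0 : ℝ) (nrm (tauO NM) (w2 * UO (BB (l + 1) m) -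
    UO (BB (l + 1) m) * w2) - 22 * (nrm (tauO NM) (F1 * UO (BB (l + 1) m) -
    UO (BB (l + 1) m) * F1) + nrm (tauO NM) (F2 * UO (BB (l + 1) m) - UO (BB (l + 1) m) * F2) +
    nrm (tauO NM) (F3 * UO (BB (l + 1) m) - UO (BB (l + 1) m) * F3)))
  have n10 := le_max_left (0 : ℝ) (nrm (tauO NM) (w2 * UO (CC (l + 1) m) -
    UO (CC (l + 1) m) * w2) - 22 * (nrm (tauO NM) (F1 * UO (CC (l + 1) m) -
    UO (CC (l + 1) m) * F1) + nrm (tauO NM) (F2 * UO (CC (l + 1) m) - UO (CC (l + 1) m) * F2) +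
    nrm (tauO NM) (F3 * UO (CC (l + 1) m) - UO (CC (l + 1) m) * F3)))
  have n10' := le_max_right (0 : ℝ) (nrm (tauO NM) (w2 * UO (CC (l + 1) m) -
    UO (CC (l + 1) m) * w2) - 22 * (nrm (tauO NM) (F1 * UO (CC (l + 1) m) -
    UO (CC (l + 1) m) * F1) + nrm (tauO NM) (F2 * UO (CC (l + 1) m) - UO (CC (l + 1) m) * F2) +
    nrm (tauO NM) (F3 * UO (CC (l + 1) m) - UO (CC (l + 1) m) * F3)))
  -- the commutators with the `F_i` are small
  have cF : ∀ (x : FreeGroup (Fin 3)) (_ : chi x = 0) (F : (NM.A)ᵐᵒᵖ),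
      ‖mulInd ((GI (Set.Iio (l + 1)) : Subgroup GG) : Set GG)ᶜ (F.unop.1 (delta 1))‖ < ε →
      nrm (tauO NM) (F * UO (blk (l + 1) m x) - UO (blk (l + 1) m x) * F) ≤ 2 * ε := by
    intro x hx F hF
    rw [nrm_O]
    refine (comm_F_bound (m := m) hx F.unop.2).trans ?_
    linarith
  have f1 := cF _ Data.chi_b F1 a1
  have f2 := cF _ Data.chi_b F2 a2
  have f3 := cF _ Data.chi_b F3 a3
  have g1 := cF _ Data.chi_c F1 a1
  have g2 := cF _ Data.chi_c F2 a2
  have g3 := cF _ Data.chi_c F3 a3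
  have hzz : ∀ z : GG, ‖(star W2 * Lop phi z - Lop phi z * star W2) (delta 1)‖ =
      nrm (tauO NM) (w2 * UO z - UO z * w2) := by
    intro z
    rw [nrm_O]
    show _ = ‖(Lop phi z * w2.unop.1 - w2.unop.1 * Lop phi z) (delta 1)‖
    rw [eW2, ← neg_sub, neg_apply, norm_neg]
  have hyy : ∀ y : GG, ‖(W2 * Lop phi y * star W2 - W * Lop phi y * star W) (delta 1)‖ =
      nrm (tauO NM) (w2 * UO y * star w2 - w * UO y * star w) := by
    intro y
    rw [nrm_O]
    show _ = ‖(star w2.unop.1 * (Lop phi y * w2.unop.1) - star w.unop.1 *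
      (Lop phi y * w.unop.1)) (delta 1)‖
    rw [eW2, eW, star_star, star_star, mul_assoc, mul_assoc]
  have v1 : ‖(star W * W - 1) (delta 1)‖ = nrm (tauO NM) (star w * w - 1) := by
    rw [nrm_O]
    show _ = ‖(w.unop.1 * star w.unop.1 - 1) (delta 1)‖
    rw [eW, star_star]
  have v2 : ‖(W * star W - 1) (delta 1)‖ = nrm (tauO NM) (w * star w - 1) := by
    rw [nrm_O]
    show _ = ‖(star w.unop.1 * w.unop.1 - 1) (delta 1)‖
    rw [eW, star_star]
  have v3 : ‖(star W2 * W2 - 1) (delta 1)‖ = nrm (tauO NM) (star w2 * w2 - 1) := by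
    rw [nrm_O]
    show _ = ‖(w2.unop.1 * star w2.unop.1 - 1) (delta 1)‖
    rw [eW2, star_star]
  have v4 : ‖(W2 * star W2 - 1) (delta 1)‖ = nrm (tauO NM) (w2 * star w2 - 1) := by
    rw [nrm_O]
    show _ = ‖(star w2.unop.1 * w2.unop.1 - 1) (delta 1)‖
    rw [eW2, star_star]
  have v8 : ‖(W2 * W - kap • (W * W2)) (delta 1)‖ =
      nrm (tauO NM) (w2 * w - algebraMap ℂ _ zet * (w * w2)) := by
    rw [nrm_O]
    show _ = ‖(w.unop.1 * w2.unop.1 - (w2.unop.1 * w.unop.1) *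
      algebraMap ℂ (ell2 GG →L[ℂ] ell2 GG) zet) (delta 1)‖
    have e1 : (w2.unop.1 * w.unop.1) * algebraMap ℂ (ell2 GG →L[ℂ] ell2 GG) zet =
        zet • (w2.unop.1 * w.unop.1) := by
      rw [Algebra.smul_def, Algebra.commutes]
    rw [e1]
    have m1 : w.unop.1 * w2.unop.1 - zet • (w2.unop.1 * w.unop.1) ∈ TGvn phi :=
      sub_mem (mul_mem w.unop.2 w2.unop.2)
        ((TGvn phi).toStarSubalgebra.smul_mem (mul_mem w2.unop.2 w.unop.2) _)
    rw [← norm_star_delta m1, star_sub, star_mul, star_smul, star_mul, ← conj_zet]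
    rfl
  refine ⟨l, m, W, W2, ⟨le_max_left _ _, mW, mW2, ?_, ?_, ?_, ?_, ?_, ?_, ?_, ?_, ?_, ?_, ?_, ?_,
    b1.le⟩⟩
  · have : ‖star w.unop.1‖ = ‖w.unop.1‖ := norm_star w.unop.1
    rw [this]
    exact hw'
  · have : ‖star w2.unop.1‖ = ‖w2.unop.1‖ := norm_star w2.unop.1
    rw [this]
    exact hw2'
  · rw [v1]; linarith
  · rw [v2]; linarith
  · rw [v3]; linarith
  · rw [v4]; linarith
  · rw [hyy]; linarith
  · rw [hyy]; linarith
  · rw [hyy]; linarith
  · rw [v8]; linarith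
  · rw [hzz]; linarith
  · rw [hzz]; linarith

theorem claim2 : ¬ ∀ ε : ℝ, 0 < ε → sigma.val (tauO NM) (ballO NM) Fin.elim0 < ε := by
  intro h
  have h' : ∀ n : ℕ, ∃ (l m : ℕ) (W W2 : ell2 GG →L[ℂ] ell2 GG),
      Pre (1 / ((n : ℝ) + 1)) l m W W2 := fun n =>
    extract (by positivity) (h _ (by positivity))
  choose l m W W2 hP using h'
  have t0 : Tendsto (fun n : ℕ => 1 / ((n : ℝ) + 1)) atTop (𝓝 0) :=
    tendsto_one_div_add_atTop_nhds_zero_nat
  have t1 : Tendsto (fun n : ℕ => 133 * (1 / ((n : ℝ) + 1))) atTop (𝓝 0) := by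
    simpa using t0.const_mul 133
  let w : BS NN := ⟨W, fun n => (hP n).memW, 1, fun n => (hP n).normW⟩
  let w2 : BS NN := ⟨W2, fun n => (hP n).memW2, 1, fun n => (hP n).normW2⟩
  have sq : ∀ {x y : BS NN} {f : ℕ → ℝ} (_ : Tendsto f atTop (𝓝 0)),
      (∀ n, ‖(x.1 n - y.1 n) (delta 1)‖ ≤ f n) → cls x = cls y := by
    intro x y f hf hxy
    rw [cls_eq]
    exact squeeze_zero (fun n => norm_nonneg _) hxy hf
  have hu1 : cls (star w * w) = cls 1 := sq t0 fun n => (hP n).u1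
  have hu2 : cls (w * star w) = cls 1 := sq t0 fun n => (hP n).u2
  have hu3 : cls (star w2 * w2) = cls 1 := sq t0 fun n => (hP n).u3
  have hu4 : cls (w2 * star w2) = cls 1 := sq t0 fun n => (hP n).u4
  have hyB : cls (w2 * LS (fun n => BB 0 (l n + 1)) * star w2) =
    cls (w * LS (fun n => BB 0 (l n + 1)) * star w) := sq t0 fun n => (hP n).yB
  have hyC : cls (w2 * LS (fun n => CC 0 (l n + 1)) * star w2) =
    cls (w * LS (fun n => CC 0 (l n + 1)) * star w) := sq t0 fun n => (hP n).yC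
  have hya : cls (w2 * LS (fun n => ak (l n)) * star w2) =
    cls (w * LS (fun n => ak (l n)) * star w) := sq t0 fun n => (hP n).ya
  have hrel : cls (w2 * w) = cls (kap • (w * w2)) := sq t0 fun n => (hP n).rel
  have hzB : cls (star w2 * LS (fun n => BB (l n + 1) (m n))) =
    cls (LS (fun n => BB (l n + 1) (m n)) * star w2) := sq t1 fun n => (hP n).zB
  have hzC : cls (star w2 * LS (fun n => CC (l n + 1) (m n))) =
    cls (LS (fun n => CC (l n + 1) (m n)) * star w2) := sq t1 fun n => (hP n).zC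
  rw [cls_mul, ← cls_star, cls_one] at hu1 hu2 hu3 hu4
  rw [cls_mul, cls_mul, cls_mul, cls_mul, ← cls_star, ← cls_star] at hyB hyC hya
  rw [cls_mul, cls_smul, cls_mul] at hrel
  rw [cls_mul, cls_mul, ← cls_star] at hzB hzC
  exact Data.contradiction
    { l := l
      m := m
      hlm := fun n => (hP n).hlm
      w := w
      w2 := w2
      hw := fun n => (hP n).normW
      u1 := hu1
      u2 := hu2
      u3 := hu3
      u4 := hu4
      rel := hrel
      czB := hzB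
      czC := hzC
      near := squeeze_zero (fun n => norm_nonneg _) (fun n => (hP n).near) t0
      cyB := hyB
      cyC := hyC
      cya := hya }

theorem not_equiv : ¬ Pub.EquivOpposite NM.alg NM.Ω := by
  intro h
  refine claim2 fun ε hε => ?_
  rw [← sigma_eq_of_equiv h]
  exact (claim1 (half_pos hε)).trans_lt (half_lt_self hε)

end Pool.Agent.OpEq
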