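import Pool.Agent.ExT.Defs

/-!
# Bounded sequences modulo `2`-norm null sequences
-/

noncomputable section

set_option linter.unusedSectionVars false

namespace Pool.Agent.OpEq

open scoped InnerProductSpace ComplexOrder Topology
open Filter
open Pool.Agent.ExT (TracialVNA)
open Pool.Agent.ExT.TracialVNA (norm_star_Ω norm_mul_Ω)

variable {H : Type} [NormedAddCommGroup H] [InnerProductSpace ℂ H] [CompleteSpace H]
variable (N : TracialVNA H)

/-- The `*`-algebra `ℓ^∞(ℕ, N)`. -/
def BddSeq : StarSubalgebra ℂ (ℕ → H →L[ℂ] H) where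
  carrier := {x | (∀ n, x n ∈ N.alg) ∧ ∃ C : ℝ, ∀ n, ‖x n‖ ≤ C}
  mul_mem' := by
    rintro x y ⟨hx, C, hC⟩ ⟨hy, D, hD⟩
    refine ⟨fun n => mul_mem (hx n) (hy n), C * D, fun n => ?_⟩
    refine (norm_mul_le _ _).trans ?_
    exact mul_le_mul (hC n) (hD n) (norm_nonneg _) ((norm_nonneg _).trans (hC n))
  add_mem' := by
    rintro x y ⟨hx, C, hC⟩ ⟨hy, D, hD⟩
    refine ⟨fun n => add_mem (hx n) (hy n), C + D, fun n => ?_⟩
    exact (norm_add_le _ _).trans (add_le_add (hC n) (hD n))
  algebraMap_mem' := by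
    intro c
    refine ⟨fun n => ?_, ‖algebraMap ℂ (H →L[ℂ] H) c‖, fun n => le_rfl⟩
    exact N.alg.toStarSubalgebra.algebraMap_mem c
  star_mem' := by
    rintro x ⟨hx, C, hC⟩
    exact ⟨fun n => star_mem (hx n), C, fun n => by rw [Pi.star_apply, norm_star]; exact hC n⟩

/-- Two bounded sequences are identified if `‖x_n - y_n‖₂ → 0`. -/
def nullCon : RingCon (BddSeq N) where
  r x y := Tendsto (fun n => ‖(x.1 n - y.1 n) N.Ω‖) atTop (𝓝 0)
  iseqv := by
    refine ⟨fun x => ?_, fun {x y} h => ?_, fun {x y z} h h' => ?_⟩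
    · simp
    · refine h.congr fun n => ?_
      rw [← neg_sub, neg_apply, norm_neg]
    · refine squeeze_zero (fun n => norm_nonneg _) (fun n => ?_) (by simpa using h.add h')
      refine le_trans (le_of_eq ?_) (norm_add_le _ _)
      simp only [sub_apply]
      congr 1
      abel
  add' := by
    intro w x y z h h'
    refine squeeze_zero (fun n => norm_nonneg _) (fun n => ?_) (by simpa using h.add h')
    refine le_trans (le_of_eq ?_) (norm_add_le _ _)
    show ‖((w.1 n + y.1 n) - (x.1 n + z.1 n)) N.Ω‖ = _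
    simp only [sub_apply, add_apply]
    congr 1
    abel
  mul' := by
    intro w x y z h h'
    obtain ⟨C, hC⟩ := y.2.2
    obtain ⟨D, hD⟩ := x.2.2
    have e : Tendsto (fun n => C * ‖(w.1 n - x.1 n) N.Ω‖ + D * ‖(y.1 n - z.1 n) N.Ω‖)
        atTop (𝓝 0) := by
      simpa using (h.const_mul C).add (h'.const_mul D)
    refine squeeze_zero (fun n => norm_nonneg _) (fun n => ?_) e
    have e1 : ((w * y).1 n - (x * z).1 n) = (w.1 n - x.1 n) * y.1 n + x.1 n * (y.1 n - z.1 n) := by
      show w.1 n * y.1 n - x.1 n * z.1 n = _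
      noncomm_ring
    rw [e1, add_apply]
    refine (norm_add_le _ _).trans (add_le_add ?_ ?_)
    · refine (norm_mul_Ω (sub_mem (w.2.1 n) (x.2.1 n)) (y.2.1 n)).trans ?_
      exact mul_le_mul_of_nonneg_right (hC n) (norm_nonneg _)
    · rw [mul_apply_eq_comp]
      refine ((x.1 n).le_opNorm _).trans ?_
      exact mul_le_mul_of_nonneg_right (hD n) (norm_nonneg _)

/-- Bounded sequences modulo `2`-norm null sequences. -/
def QQ : Type := (nullCon N).Quotient

variable {N}

namespace QQ

instance : Ring (QQ N) := inferInstanceAs (Ring (nullCon N).Quotient)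
instance : Algebra ℂ (QQ N) := inferInstanceAs (Algebra ℂ (nullCon N).Quotient)

/-- The class of a bounded sequence, as a homomorphism of algebras. -/
def mk : BddSeq N →ₐ[ℂ] QQ N where
  toFun x := (nullCon N).toQuotient x
  map_one' := rfl
  map_mul' _ _ := rfl
  map_zero' := rfl
  map_add' _ _ := rfl
  commutes' _ := rfl

theorem mk_mul (x y : BddSeq N) : mk (x * y) = mk x * mk y := map_mul mk x y
theorem mk_one : mk (1 : BddSeq N) = 1 := map_one mk
theorem mk_smul (c : ℂ) (x : BddSeq N) : mk (c • x) = c • mk x := map_smul mk c x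

theorem mk_surjective : Function.Surjective (mk (N := N)) := by
  intro x
  obtain ⟨y, hy⟩ := Quotient.exists_rep x
  exact ⟨y, hy⟩

theorem mk_eq_mk {x y : BddSeq N} : mk x = mk y ↔
    Tendsto (fun n => ‖(x.1 n - y.1 n) N.Ω‖) atTop (𝓝 0) :=
  (nullCon N).eq

theorem mk_eq_zero {x : BddSeq N} : mk x = 0 ↔
    Tendsto (fun n => ‖x.1 n N.Ω‖) atTop (𝓝 0) := by
  rw [← map_zero (mk (N := N)), mk_eq_mk]
  refine tendsto_congr fun n => ?_
  rw [sub_apply]
  show ‖x.1 n N.Ω - 0‖ = _
  rw [sub_zero]

theorem star_congr {x y : BddSeq N} (h : Tendsto (fun n => ‖(x.1 n - y.1 n) N.Ω‖) atTop (𝓝 0)) :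
    Tendsto (fun n => ‖((star x).1 n - (star y).1 n) N.Ω‖) atTop (𝓝 0) := by
  refine h.congr fun n => ?_
  have e : (star x).1 n - (star y).1 n = star (x.1 n - y.1 n) := by
    rw [star_sub]; rfl
  rw [e, norm_star_Ω (sub_mem (x.2.1 n) (y.2.1 n))]

/-- The involution `(x_n)* = (x_n*)`. -/
instance : Star (QQ N) where
  star := Quotient.lift (fun x : BddSeq N => mk (star x)) fun _ _ h =>
    mk_eq_mk.2 (star_congr h)

theorem star_mk (x : BddSeq N) : star (mk x) = mk (star x) := rfl

instance : StarRing (QQ N) where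
  star_involutive x := by
    obtain ⟨x, rfl⟩ := mk_surjective x
    rw [star_mk, star_mk, star_star]
  star_mul x y := by
    obtain ⟨x, rfl⟩ := mk_surjective x
    obtain ⟨y, rfl⟩ := mk_surjective y
    rw [star_mk, star_mk, ← map_mul, star_mk, star_mul, map_mul]
  star_add x y := by
    obtain ⟨x, rfl⟩ := mk_surjective x
    obtain ⟨y, rfl⟩ := mk_surjective y
    rw [star_mk, star_mk, ← map_add, star_mk, star_add, map_add]

theorem one_ne_zero' : (1 : QQ N) ≠ 0 := by
  intro h
  have h1 : mk (1 : BddSeq N) = 0 := by rw [map_one]; exact h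
  rw [mk_eq_zero] at h1
  have h2 : (fun n => ‖(1 : BddSeq N).1 n N.Ω‖) = fun _ : ℕ => (1 : ℝ) := by
    funext n
    exact N.norm_Ω
  rw [h2] at h1
  exact one_ne_zero (tendsto_nhds_unique tendsto_const_nhds h1)

end QQ

variable (N) in
/-- Bounded sequences in `N`. -/
structure BS where
  val : ℕ → H →L[ℂ] H
  mem : ∀ n, val n ∈ N.alg
  bdd : ∃ C : ℝ, ∀ n, ‖val n‖ ≤ C

/-- The element of `BddSeq N`. -/
def BS.toB (x : BS N) : BddSeq N := ⟨x.val, x.mem, x.bdd⟩

/-- The element of `BS N`. -/
def BS.ofB (x : BddSeq N) : BS N := ⟨x.1, x.2.1, x.2.2⟩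

theorem BS.ext' {x y : BS N} (h : ∀ n, x.val n = y.val n) : x = y := by
  cases x; cases y
  congr
  exact funext h

instance : Mul (BS N) := ⟨fun x y => ⟨fun n => x.val n * y.val n,
  fun n => mul_mem (x.mem n) (y.mem n), (x.toB * y.toB).2.2⟩⟩
instance : One (BS N) := ⟨⟨fun _ => 1, fun _ => one_mem _, (1 : BddSeq N).2.2⟩⟩
instance : Star (BS N) := ⟨fun x => ⟨fun n => star (x.val n), fun n => star_mem (x.mem n),
  (star x.toB).2.2⟩⟩
instance : SMul ℂ (BS N) := ⟨fun c x => ⟨fun n => c • x.val n,
  (c • x.toB).2.1, (c • x.toB).2.2⟩⟩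

/-- The class of a bounded sequence. -/
def cls (x : BS N) : QQ N := QQ.mk x.toB

theorem cls_mul (x y : BS N) : cls (x * y) = cls x * cls y := QQ.mk_mul x.toB y.toB
theorem cls_one : cls (1 : BS N) = 1 := QQ.mk_one
theorem cls_smul (c : ℂ) (x : BS N) : cls (c • x) = c • cls x := QQ.mk_smul c x.toB
theorem cls_star (x : BS N) : star (cls x) = cls (star x) := QQ.star_mk x.toB

theorem cls_eq {x y : BS N} : cls x = cls y ↔
    Tendsto (fun n => ‖(x.val n - y.val n) N.Ω‖) atTop (𝓝 0) := QQ.mk_eq_mk

theorem cls_eq_zero {x : BS N} : cls x = 0 ↔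
    Tendsto (fun n => ‖x.val n N.Ω‖) atTop (𝓝 0) := QQ.mk_eq_zero

theorem cls_sum {ι : Type} [Fintype ι] {x : BS N} {y : ι → BS N}
    (h : ∀ n, ∑ j, (y j).val n = x.val n) : cls x = ∑ j, cls (y j) := by
  have h1 : x.toB = ∑ j, (y j).toB := by
    refine Subtype.ext (funext fun n => ?_)
    rw [AddSubmonoidClass.coe_finsetSum, Finset.sum_apply]
    exact (h n).symm
  unfold cls
  rw [h1, map_sum]

/-! ### Algebra in a `*`-ring -/

section StarAlg

variable {R : Type} [Ring R] [StarRing R] [Algebra ℂ R]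

/-- If `u* z = z u*` with `u` unitary then `u z = z u`. -/
theorem comm_of_star_comm {u z : R} (hu1 : star u * u = 1) (hu2 : u * star u = 1)
    (h : star u * z = z * star u) : u * z = z * u := by
  calc u * z = u * z * (star u * u) := by rw [hu1, mul_one]
    _ = u * (z * star u) * u := by noncomm_ring
    _ = u * star u * z * u := by rw [← h]; noncomm_ring
    _ = z * u := by rw [hu2, one_mul]

theorem conj_comm {u y z : R} (h1 : u * z = z * u) (h2 : star u * z = z * star u)
    (h3 : y * z = z * y) : (u * y * star u) * z = z * (u * y * star u) := by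
  calc (u * y * star u) * z = u * y * (star u * z) := by noncomm_ring
    _ = u * (y * z) * star u := by rw [h2]; noncomm_ring
    _ = u * z * y * star u := by rw [h3]; noncomm_ring
    _ = z * (u * y * star u) := by rw [h1]; noncomm_ring

/-- `c = s* w₂` commutes with `y` when `s y = ρ s`, `w₂ y w₂* = ρ`. -/
theorem c_comm {s w2 y ρ : R} (hs1 : star s * s = 1) (hs2 : s * star s = 1)
    (hw : star w2 * w2 = 1) (h1 : s * y = ρ * s) (h2 : w2 * y * star w2 = ρ) :
    (star s * w2) * y = y * (star s * w2) := by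
  have h3 : y * star s = star s * ρ := by
    calc y * star s = star s * s * y * star s := by rw [hs1, one_mul]
      _ = star s * (s * y) * star s := by noncomm_ring
      _ = star s * ρ * (s * star s) := by rw [h1]; noncomm_ring
      _ = star s * ρ := by rw [hs2, mul_one]
  calc (star s * w2) * y = star s * (w2 * y) * (star w2 * w2) := by rw [hw]; noncomm_ring
    _ = star s * (w2 * y * star w2) * w2 := by noncomm_ring
    _ = star s * ρ * w2 := by rw [h2]
    _ = y * star s * w2 := by rw [h3]
    _ = y * (star s * w2) := by noncomm_ring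

theorem sw_rel {s w w2 : R} {κ : ℂ} (hs1 : star s * s = 1) (hs2 : s * star s = 1)
    (hw2 : w2 * star w2 = 1) (hc : (star s * w2) * w = w * (star s * w2))
    (h : w2 * w = κ • (w * w2)) : s * w = κ • (w * s) := by
  have hcc : (star s * w2) * (star w2 * s) = 1 := by
    calc (star s * w2) * (star w2 * s) = star s * (w2 * star w2) * s := by noncomm_ring
      _ = 1 := by rw [hw2, mul_one, hs1]
  have h1 : s * w * (star s * w2) = κ • (w * s * (star s * w2)) := by
    calc s * w * (star s * w2) = s * (w * (star s * w2)) := by noncomm_ring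
      _ = s * (star s * w2 * w) := by rw [hc]
      _ = s * star s * (w2 * w) := by noncomm_ring
      _ = κ • (w * w2) := by rw [hs2, one_mul, h]
      _ = κ • (w * (s * star s) * w2) := by rw [hs2, mul_one]
      _ = κ • (w * s * (star s * w2)) := by congr 1; noncomm_ring
  calc s * w = s * w * ((star s * w2) * (star w2 * s)) := by rw [hcc, mul_one]
    _ = s * w * (star s * w2) * (star w2 * s) := by noncomm_ring
    _ = κ • (w * s * (star s * w2)) * (star w2 * s) := by rw [h1]
    _ = κ • (w * s * ((star s * w2) * (star w2 * s))) := by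
        rw [smul_mul_assoc]; congr 1; noncomm_ring
    _ = κ • (w * s) := by rw [hcc, mul_one]

theorem q_comm {v y ρ : R} (hy1 : y * star y = 1) (hρ : star ρ * ρ = 1)
    (h : v * y = ρ * v) : (star v * v) * y = y * (star v * v) := by
  have h1 : star ρ * v = v * star y := by
    calc star ρ * v = star ρ * (v * (y * star y)) := by rw [hy1, mul_one]
      _ = star ρ * (v * y) * star y := by noncomm_ring
      _ = star ρ * ρ * v * star y := by rw [h]; noncomm_ring
      _ = v * star y := by rw [hρ, one_mul]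
  have h2 : star v * ρ = y * star v := by
    have := congrArg star h1
    rw [star_mul, star_mul, star_star, star_star] at this
    exact this
  calc (star v * v) * y = star v * (v * y) := by noncomm_ring
    _ = star v * ρ * v := by rw [h]; noncomm_ring
    _ = y * (star v * v) := by rw [h2]; noncomm_ring

end StarAlg

end Pool.Agent.OpEq
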