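import Pool.Agent.OpEq.Core1
import Pool.Agent.OpEq.Seq

/-!
# More operator level lemmas
-/

noncomputable section

set_option linter.unusedSectionVars false

namespace Pool.Agent.OpEq

open scoped ENNReal InnerProductSpace ComplexOrder Topology
open Filter
open Pool.Agent.InnerAm (ell2 delta normSq_ell2 delta_apply norm_delta compEquiv
  compEquiv_apply)
open Pool.Agent.ExT (mulInd mulInd_apply norm_le_of_sq inner_delta_left inner_delta_right
  hasSum_delta ext_delta commVN mem_commVN TracialVNA)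

/-- The trace. -/
def TT (x : ell2 GG →L[ℂ] ell2 GG) : ℂ := ⟪delta (1 : GG), x (delta 1)⟫_ℂ

theorem TT_star_mul_self (x : ell2 GG →L[ℂ] ell2 GG) :
    TT (star x * x) = (‖x (delta 1)‖ : ℂ) ^ 2 := by
  unfold TT
  rw [mul_apply_eq_comp, ContinuousLinearMap.star_eq_adjoint,
    ContinuousLinearMap.adjoint_inner_right, inner_self_eq_norm_sq_to_K]
  rfl

theorem TT_sub (x y : ell2 GG →L[ℂ] ell2 GG) : TT (x - y) = TT x - TT y := by
  unfold TT
  rw [sub_apply, inner_sub_right]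

theorem TT_comm {x y : ell2 GG →L[ℂ] ell2 GG} (hx : x ∈ TGvn phi) (hy : y ∈ TGvn phi) :
    TT (x * y) = TT (y * x) := TG_trace_comm hx hy

theorem norm_TT_le (x : ell2 GG →L[ℂ] ell2 GG) : ‖TT x‖ ≤ ‖x (delta 1)‖ := by
  refine (norm_inner_le_norm _ _).trans ?_
  rw [norm_delta, one_mul]

theorem trace_ineq {l m : ℕ} (hlm : l ≤ m) {w q' : ell2 GG →L[ℂ] ell2 GG}
    (hw : SuppIn phi (GI (Set.Iio m)) w) (hw1 : ‖w‖ ≤ 1)
    (hq : SuppIn phi (GI (Set.Ico l m)) q') :
    ‖w (delta 1)‖ ^ 4 ≤ ‖(w * swC hlm w) (delta 1)‖ ^ 2 +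
      2 * ‖(star w * w - q') (delta 1)‖ := by
  set v := swC hlm w with hv
  set q := star w * w with hqd
  have hvs := swC_supp hlm hw
  rw [← hv] at hvs
  have hvm : v ∈ TGvn phi := hvs.mem
  have hwm : w ∈ TGvn phi := hw.mem
  have hqm : q ∈ TGvn phi := mul_mem (star_mem hwm) hwm
  have hv1 : ‖v‖ ≤ 1 := (norm_swC_le hlm w).trans hw1
  have e1 : (‖(w * v) (delta 1)‖ : ℂ) ^ 2 = TT (q * (v * star v)) := by
    rw [← TT_star_mul_self]
    have : star (w * v) * (w * v) = star v * (q * v) := by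
      rw [star_mul, hqd]; noncomm_ring
    rw [this, TT_comm (star_mem hvm) (mul_mem hqm hvm), mul_assoc]
  have hvv : SuppIn phi (GI (Set.Iio l ∪ Set.Ico m (m + (m - l)))) (v * star v) :=
    hvs.mul (hvs.star fun a ha => inv_mem ha) fun a ha b hb => mul_mem ha hb
  have e2 : TT (q' * (v * star v)) = TT q' * TT (v * star v) := by
    refine trace_mul_of_supp hq hvv fun g hg hg' => ?_
    refine GI_eq_one (I := Set.Ico l m) (fun i hi => ?_) (inv_mem_iff.1 hg) hg'
    rw [Set.mem_Ico] at hi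
    rw [Set.mem_union, Set.mem_Iio, Set.mem_Ico]
    omega
  have e3 : TT (v * star v) = (‖w (delta 1)‖ : ℂ) ^ 2 := by
    rw [TT_comm hvm (star_mem hvm), TT_star_mul_self, hv, norm_swC_delta]
  have e4 : TT q = (‖w (delta 1)‖ : ℂ) ^ 2 := TT_star_mul_self w
  have e5 : TT (q * (v * star v)) = TT (q' * (v * star v)) + TT ((q - q') * (v * star v)) := by
    rw [sub_mul, TT_sub]; ring
  have e6 : ((‖w (delta 1)‖ ^ 4 : ℝ) : ℂ) = ((‖(w * v) (delta 1)‖ ^ 2 : ℝ) : ℂ) +
      TT (q - q') * (‖w (delta 1)‖ : ℂ) ^ 2 - TT ((q - q') * (v * star v)) := by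
    rw [Complex.ofReal_pow, Complex.ofReal_pow, e1, e5, e2, e3, TT_sub, e4]
    ring
  have n1 : ‖w (delta 1)‖ ≤ 1 := by
    refine (w.le_opNorm _).trans ?_
    rw [norm_delta, mul_one]
    exact hw1
  have n2 : ‖TT (q - q') * (‖w (delta 1)‖ : ℂ) ^ 2‖ ≤ ‖(q - q') (delta 1)‖ := by
    rw [norm_mul, norm_pow, Complex.norm_real, norm_norm]
    calc ‖TT (q - q')‖ * ‖w (delta 1)‖ ^ 2 ≤ ‖(q - q') (delta 1)‖ * 1 ^ 2 := by
          gcongr
          exact norm_TT_le _
      _ = _ := by ring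
  have n3 : ‖TT ((q - q') * (v * star v))‖ ≤ ‖(q - q') (delta 1)‖ := by
    refine (norm_TT_le _).trans ?_
    refine (norm_mul_delta (sub_mem hqm hq.mem) (mul_mem hvm (star_mem hvm))).trans ?_
    have : ‖v * star v‖ ≤ 1 := by
      refine (norm_mul_le _ _).trans ?_
      have h2 : ‖star v‖ = ‖v‖ := norm_star v
      rw [h2]
      nlinarith [norm_nonneg v]
    calc ‖v * star v‖ * ‖(q - q') (delta 1)‖ ≤ 1 * ‖(q - q') (delta 1)‖ := by gcongr
      _ = _ := one_mul _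
  have n4 := congrArg norm e6
  rw [Complex.norm_real, Real.norm_eq_abs, abs_of_nonneg (by positivity)] at n4
  rw [n4]
  refine (norm_sub_le _ _).trans ?_
  have n5 : ‖((‖(w * v) (delta 1)‖ ^ 2 : ℝ) : ℂ) + TT (q - q') * (‖w (delta 1)‖ : ℂ) ^ 2‖ ≤
      ‖(w * v) (delta 1)‖ ^ 2 + ‖(q - q') (delta 1)‖ := by
    refine (norm_add_le _ _).trans (add_le_add (le_of_eq ?_) n2)
    rw [Complex.norm_real, Real.norm_eq_abs, abs_of_nonneg (by positivity)]
  linarith

theorem sum_cut (l m : ℕ) {x : ell2 GG →L[ℂ] ell2 GG} (hx : x ∈ TGvn phi) :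
    ∑ j : ZMod 3, cut {g : GG | dgb l m g = j} x = x := by
  classical
  refine eq_of_delta_one (sum_mem fun j _ => cut_mem (isSlice_dgb l m j) hx) hx ?_
  ext k
  rw [sum_apply, lp.coeFn_sum, Finset.sum_apply]
  have : ∀ j : ZMod 3, ((cut {g : GG | dgb l m g = j} x) (delta 1) : GG → ℂ) k =
      if dgb l m k = j then (x (delta 1) : GG → ℂ) k else 0 := by
    intro j
    rw [cut_delta_one (isSlice_dgb l m j), mulInd_apply]
    by_cases h : dgb l m k = j
    · rw [if_pos h, if_pos (show k ∈ {g : GG | dgb l m g = j} from h)]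
    · rw [if_neg h, if_neg (show ¬ k ∈ {g : GG | dgb l m g = j} from h)]
  simp only [this]
  rw [Finset.sum_ite_eq Finset.univ (dgb l m k), if_pos (Finset.mem_univ _)]

/-- The exchange identity. -/
theorem exchange {l m : ℕ} (hlm : l ≤ m) {j i : ZMod 3} {x y : ell2 GG →L[ℂ] ell2 GG}
    (hx : SuppIn phi (GI (Set.Iio m)) x) (hx' : SuppIn phi {g | dgb l m g = j} x)
    (hy : SuppIn phi (GI (Set.Iio m)) y) (hy' : SuppIn phi {g | dgb l m g = i} y) (k : GG) :
    ((swC hlm x * y) (delta 1) : GG → ℂ) k =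
      (ZMod.toCircle (j * i) : ℂ) * ((x * swC hlm y) (delta 1) : GG → ℂ) (sw hlm k) := by
  show (swC hlm x (y (delta 1)) : GG → ℂ) k =
    (ZMod.toCircle (j * i) : ℂ) * (x (swC hlm y (delta 1)) : GG → ℂ) (sw hlm k)
  have h1 := hasSum_apply (swC hlm x) (y (delta 1)) k
  have h2 := hasSum_apply x (swC hlm y (delta 1)) (sw hlm k)
  have h3 := ((sw hlm).toEquiv.hasSum_iff.2 h2).mul_left ((ZMod.toCircle (j * i) : Circle) : ℂ)
  have key : ∀ h, (y (delta 1) : GG → ℂ) h * (swC hlm x (delta h) : GG → ℂ) k =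
      (ZMod.toCircle (j * i) : ℂ) * ((swC hlm y (delta 1) : GG → ℂ) (sw hlm h) *
      (x (delta (sw hlm h)) : GG → ℂ) (sw hlm k)) := ?_
  · rw [funext key] at h1
    exact h1.unique h3
  intro h
  show (y (delta 1) : GG → ℂ) h * (swC hlm x (delta h) : GG → ℂ) k =
    (ZMod.toCircle (j * i) : ℂ) * ((swC hlm y (delta 1) : GG → ℂ) (sw hlm h) *
      (x (delta (sw hlm h)) : GG → ℂ) (sw hlm k))
  have e0 : sw hlm (k * h⁻¹) = sw hlm k * (sw hlm h)⁻¹ := by rw [map_mul, map_inv]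
  rw [swC_apply hlm hy, sw_sw, apply_delta (swC_mem hlm hx), apply_delta hx.mem,
    swC_apply hlm hx, e0]
  by_cases hh : dgb l m h = i
  · by_cases hp : sw hlm k * (sw hlm h)⁻¹ ∈ GI (Set.Iio m)
    · by_cases hp' : dgb l m (sw hlm k * (sw hlm h)⁻¹) = j
      · have e1 : k * h⁻¹ = sw hlm (sw hlm k * (sw hlm h)⁻¹) := by
          rw [map_mul, map_inv, sw_sw, sw_sw]
        have e2 : phi (k * h⁻¹) h =
            phi (sw hlm k * (sw hlm h)⁻¹) (sw hlm h) * ZMod.toCircle (j * i) := by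
          rw [e1, phi_apply, beta_sw hlm hp, AddChar.map_add_eq_mul, hp', hh]
          rfl
        rw [e2, Circle.coe_mul]
        ring
      · rw [hx'.supp _ hp']
        ring
    · rw [hx.supp _ hp]
      ring
  · rw [hy'.supp _ hh]
    ring

/-- The phase `exp(-2πi/3)`. -/
def kap : ℂ := ((ZMod.toCircle (-1 : ZMod 3) : Circle) : ℂ)

theorem exchange_norm {l m : ℕ} (hlm : l ≤ m) {j : ZMod 3} {x : ell2 GG →L[ℂ] ell2 GG}
    (hx : SuppIn phi (GI (Set.Iio m)) x) (hx' : SuppIn phi {g | dgb l m g = j} x) :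
    ‖(x * swC hlm x) (delta 1)‖ ≤
      2 * ‖(swC hlm x * x - kap • (x * swC hlm x)) (delta 1)‖ := by
  set ξ := (x * swC hlm x) (delta 1) with hξ
  set η := (swC hlm x * x) (delta 1) with hη
  set U : ell2 GG →L[ℂ] ell2 GG := mono (sw hlm).toEquiv (fun _ => 1) with hU
  set a : ℂ := ((ZMod.toCircle (j * j) : Circle) : ℂ) with ha
  have hκ : kap = ((ZMod.toCircle (-1 : ZMod 3) : Circle) : ℂ) := rfl
  set κ : ℂ := kap
  have e1 : η = a • U ξ := by
    ext k
    rw [hη, exchange hlm hx hx' hx hx' k]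
    show _ = a * (U ξ : GG → ℂ) k
    rw [hU, mono_apply, Circle.coe_one, one_mul]
    rfl
  have e2 : U (U ξ) = ξ := by
    ext k
    rw [hU, mono_apply, mono_apply, Circle.coe_one, one_mul, one_mul]
    show (ξ : GG → ℂ) (sw hlm (sw hlm k)) = _
    rw [sw_sw]
  have e3 : (a ^ 2 - κ ^ 2) • ξ = a • U (η - κ • ξ) + κ • (η - κ • ξ) := by
    have : a • U (η - κ • ξ) = (a ^ 2) • ξ - κ • η := by
      rw [map_sub, map_smul, e1, map_smul, e2, smul_sub, smul_smul, smul_smul, smul_smul, pow_two,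
        mul_comm κ a]
    rw [this, sub_smul, smul_sub, smul_smul, pow_two κ]
    abel
  have e4 : ‖a‖ = 1 := Circle.norm_coe _
  have e5 : ‖κ‖ = 1 := Circle.norm_coe _
  have e6 : 1 ≤ ‖a ^ 2 - κ ^ 2‖ := by
    have h1 : a ^ 2 - κ ^ 2 =
        κ ^ 2 * (((ZMod.toCircle (j * j + j * j + 2) : Circle) : ℂ) - 1) := by
      have h2 : κ ^ 2 * ((ZMod.toCircle (j * j + j * j + 2) : Circle) : ℂ) = a ^ 2 := by
        rw [hκ, ha, pow_two, pow_two, ← Circle.coe_mul, ← Circle.coe_mul, ← Circle.coe_mul,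
          ← AddChar.map_add_eq_mul, ← AddChar.map_add_eq_mul, ← AddChar.map_add_eq_mul]
        congr 2
        ring
      rw [mul_sub, h2, mul_one]
    rw [h1, norm_mul, norm_pow, e5, one_pow, one_mul]
    refine toCircle_gap ?_
    have key : ∀ j : ZMod 3, j * j + j * j + 2 ≠ 0 := by decide
    exact key j
  have e7 : ‖(a ^ 2 - κ ^ 2) • ξ‖ ≤ 2 * ‖η - κ • ξ‖ := by
    rw [e3]
    refine (norm_add_le _ _).trans ?_
    rw [norm_smul, norm_smul, e4, e5, hU, norm_mono]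
    linarith
  rw [norm_smul] at e7
  have e8 : (swC hlm x * x - κ • (x * swC hlm x)) (delta 1) = η - κ • ξ := by
    rw [sub_apply, smul_apply]
  rw [e8]
  nlinarith [norm_nonneg ξ]

/-- Projecting the commutation relation on a bidegree. -/
theorem project_rel {l m : ℕ} (hlm : l ≤ m) (j : ZMod 3) {x : ell2 GG →L[ℂ] ell2 GG}
    (hx : SuppIn phi (GI (Set.Iio m)) x) (κ : ℂ) :
    ‖(swC hlm (cut {g | dgb l m g = j} x) * cut {g | dgb l m g = j} x -
      κ • (cut {g | dgb l m g = j} x * swC hlm (cut {g | dgb l m g = j} x))) (delta 1)‖ ≤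
    ‖(swC hlm x * x - κ • (x * swC hlm x)) (delta 1)‖ := by
  set V : Set GG := {g | dgb l m g = j} with hV
  set V3 : Set GG := {g | dgb m (m + (m - l)) g = j} with hV3
  have sV : IsSlice V := isSlice_dgb l m j
  have sV3 : IsSlice V3 := isSlice_dgb m _ j
  set xj := cut V x with hxj
  have hxjs : SuppIn phi (GI (Set.Iio m)) xj := (cut_supp sV hx).mono Set.inter_subset_right
  set S := swC hlm x with hS
  set Sj := swC hlm xj with hSj
  have hSs : SuppIn phi (GI (Set.Iio l ∪ Set.Ico m (m + (m - l)))) S := swC_supp hlm hx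
  -- elements of `GI (Iio m)` have degree zero in the third block
  have d1 : ∀ a ∈ GI (Set.Iio m), dgb m (m + (m - l)) a = 0 := fun a ha =>
    dgb_eq_zero (I := Set.Iio m) (fun i hi _ => by rw [Set.mem_Iio]; omega) ha
  have d2 : ∀ a ∈ GI (Set.Iio l ∪ Set.Ico m (m + (m - l))), dgb l m a = 0 := fun a ha =>
    dgb_eq_zero (fun i hi hi' => by
      rw [Set.mem_union, Set.mem_Iio, Set.mem_Ico]; omega) ha
  have v1 : ∀ a ∈ GI (Set.Iio m), ∀ h, a * h ∈ V3 ↔ h ∈ V3 := fun a ha h => by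
    show dgb m _ (a * h) = j ↔ dgb m _ h = j
    rw [dgb_mul, d1 a ha, zero_add]
  have dinv : ∀ (p q : ℕ) (a : GG), dgb p q a = 0 → dgb p q a⁻¹ = 0 := fun p q a ha => by
    have := dgb_mul p q a a⁻¹
    rw [mul_inv_cancel, ha, zero_add] at this
    rw [← this]
    exact Finset.sum_eq_zero fun i _ => chi_one
  have v2 : ∀ a ∈ GI (Set.Iio m), ∀ k, k * a⁻¹ ∈ V3 ↔ k ∈ V3 := fun a ha k => by
    show dgb m _ (k * a⁻¹) = j ↔ dgb m _ k = j
    rw [dgb_mul, dinv _ _ a (d1 a ha), add_zero]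
  have v3 : ∀ a ∈ GI (Set.Iio l ∪ Set.Ico m (m + (m - l))), ∀ h, a * h ∈ V ↔ h ∈ V :=
    fun a ha h => by
      show dgb l m (a * h) = j ↔ dgb l m h = j
      rw [dgb_mul, d2 a ha, zero_add]
  have v4 : ∀ a ∈ GI (Set.Iio l ∪ Set.Ico m (m + (m - l))), ∀ k, k * a⁻¹ ∈ V ↔ k ∈ V :=
    fun a ha k => by
      show dgb l m (k * a⁻¹) = j ↔ dgb l m k = j
      rw [dgb_mul, dinv _ _ a (d2 a ha), add_zero]
  have c1 : cut V3 S = Sj := by
    refine eq_of_delta_one (cut_mem sV3 hSs.mem) (swC_mem hlm hxjs) ?_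
    classical
    ext k
    rw [cut_delta_one sV3, mulInd_apply, swC_apply hlm hx, swC_apply hlm hxjs, hxj,
      cut_delta_one sV, mulInd_apply]
    have : (k ∈ V3) ↔ (sw hlm k ∈ V) := by
      show dgb m _ k = j ↔ dgb l m (sw hlm k) = j
      rw [dgb_sw]
    by_cases hk : k ∈ V3
    · rw [if_pos hk, if_pos (this.1 hk)]
    · rw [if_neg hk, if_neg fun h => hk (this.2 h)]
  have p1 : mulInd V3 (mulInd V (S (x (delta 1)))) = Sj (xj (delta 1)) := by
    rw [mulInd_mul_left hSs v3, ← cut_delta_one sV, mulInd_mul_right sV3 S hxjs.supp v2, c1]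
  have p2 : mulInd V3 (mulInd V (x (S (delta 1)))) = xj (Sj (delta 1)) := by
    rw [mulInd_mul_right sV x hSs.supp v4, mulInd_mul_left hxjs v1, ← cut_delta_one sV3, c1]
  have p3 : (Sj * xj - κ • (xj * Sj)) (delta 1) =
      mulInd V3 (mulInd V ((S * x - κ • (x * S)) (delta 1))) := by
    rw [sub_apply, smul_apply, sub_apply, smul_apply, map_sub, map_sub, map_smul, map_smul]
    exact congrArg₂ (fun a b => a - κ • b) p1.symm p2.symm
  rw [p3]
  exact (norm_mulInd_le _ _).trans (norm_mulInd_le _ _)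

/-- Projecting the intertwining relation on a degree. -/
theorem project_intertwine {l m : ℕ} (j : ZMod 3) {x y r : ell2 GG →L[ℂ] ell2 GG}
    (hy : SuppIn phi (GI (Set.Iio l)) y) (hr : SuppIn phi (GI (Set.Iio l)) r) :
    ‖(cut {g | dgb l m g = j} x * y - r * cut {g | dgb l m g = j} x) (delta 1)‖ ≤
      ‖(x * y - r * x) (delta 1)‖ := by
  set V : Set GG := {g | dgb l m g = j} with hV
  have sV : IsSlice V := isSlice_dgb l m j
  have d1 : ∀ a ∈ GI (Set.Iio l), dgb l m a = 0 := fun a ha =>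
    dgb_eq_zero (I := Set.Iio l) (fun i hi _ => by rw [Set.mem_Iio]; omega) ha
  have v1 : ∀ a ∈ GI (Set.Iio l), ∀ h, a * h ∈ V ↔ h ∈ V := fun a ha h => by
    show dgb l m (a * h) = j ↔ dgb l m h = j
    rw [dgb_mul, d1 a ha, zero_add]
  have v2 : ∀ a ∈ GI (Set.Iio l), ∀ k, k * a⁻¹ ∈ V ↔ k ∈ V := fun a ha k => by
    show dgb l m (k * a⁻¹) = j ↔ dgb l m k = j
    rw [dgb_mul, d1 a⁻¹ (inv_mem ha), add_zero]
  have p1 : mulInd V (x (y (delta 1))) = cut V x (y (delta 1)) :=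
    mulInd_mul_right sV x hy.supp v2
  have p2 : mulInd V (r (x (delta 1))) = r (cut V x (delta 1)) := by
    rw [mulInd_mul_left hr v1, cut_delta_one sV]
  have p3 : (cut V x * y - r * cut V x) (delta 1) = mulInd V ((x * y - r * x) (delta 1)) := by
    rw [sub_apply, sub_apply, map_sub]
    exact congrArg₂ (fun a b => a - b) p1.symm p2.symm
  rw [p3]
  exact norm_mulInd_le _ _

end Pool.Agent.OpEq
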