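import Pool.Agent.OpEq.Logic
import Pool.Agent.ExT.Defs

/-!
# The structures `M` and `M^op`
-/

noncomputable section

set_option linter.unusedSectionVars false

namespace Pool.Agent.OpEq

open Pub
open scoped InnerProductSpace
open Pool.Agent.ExT (TracialVNA)
open Pool.Agent.ExT.TracialVNA (norm_star_Ω norm_mul_Ω)

variable {H : Type} [NormedAddCommGroup H] [InnerProductSpace ℂ H] [CompleteSpace H]
variable (N : TracialVNA H)

/-- The trace on `M`. -/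
def tauM (x : N.A) : ℂ := ⟪N.Ω, (x : H →L[ℂ] H) N.Ω⟫_ℂ
/-- The unit ball of `M`. -/
def ballM : Set N.A := {x | ‖(x : H →L[ℂ] H)‖ ≤ 1}
/-- The trace on `M^op`. -/
def tauO (x : (N.A)ᵐᵒᵖ) : ℂ := ⟪N.Ω, (x.unop : H →L[ℂ] H) N.Ω⟫_ℂ
/-- The unit ball of `M^op`. -/
def ballO : Set (N.A)ᵐᵒᵖ := {x | ‖(x.unop : H →L[ℂ] H)‖ ≤ 1}

variable {N}

theorem coe_mul' (x y : N.A) : ((x * y : N.A) : H →L[ℂ] H) = (x : H →L[ℂ] H) * y := rfl
theorem coe_add' (x y : N.A) : ((x + y : N.A) : H →L[ℂ] H) = (x : H →L[ℂ] H) + y := rfl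
theorem coe_sub' (x y : N.A) : ((x - y : N.A) : H →L[ℂ] H) = (x : H →L[ℂ] H) - y := rfl
theorem coe_one' : ((1 : N.A) : H →L[ℂ] H) = 1 := rfl
theorem coe_star' (x : N.A) : ((star x : N.A) : H →L[ℂ] H) = star (x : H →L[ℂ] H) := rfl
theorem coe_alg' (c : ℂ) : ((algebraMap ℂ N.A c : N.A) : H →L[ℂ] H) =
    algebraMap ℂ (H →L[ℂ] H) c := rfl

theorem norm_inner_Ω_le (x : H →L[ℂ] H) : ‖⟪N.Ω, x N.Ω⟫_ℂ‖ ≤ ‖x‖ := by
  refine (norm_inner_le_norm _ _).trans ?_
  rw [N.norm_Ω, one_mul]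
  refine (x.le_opNorm _).trans ?_
  rw [N.norm_Ω, mul_one]

theorem inner_star_mul (x : H →L[ℂ] H) : (⟪N.Ω, (star x * x) N.Ω⟫_ℂ).re = ‖x N.Ω‖ ^ 2 := by
  have h1 : ⟪N.Ω, (star x * x) N.Ω⟫_ℂ = (‖x N.Ω‖ : ℂ) ^ 2 := by
    rw [mul_apply_eq_comp, ContinuousLinearMap.star_eq_adjoint,
      ContinuousLinearMap.adjoint_inner_right, inner_self_eq_norm_sq_to_K]
    rfl
  rw [h1, ← Complex.ofReal_pow, Complex.ofReal_re]

theorem nrm_M (a : N.A) : nrm (tauM N) a = ‖(a : H →L[ℂ] H) N.Ω‖ := by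
  unfold nrm tauM
  rw [coe_mul', coe_star', inner_star_mul, Real.sqrt_sq (norm_nonneg _)]

theorem nrm_O (a : (N.A)ᵐᵒᵖ) : nrm (tauO N) a = ‖(a.unop : H →L[ℂ] H) N.Ω‖ := by
  unfold nrm tauO
  rw [MulOpposite.unop_mul, MulOpposite.unop_star, coe_mul', coe_star']
  have h := inner_star_mul (N := N) (star (a.unop : H →L[ℂ] H))
  rw [star_star] at h
  rw [h, Real.sqrt_sq (norm_nonneg _)]
  exact norm_star_Ω a.unop.2

theorem one_mem_ballM : (1 : N.A) ∈ ballM N := by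
  show ‖(1 : H →L[ℂ] H)‖ ≤ 1
  exact ContinuousLinearMap.norm_id_le

theorem ballM_nonempty : (ballM N).Nonempty := ⟨1, one_mem_ballM⟩
theorem ballO_nonempty : (ballO N).Nonempty := ⟨MulOpposite.op 1, one_mem_ballM⟩

theorem polyBdd_M : PolyBdd (tauM N) (ballM N) := by
  intro n p
  have key : ∃ C : ℝ, ∀ v : Fin n → N.A, (∀ i, v i ∈ ballM N) →
      ‖((p.eval v : N.A) : H →L[ℂ] H)‖ ≤ C := by
    induction p with
    | var i => exact ⟨1, fun v hv => hv i⟩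
    | const c => exact ⟨‖algebraMap ℂ (H →L[ℂ] H) c‖, fun v hv => le_rfl⟩
    | add p q hp hq =>
      obtain ⟨C, hC⟩ := hp
      obtain ⟨D, hD⟩ := hq
      refine ⟨C + D, fun v hv => ?_⟩
      rw [eval_add, coe_add']
      exact (norm_add_le _ _).trans (add_le_add (hC v hv) (hD v hv))
    | mul p q hp hq =>
      obtain ⟨C, hC⟩ := hp
      obtain ⟨D, hD⟩ := hq
      refine ⟨C * D, fun v hv => ?_⟩
      rw [eval_mul, coe_mul']
      exact (norm_mul_le _ _).trans (mul_le_mul (hC v hv) (hD v hv) (norm_nonneg _)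
        ((norm_nonneg _).trans (hC v hv)))
    | star p hp =>
      obtain ⟨C, hC⟩ := hp
      refine ⟨C, fun v hv => ?_⟩
      rw [eval_star, coe_star', norm_star]
      exact hC v hv
  obtain ⟨C, hC⟩ := key
  exact ⟨C, fun v hv => (norm_inner_Ω_le _).trans (hC v hv)⟩

theorem polyBdd_O : PolyBdd (tauO N) (ballO N) := by
  intro n p
  have key : ∃ C : ℝ, ∀ v : Fin n → (N.A)ᵐᵒᵖ, (∀ i, v i ∈ ballO N) →
      ‖((p.eval v).unop : H →L[ℂ] H)‖ ≤ C := by
    induction p with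
    | var i => exact ⟨1, fun v hv => hv i⟩
    | const c => exact ⟨‖algebraMap ℂ (H →L[ℂ] H) c‖, fun v hv => le_rfl⟩
    | add p q hp hq =>
      obtain ⟨C, hC⟩ := hp
      obtain ⟨D, hD⟩ := hq
      refine ⟨C + D, fun v hv => ?_⟩
      rw [eval_add, MulOpposite.unop_add, coe_add']
      exact (norm_add_le _ _).trans (add_le_add (hC v hv) (hD v hv))
    | mul p q hp hq =>
      obtain ⟨C, hC⟩ := hp
      obtain ⟨D, hD⟩ := hq
      refine ⟨D * C, fun v hv => ?_⟩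
      rw [eval_mul, MulOpposite.unop_mul, coe_mul']
      exact (norm_mul_le _ _).trans (mul_le_mul (hD v hv) (hC v hv) (norm_nonneg _)
        ((norm_nonneg _).trans (hD v hv)))
    | star p hp =>
      obtain ⟨C, hC⟩ := hp
      refine ⟨C, fun v hv => ?_⟩
      rw [eval_star, MulOpposite.unop_star, coe_star', norm_star]
      exact hC v hv
  obtain ⟨C, hC⟩ := key
  exact ⟨C, fun v hv => (norm_inner_Ω_le _).trans (hC v hv)⟩

/-- If `M ≡ M^op` then the sentence has the same value. -/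
theorem sigma_eq_of_equiv (h : EquivOpposite N.alg N.Ω) :
    sigma.val (tauM N) (ballM N) Fin.elim0 = sigma.val (tauO N) (ballO N) Fin.elim0 :=
  h.out.out sigma

end Pool.Agent.OpEq
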