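import Pool.Agent.OpEq.Pub

/-!
# Evaluating formulas, and the separating sentence
-/

noncomputable section

set_option linter.unusedSectionVars false

namespace Pool.Agent.OpEq

open Pub

section General

variable {A : Type} [Ring A] [StarRing A] [Algebra ℂ A] (τ : A → ℂ) (B : Set A)

theorem val_re {n : ℕ} (p : StarPoly n) (v : Fin n → A) :
    (Formula.re p).val τ B v = (τ (p.eval v)).re := rfl

theorem val_im {n : ℕ} (p : StarPoly n) (v : Fin n → A) :
    (Formula.im p).val τ B v = (τ (p.eval v)).im := rfl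

theorem val_conn {n k : ℕ} (f : C(Fin k → ℝ, ℝ)) (φ : Fin k → Formula n) (v : Fin n → A) :
    (Formula.conn k f φ).val τ B v = f fun i => (φ i).val τ B v := rfl

theorem val_sup {n : ℕ} (φ : Formula (n + 1)) (v : Fin n → A) :
    φ.sup.val τ B v = ⨆ x : B, φ.val τ B (Fin.cons x.1 v) := rfl

theorem val_inf {n : ℕ} (φ : Formula (n + 1)) (v : Fin n → A) :
    φ.inf.val τ B v = ⨅ x : B, φ.val τ B (Fin.cons x.1 v) := rfl

theorem eval_var {n : ℕ} (v : Fin n → A) (i : Fin n) : (StarPoly.var i).eval v = v i := rfl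
theorem eval_const {n : ℕ} (v : Fin n → A) (c : ℂ) :
    (StarPoly.const c).eval v = algebraMap ℂ A c := rfl
theorem eval_add {n : ℕ} (v : Fin n → A) (p q : StarPoly n) :
    (StarPoly.add p q).eval v = p.eval v + q.eval v := rfl
theorem eval_mul {n : ℕ} (v : Fin n → A) (p q : StarPoly n) :
    (StarPoly.mul p q).eval v = p.eval v * q.eval v := rfl
theorem eval_star {n : ℕ} (v : Fin n → A) (p : StarPoly n) :
    (StarPoly.star p).eval v = star (p.eval v) := rfl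

/-- The traces of `*`-polynomials are bounded on the unit ball. -/
def PolyBdd : Prop :=
  ∀ (n : ℕ) (p : StarPoly n), ∃ C : ℝ, ∀ v : Fin n → A, (∀ i, v i ∈ B) → ‖τ (p.eval v)‖ ≤ C

variable {τ B}

theorem cons_mem {n : ℕ} {v : Fin n → A} (hv : ∀ i, v i ∈ B) {x : A} (hx : x ∈ B) :
    ∀ i, (Fin.cons x v : Fin (n + 1) → A) i ∈ B := by
  intro i
  refine Fin.cases ?_ (fun i => ?_) i
  · exact hx
  · exact hv i

theorem formula_bdd (hB : B.Nonempty) (h : PolyBdd τ B) {n : ℕ} (φ : Formula n) :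
    ∃ C : ℝ, ∀ v : Fin n → A, (∀ i, v i ∈ B) → |φ.val τ B v| ≤ C := by
  induction φ with
  | re p =>
    obtain ⟨C, hC⟩ := h _ p
    exact ⟨C, fun v hv => (Complex.abs_re_le_norm _).trans (hC v hv)⟩
  | im p =>
    obtain ⟨C, hC⟩ := h _ p
    exact ⟨C, fun v hv => (Complex.abs_im_le_norm _).trans (hC v hv)⟩
  | conn k f φ ih =>
    choose C hC using ih
    have hK : IsCompact (Set.pi Set.univ fun i : Fin k => Set.Icc (-C i) (C i)) :=
      isCompact_univ_pi fun i => isCompact_Icc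
    obtain ⟨D, hD⟩ := hK.exists_bound_of_continuousOn f.continuous.continuousOn
    refine ⟨D, fun v hv => ?_⟩
    rw [val_conn]
    refine hD _ fun i _ => ?_
    have := hC i v hv
    rw [abs_le] at this
    exact ⟨this.1, this.2⟩
  | sup φ ih =>
    obtain ⟨C, hC⟩ := ih
    refine ⟨C, fun v hv => ?_⟩
    rw [val_sup]
    have : Nonempty B := hB.to_subtype
    have h1 : ∀ x : B, |φ.val τ B (Fin.cons x.1 v)| ≤ C := fun x => hC _ (cons_mem hv x.2)
    rw [abs_le]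
    obtain ⟨x0⟩ := this
    constructor
    · refine (neg_le_of_abs_le (h1 x0)).trans (le_ciSup (f := fun x : B =>
        φ.val τ B (Fin.cons x.1 v)) ⟨C, ?_⟩ x0)
      rintro _ ⟨x, rfl⟩
      exact le_of_abs_le (h1 x)
    · have : Nonempty B := ⟨x0⟩
      exact ciSup_le fun x => le_of_abs_le (h1 x)
  | inf φ ih =>
    obtain ⟨C, hC⟩ := ih
    refine ⟨C, fun v hv => ?_⟩
    rw [val_inf]
    have : Nonempty B := hB.to_subtype
    have h1 : ∀ x : B, |φ.val τ B (Fin.cons x.1 v)| ≤ C := fun x => hC _ (cons_mem hv x.2)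
    rw [abs_le]
    obtain ⟨x0⟩ := this
    constructor
    · have : Nonempty B := ⟨x0⟩
      exact le_ciInf fun x => neg_le_of_abs_le (h1 x)
    · refine le_trans (ciInf_le (f := fun x : B =>
        φ.val τ B (Fin.cons x.1 v)) ⟨-C, ?_⟩ x0) (le_of_abs_le (h1 x0))
      rintro _ ⟨x, rfl⟩
      exact neg_le_of_abs_le (h1 x)

theorem inf_lt (hB : B.Nonempty) {n : ℕ} {φ : Formula (n + 1)} {v : Fin n → A} {ε : ℝ}
    (h : φ.inf.val τ B v < ε) : ∃ x ∈ B, φ.val τ B (Fin.cons x v) < ε := by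
  rw [val_inf] at h
  have : Nonempty B := hB.to_subtype
  obtain ⟨x, hx⟩ := exists_lt_of_ciInf_lt h
  exact ⟨x.1, x.2, hx⟩

theorem sup_lt (hB : B.Nonempty) (hp : PolyBdd τ B) {n : ℕ} {φ : Formula (n + 1)}
    {v : Fin n → A} (hv : ∀ i, v i ∈ B) {ε : ℝ} (h : φ.sup.val τ B v < ε) :
    ∀ x ∈ B, φ.val τ B (Fin.cons x v) < ε := by
  intro x hx
  obtain ⟨C, hC⟩ := formula_bdd hB hp φ
  rw [val_sup] at h
  refine lt_of_le_of_lt (le_ciSup (f := fun x : B => φ.val τ B (Fin.cons x.1 v))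
    ⟨C, ?_⟩ ⟨x, hx⟩) h
  rintro _ ⟨x, rfl⟩
  exact le_of_abs_le (hC _ (cons_mem hv x.2))

theorem inf_le (hB : B.Nonempty) (hp : PolyBdd τ B) {n : ℕ} {φ : Formula (n + 1)}
    {v : Fin n → A} (hv : ∀ i, v i ∈ B) {δ : ℝ} {x : A} (hx : x ∈ B)
    (h : φ.val τ B (Fin.cons x v) ≤ δ) : φ.inf.val τ B v ≤ δ := by
  obtain ⟨C, hC⟩ := formula_bdd hB hp φ
  rw [val_inf]
  refine (ciInf_le (f := fun x : B => φ.val τ B (Fin.cons x.1 v)) ⟨-C, ?_⟩ ⟨x, hx⟩).trans h
  rintro _ ⟨x, rfl⟩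
  exact neg_le_of_abs_le (hC _ (cons_mem hv x.2))

theorem sup_le (hB : B.Nonempty) {n : ℕ} {φ : Formula (n + 1)}
    {v : Fin n → A} {δ : ℝ} (h : ∀ x ∈ B, φ.val τ B (Fin.cons x v) ≤ δ) :
    φ.sup.val τ B v ≤ δ := by
  rw [val_sup]
  have : Nonempty B := hB.to_subtype
  exact ciSup_le fun x => h x.1 x.2

end General

/-! ### The sentence -/

/-- `p - q` -/
def psub {n : ℕ} (p q : StarPoly n) : StarPoly n :=
  StarPoly.add p (StarPoly.mul (StarPoly.const (-1)) q)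

theorem eval_psub {A : Type} [Ring A] [StarRing A] [Algebra ℂ A] {n : ℕ} (v : Fin n → A)
    (p q : StarPoly n) : (psub p q).eval v = p.eval v - q.eval v := by
  unfold psub
  rw [eval_add, eval_mul, eval_const, map_neg, map_one, neg_one_mul, sub_eq_add_neg]

/-- The phase `exp(2πi/3)`. -/
def zet : ℂ := ((ZMod.toCircle (1 : ZMod 3) : Circle) : ℂ)

/-- The polynomials in the sentence.  The variables are
`w₂ = 0, z₂ = 1, z₁ = 2, w = 3, y₃ = 4, y₂ = 5, y₁ = 6, F₃ = 7, F₂ = 8, F₁ = 9`. -/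
def polys : Fin 16 → StarPoly 10 :=
  ![psub (.mul (.star (.var 3)) (.var 3)) (.const 1),
    psub (.mul (.var 3) (.star (.var 3))) (.const 1),
    psub (.mul (.star (.var 0)) (.var 0)) (.const 1),
    psub (.mul (.var 0) (.star (.var 0))) (.const 1),
    psub (.mul (.mul (.var 0) (.var 6)) (.star (.var 0)))
      (.mul (.mul (.var 3) (.var 6)) (.star (.var 3))),
    psub (.mul (.mul (.var 0) (.var 5)) (.star (.var 0)))
      (.mul (.mul (.var 3) (.var 5)) (.star (.var 3))),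
    psub (.mul (.mul (.var 0) (.var 4)) (.star (.var 0)))
      (.mul (.mul (.var 3) (.var 4)) (.star (.var 3))),
    psub (.mul (.var 0) (.var 3)) (.mul (.const zet) (.mul (.var 3) (.var 0))),
    psub (.mul (.var 0) (.var 2)) (.mul (.var 2) (.var 0)),
    psub (.mul (.var 0) (.var 1)) (.mul (.var 1) (.var 0)),
    psub (.mul (.var 9) (.var 2)) (.mul (.var 2) (.var 9)),
    psub (.mul (.var 8) (.var 2)) (.mul (.var 2) (.var 8)),
    psub (.mul (.var 7) (.var 2)) (.mul (.var 2) (.var 7)),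
    psub (.mul (.var 9) (.var 1)) (.mul (.var 1) (.var 9)),
    psub (.mul (.var 8) (.var 1)) (.mul (.var 1) (.var 8)),
    psub (.mul (.var 7) (.var 1)) (.mul (.var 1) (.var 7))]

/-- The connective. -/
def connF : C(Fin 16 → ℝ, ℝ) :=
  ⟨fun t => √(t 0) + √(t 1) + √(t 2) + √(t 3) + √(t 4) + √(t 5) + √(t 6) + √(t 7) +
    max 0 (√(t 8) - 22 * (√(t 10) + √(t 11) + √(t 12))) +
    max 0 (√(t 9) - 22 * (√(t 13) + √(t 14) + √(t 15))), by fun_prop⟩

/-- The quantifier free part. -/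
def body : Formula 10 :=
  .conn 16 connF fun j => .re (.mul (.star (polys j)) (polys j))

/-- The sentence. -/
def sigma : Formula 0 := body.inf.sup.sup.inf.sup.sup.sup.inf.inf.inf

/-- The `2`-norm. -/
def nrm {A : Type} [Ring A] [StarRing A] (τ : A → ℂ) (a : A) : ℝ := √(τ (star a * a)).re

/-- The value of the quantifier free part. -/
def VV {A : Type} [Ring A] [StarRing A] [Algebra ℂ A] (τ : A → ℂ)
    (F1 F2 F3 y1 y2 y3 w z1 z2 w2 : A) : ℝ :=
  nrm τ (star w * w - 1) + nrm τ (w * star w - 1) + nrm τ (star w2 * w2 - 1) +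
    nrm τ (w2 * star w2 - 1) + nrm τ (w2 * y1 * star w2 - w * y1 * star w) +
    nrm τ (w2 * y2 * star w2 - w * y2 * star w) + nrm τ (w2 * y3 * star w2 - w * y3 * star w) +
    nrm τ (w2 * w - algebraMap ℂ A zet * (w * w2)) +
    max 0 (nrm τ (w2 * z1 - z1 * w2) - 22 * (nrm τ (F1 * z1 - z1 * F1) +
      nrm τ (F2 * z1 - z1 * F2) + nrm τ (F3 * z1 - z1 * F3))) +
    max 0 (nrm τ (w2 * z2 - z2 * w2) - 22 * (nrm τ (F1 * z2 - z2 * F1) +
      nrm τ (F2 * z2 - z2 * F2) + nrm τ (F3 * z2 - z2 * F3)))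

/-- The assignment. -/
def asg {A : Type} (F1 F2 F3 y1 y2 y3 w z1 z2 w2 : A) : Fin 10 → A :=
  Fin.cons w2 (Fin.cons z2 (Fin.cons z1 (Fin.cons w (Fin.cons y3 (Fin.cons y2 (Fin.cons y1
    (Fin.cons F3 (Fin.cons F2 (Fin.cons F1 Fin.elim0)))))))))

theorem body_val {A : Type} [Ring A] [StarRing A] [Algebra ℂ A] (τ : A → ℂ) (B : Set A)
    (F1 F2 F3 y1 y2 y3 w z1 z2 w2 : A) :
    body.val τ B (asg F1 F2 F3 y1 y2 y3 w z1 z2 w2) = VV τ F1 F2 F3 y1 y2 y3 w z1 z2 w2 := by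
  set v := asg F1 F2 F3 y1 y2 y3 w z1 z2 w2 with hv
  have h : ∀ j : Fin 16, √((Formula.re (.mul (.star (polys j)) (polys j))).val τ B v) =
      nrm τ ((polys j).eval v) := fun j => rfl
  have e : body.val τ B v = nrm τ ((polys 0).eval v) + nrm τ ((polys 1).eval v) +
      nrm τ ((polys 2).eval v) + nrm τ ((polys 3).eval v) + nrm τ ((polys 4).eval v) +
      nrm τ ((polys 5).eval v) + nrm τ ((polys 6).eval v) + nrm τ ((polys 7).eval v) +
      max 0 (nrm τ ((polys 8).eval v) - 22 * (nrm τ ((polys 10).eval v) +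
        nrm τ ((polys 11).eval v) + nrm τ ((polys 12).eval v))) +
      max 0 (nrm τ ((polys 9).eval v) - 22 * (nrm τ ((polys 13).eval v) +
        nrm τ ((polys 14).eval v) + nrm τ ((polys 15).eval v))) := rfl
  have v0 : v 0 = w2 := rfl
  have v1 : v 1 = z2 := rfl
  have v2 : v 2 = z1 := rfl
  have v3 : v 3 = w := rfl
  have v4 : v 4 = y3 := rfl
  have v5 : v 5 = y2 := rfl
  have v6 : v 6 = y1 := rfl
  have v7 : v 7 = F3 := rfl
  have v8 : v 8 = F2 := rfl
  have v9 : v 9 = F1 := rfl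
  have p0 : (polys 0).eval v = star w * w - 1 := by
    show (psub (.mul (.star (.var 3)) (.var 3)) (.const 1) : StarPoly 10).eval v = _
    rw [eval_psub, eval_mul, eval_star, eval_var, eval_const, map_one, v3]
  have p1 : (polys 1).eval v = w * star w - 1 := by
    show (psub (.mul (.var 3) (.star (.var 3))) (.const 1) : StarPoly 10).eval v = _
    rw [eval_psub, eval_mul, eval_star, eval_var, eval_const, map_one, v3]
  have p2 : (polys 2).eval v = star w2 * w2 - 1 := by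
    show (psub (.mul (.star (.var 0)) (.var 0)) (.const 1) : StarPoly 10).eval v = _
    rw [eval_psub, eval_mul, eval_star, eval_var, eval_const, map_one, v0]
  have p3 : (polys 3).eval v = w2 * star w2 - 1 := by
    show (psub (.mul (.var 0) (.star (.var 0))) (.const 1) : StarPoly 10).eval v = _
    rw [eval_psub, eval_mul, eval_star, eval_var, eval_const, map_one, v0]
  have pc : ∀ i : Fin 10, (psub (.mul (.mul (.var 0) (.var i)) (.star (.var 0)))
      (.mul (.mul (.var 3) (.var i)) (.star (.var 3))) : StarPoly 10).eval v =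
      w2 * v i * star w2 - w * v i * star w := by
    intro i
    rw [eval_psub]
    simp only [eval_mul, eval_star, eval_var]
    rw [v0, v3]
  have p4 : (polys 4).eval v = w2 * y1 * star w2 - w * y1 * star w := by
    have := pc 6
    rw [v6] at this
    exact this
  have p5 : (polys 5).eval v = w2 * y2 * star w2 - w * y2 * star w := by
    have := pc 5
    rw [v5] at this
    exact this
  have p6 : (polys 6).eval v = w2 * y3 * star w2 - w * y3 * star w := by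
    have := pc 4
    rw [v4] at this
    exact this
  have p7 : (polys 7).eval v = w2 * w - algebraMap ℂ A zet * (w * w2) := by
    show (psub (.mul (.var 0) (.var 3)) (.mul (.const zet) (.mul (.var 3) (.var 0))) :
      StarPoly 10).eval v = _
    rw [eval_psub]
    simp only [eval_mul, eval_const, eval_var]
    rw [v0, v3]
  have pk : ∀ i j : Fin 10, (psub (.mul (.var i) (.var j)) (.mul (.var j) (.var i)) :
      StarPoly 10).eval v = v i * v j - v j * v i := by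
    intro i j
    rw [eval_psub]
    simp only [eval_mul, eval_var]
  have p8 : (polys 8).eval v = w2 * z1 - z1 * w2 := pk 0 2
  have p9 : (polys 9).eval v = w2 * z2 - z2 * w2 := pk 0 1
  have p10 : (polys 10).eval v = F1 * z1 - z1 * F1 := pk 9 2
  have p11 : (polys 11).eval v = F2 * z1 - z1 * F2 := pk 8 2
  have p12 : (polys 12).eval v = F3 * z1 - z1 * F3 := pk 7 2
  have p13 : (polys 13).eval v = F1 * z2 - z2 * F1 := pk 9 1
  have p14 : (polys 14).eval v = F2 * z2 - z2 * F2 := pk 8 1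
  have p15 : (polys 15).eval v = F3 * z2 - z2 * F3 := pk 7 1
  rw [e, p0, p1, p2, p3, p4, p5, p6, p7, p8, p9, p10, p11, p12, p13, p14, p15]
  rfl

section Quant

variable {A : Type} [Ring A] [StarRing A] [Algebra ℂ A] {τ : A → ℂ} {B : Set A}

theorem elim0_mem : ∀ i, (Fin.elim0 : Fin 0 → A) i ∈ B := fun i => i.elim0

/-- Unfolding `σ < ε`. -/
theorem sigma_lt (hB : B.Nonempty) (hp : PolyBdd τ B) {ε : ℝ}
    (h : sigma.val τ B Fin.elim0 < ε) :
    ∃ F1 ∈ B, ∃ F2 ∈ B, ∃ F3 ∈ B, ∀ y1 ∈ B, ∀ y2 ∈ B, ∀ y3 ∈ B, ∃ w ∈ B, ∀ z1 ∈ B, ∀ z2 ∈ B,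
      ∃ w2 ∈ B, VV τ F1 F2 F3 y1 y2 y3 w z1 z2 w2 < ε := by
  obtain ⟨F1, hF1, h1⟩ := inf_lt hB h
  obtain ⟨F2, hF2, h2⟩ := inf_lt hB h1
  obtain ⟨F3, hF3, h3⟩ := inf_lt hB h2
  have m3 := cons_mem (cons_mem (cons_mem (B := B) elim0_mem hF1) hF2) hF3
  refine ⟨F1, hF1, F2, hF2, F3, hF3, fun y1 hy1 y2 hy2 y3 hy3 => ?_⟩
  have h4 := sup_lt hB hp m3 h3 y1 hy1
  have m4 := cons_mem m3 hy1
  have h5 := sup_lt hB hp m4 h4 y2 hy2
  have m5 := cons_mem m4 hy2
  have h6 := sup_lt hB hp m5 h5 y3 hy3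
  have m6 := cons_mem m5 hy3
  obtain ⟨w, hw, h7⟩ := inf_lt hB h6
  have m7 := cons_mem m6 hw
  refine ⟨w, hw, fun z1 hz1 z2 hz2 => ?_⟩
  have h8 := sup_lt hB hp m7 h7 z1 hz1
  have m8 := cons_mem m7 hz1
  have h9 := sup_lt hB hp m8 h8 z2 hz2
  obtain ⟨w2, hw2, h10⟩ := inf_lt hB h9
  refine ⟨w2, hw2, ?_⟩
  rw [← body_val τ B]
  exact h10

/-- Proving `σ ≤ δ`. -/
theorem sigma_le (hB : B.Nonempty) (hp : PolyBdd τ B) {δ : ℝ}
    (h : ∃ F1 ∈ B, ∃ F2 ∈ B, ∃ F3 ∈ B, ∀ y1 ∈ B, ∀ y2 ∈ B, ∀ y3 ∈ B, ∃ w ∈ B,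
      ∀ z1 ∈ B, ∀ z2 ∈ B, ∃ w2 ∈ B, VV τ F1 F2 F3 y1 y2 y3 w z1 z2 w2 ≤ δ) :
    sigma.val τ B Fin.elim0 ≤ δ := by
  obtain ⟨F1, hF1, F2, hF2, F3, hF3, h⟩ := h
  have m1 := cons_mem (B := B) elim0_mem hF1
  have m2 := cons_mem m1 hF2
  have m3 := cons_mem m2 hF3
  refine inf_le hB hp elim0_mem hF1 (inf_le hB hp m1 hF2 (inf_le hB hp m2 hF3 ?_))
  refine sup_le hB fun y1 hy1 => sup_le hB fun y2 hy2 => sup_le hB fun y3 hy3 => ?_
  obtain ⟨w, hw, h'⟩ := h y1 hy1 y2 hy2 y3 hy3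
  have m6 := cons_mem (cons_mem (cons_mem m3 hy1) hy2) hy3
  refine inf_le hB hp m6 hw ?_
  refine sup_le hB fun z1 hz1 => sup_le hB fun z2 hz2 => ?_
  obtain ⟨w2, hw2, h''⟩ := h' z1 hz1 z2 hz2
  have m9 := cons_mem (cons_mem (cons_mem m6 hw) hz1) hz2
  refine inf_le hB hp m9 hw2 ?_
  rw [← body_val τ B] at h''
  exact h''

end Quant

end Pool.Agent.OpEq
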