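import Pool.Agent.ExT.LG

/-!
# Monomial unitaries on `ell2 G`, pinchings
-/

noncomputable section

set_option linter.unusedSectionVars false

namespace Pool.Agent.OpEq

open scoped ENNReal InnerProductSpace ComplexOrder Topology
open Pool.Agent.InnerAm (ell2 delta normSq_ell2 delta_apply norm_delta compEquiv
  compEquiv_apply)
open Pool.Agent.ExT (mulInd mulInd_apply norm_le_of_sq inner_delta_left inner_delta_right
  hasSum_delta ext_delta)

variable {G : Type} [Group G]

theorem memlp_phase (p : G → Circle) (ξ : ell2 G) :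
    Memℓp (fun g => (p g : ℂ) * (ξ : G → ℂ) g) 2 := by
  have h := lp.memℓp ξ
  rw [memℓp_gen_iff (by norm_num)] at h ⊢
  refine h.congr fun g => ?_
  rw [norm_mul, Circle.norm_coe, one_mul]

/-- Multiplication by a function with values in the circle. -/
def phaseOp (p : G → Circle) : ell2 G →ₗᵢ[ℂ] ell2 G where
  toFun ξ := ⟨fun g => (p g : ℂ) * (ξ : G → ℂ) g, memlp_phase p ξ⟩
  map_add' ξ η := by
    ext g
    show (p g : ℂ) * ((ξ : G → ℂ) g + (η : G → ℂ) g) = _
    rw [mul_add]; rfl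
  map_smul' c ξ := by
    ext g
    show (p g : ℂ) * (c * (ξ : G → ℂ) g) = c * ((p g : ℂ) * (ξ : G → ℂ) g)
    ring
  norm_map' ξ := by
    have h2 : (0 : ℝ) < (2 : ℝ≥0∞).toReal := by norm_num
    rw [lp.norm_eq_tsum_rpow h2, lp.norm_eq_tsum_rpow h2]
    congr 1
    refine tsum_congr fun g => ?_
    show ‖(p g : ℂ) * (ξ : G → ℂ) g‖ ^ _ = _
    rw [norm_mul, Circle.norm_coe, one_mul]

/-- Monomial unitaries: `(mono e p ξ) k = p k * ξ (e k)`. -/
def mono (e : G ≃ G) (p : G → Circle) : ell2 G →L[ℂ] ell2 G :=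
  ((phaseOp p).comp (compEquiv e)).toContinuousLinearMap

theorem mono_apply (e : G ≃ G) (p : G → Circle) (ξ : ell2 G) (k : G) :
    (mono e p ξ : G → ℂ) k = (p k : ℂ) * (ξ : G → ℂ) (e k) := rfl

theorem norm_mono (e : G ≃ G) (p : G → Circle) (ξ : ell2 G) : ‖mono e p ξ‖ = ‖ξ‖ :=
  ((phaseOp p).comp (compEquiv e)).norm_map ξ

theorem mono_mul (e e' : G ≃ G) (p p' : G → Circle) :
    mono e p * mono e' p' = mono (e.trans e') (fun k => p k * p' (e k)) := by
  refine ContinuousLinearMap.ext fun ξ => ?_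
  ext k
  show (mono e p (mono e' p' ξ) : G → ℂ) k = _
  rw [mono_apply, mono_apply, mono_apply, Circle.coe_mul, Equiv.trans_apply, mul_assoc]

theorem mono_one : mono (Equiv.refl G) (fun _ => 1) = 1 := by
  refine ContinuousLinearMap.ext fun ξ => ?_
  ext k
  rw [mono_apply, Circle.coe_one, one_mul]
  rfl

theorem mono_congr {e e' : G ≃ G} {p p' : G → Circle} (h : ∀ k, e k = e' k)
    (h' : ∀ k, p k = p' k) : mono e p = mono e' p' := by
  rw [Equiv.ext h, funext h']

theorem mono_mul_inv (e : G ≃ G) (p : G → Circle) :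
    mono e p * mono e.symm (fun k => (p (e.symm k))⁻¹) = 1 := by
  rw [mono_mul, ← mono_one]
  refine mono_congr (fun k => ?_) fun k => ?_
  · simp
  · simp

theorem mono_inv_mul (e : G ≃ G) (p : G → Circle) :
    mono e.symm (fun k => (p (e.symm k))⁻¹) * mono e p = 1 := by
  rw [mono_mul, ← mono_one]
  refine mono_congr (fun k => ?_) fun k => ?_
  · simp
  · simp

theorem star_mono (e : G ≃ G) (p : G → Circle) :
    star (mono e p) = mono e.symm (fun k => (p (e.symm k))⁻¹) := by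
  rw [ContinuousLinearMap.star_eq_adjoint]
  symm
  rw [ContinuousLinearMap.eq_adjoint_iff]
  intro ξ η
  have h : ∀ ξ η : ell2 G, ⟪mono e p ξ, mono e p η⟫_ℂ = ⟪ξ, η⟫_ℂ := fun ξ η =>
    ((phaseOp p).comp (compEquiv e)).inner_map_map ξ η
  rw [← h]
  congr 1
  exact DFunLike.congr_fun (mono_mul_inv e p) ξ

theorem mono_star_mul (e : G ≃ G) (p : G → Circle) : star (mono e p) * mono e p = 1 := by
  rw [star_mono, mono_inv_mul]

theorem mono_mul_star (e : G ≃ G) (p : G → Circle) : mono e p * star (mono e p) = 1 := by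
  rw [star_mono, mono_mul_inv]

theorem mono_delta (e : G ≃ G) (p : G → Circle) (h : G) :
    mono e p (delta h) = (p (e.symm h) : ℂ) • delta (e.symm h) := by
  ext k
  rw [mono_apply, delta_apply]
  show _ = (p (e.symm h) : ℂ) * (delta (e.symm h) : G → ℂ) k
  rw [delta_apply]
  by_cases hk : e k = h
  · have : k = e.symm h := by rw [← hk]; simp
    rw [if_pos hk, if_pos this, this]
  · have : ¬ k = e.symm h := by rintro rfl; exact hk (by simp)
    rw [if_neg hk, if_neg this, mul_zero, mul_zero]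

theorem norm_mono_le (e : G ≃ G) (p : G → Circle) : ‖mono e p‖ ≤ 1 := by
  refine ContinuousLinearMap.opNorm_le_bound _ zero_le_one fun ξ => ?_
  rw [norm_mono, one_mul]

/-! ### Indicator functions -/

theorem norm_mulInd_le (s : Set G) (ξ : ell2 G) : ‖mulInd s ξ‖ ≤ ‖ξ‖ := by
  classical
  refine norm_le_of_sq fun g => ?_
  rw [mulInd_apply]
  split_ifs
  · rfl
  · rw [norm_zero]; positivity

theorem mulInd_mulInd (s t : Set G) (ξ : ell2 G) :
    mulInd s (mulInd t ξ) = mulInd (s ∩ t) ξ := by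
  classical
  ext g
  rw [mulInd_apply, mulInd_apply, mulInd_apply]
  by_cases h1 : g ∈ s <;> by_cases h2 : g ∈ t <;> simp [h1, h2]

theorem mulInd_eq_self {s : Set G} {ξ : ell2 G} (h : ∀ g, g ∉ s → (ξ : G → ℂ) g = 0) :
    mulInd s ξ = ξ := by
  classical
  ext g
  rw [mulInd_apply]
  by_cases h1 : g ∈ s
  · rw [if_pos h1]
  · rw [if_neg h1, h g h1]

theorem mulInd_eq_zero {s : Set G} {ξ : ell2 G} (h : ∀ g, g ∈ s → (ξ : G → ℂ) g = 0) :
    mulInd s ξ = 0 := by
  classical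
  ext g
  rw [mulInd_apply]
  by_cases h1 : g ∈ s
  · rw [if_pos h1, h g h1]; rfl
  · rw [if_neg h1]; rfl

theorem mulInd_add_compl (s : Set G) (ξ : ell2 G) : mulInd s ξ + mulInd sᶜ ξ = ξ := by
  classical
  ext g
  rw [lp.coeFn_add, Pi.add_apply, mulInd_apply, mulInd_apply]
  by_cases h1 : g ∈ s
  · have : g ∉ sᶜ := fun h => h h1
    rw [if_pos h1, if_neg this, add_zero]
  · have : g ∈ sᶜ := h1
    rw [if_neg h1, if_pos this, zero_add]

theorem sub_mulInd (s : Set G) (ξ : ell2 G) : ξ - mulInd s ξ = mulInd sᶜ ξ := by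
  rw [sub_eq_iff_eq_add, add_comm, mulInd_add_compl]

theorem norm_mulInd_mono {s t : Set G} (h : s ⊆ t) (ξ : ell2 G) :
    ‖mulInd s ξ‖ ≤ ‖mulInd t ξ‖ := by
  have : mulInd s ξ = mulInd s (mulInd t ξ) := by
    rw [mulInd_mulInd, Set.inter_eq_left.2 h]
  rw [this]
  exact norm_mulInd_le _ _

/-- Finite sets carry almost all of a vector. -/
theorem exists_finset_mulInd (ξ : ell2 G) {ε : ℝ} (hε : 0 < ε) :
    ∃ s : Finset G, ‖mulInd ((s : Set G)ᶜ) ξ‖ < ε := by
  classical
  have h := hasSum_delta ξ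
  rw [HasSum, SummationFilter.unconditional_filter, Metric.tendsto_atTop] at h
  obtain ⟨s, hs⟩ := h ε hε
  refine ⟨s, ?_⟩
  have h1 := hs s le_rfl
  rw [dist_comm, dist_eq_norm] at h1
  have h2 : ξ - ∑ g ∈ s, (ξ : G → ℂ) g • (delta g : ell2 G) = mulInd ((s : Set G)ᶜ) ξ := by
    ext k
    rw [mulInd_apply, lp.coeFn_sub, Pi.sub_apply, lp.coeFn_sum, Finset.sum_apply]
    have : ∀ g ∈ s, (((ξ : G → ℂ) g • (delta g : ell2 G) : ell2 G) : G → ℂ) k =
        if k = g then (ξ : G → ℂ) g else 0 := by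
      intro g _
      show (ξ : G → ℂ) g * (delta g : G → ℂ) k = _
      rw [delta_apply]
      split_ifs <;> simp
    rw [Finset.sum_congr rfl this]
    by_cases hk : k ∈ s
    · rw [if_neg (show ¬ k ∈ ((s : Set G)ᶜ) from fun h => h (Finset.mem_coe.2 hk)),
        Finset.sum_ite_eq s k, if_pos hk, sub_self]
    · rw [if_pos (show k ∈ ((s : Set G)ᶜ) from fun h => hk (Finset.mem_coe.1 h)),
        Finset.sum_ite_eq s k, if_neg hk, sub_zero]
  rw [h2] at h1
  exact h1

/-! ### Generalised pinchings -/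

section Pinch

variable {Q : Type} (q q' : G → Q) (x : ell2 G →L[ℂ] ell2 G)

theorem sum_mulInd_le (η : ell2 G) (s : Finset Q) :
    ∑ c ∈ s, ‖mulInd {h | q h = c} η‖ ^ 2 ≤ ‖η‖ ^ 2 := by
  classical
  have e : ∀ c ∈ s, ‖mulInd {h | q h = c} η‖ ^ 2 =
      ∑' g, if q g = c then ‖(η : G → ℂ) g‖ ^ 2 else 0 := by
    intro c _
    rw [← (normSq_ell2 _).2]
    refine tsum_congr fun g => ?_
    rw [mulInd_apply]
    by_cases h : q g = c
    · rw [if_pos h, if_pos (show g ∈ {h | q h = c} from h)]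
    · rw [if_neg h, if_neg (show ¬ g ∈ {h | q h = c} from h)]; simp
  have hs : ∀ c ∈ s, Summable fun g => if q g = c then ‖(η : G → ℂ) g‖ ^ 2 else 0 := by
    intro c _
    refine Summable.of_nonneg_of_le (fun g => ?_) (fun g => ?_) (normSq_ell2 η).1
    · split_ifs <;> positivity
    · split_ifs
      · rfl
      · positivity
  rw [Finset.sum_congr rfl e, ← Summable.tsum_finsetSum hs, ← (normSq_ell2 η).2]
  refine (summable_sum hs).tsum_le_tsum (fun g => ?_) (normSq_ell2 η).1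
  rw [Finset.sum_ite_eq s (q g)]
  split_ifs
  · rfl
  · positivity

theorem pinch_bound (η : ell2 G) (s : Finset G) :
    ∑ k ∈ s, ‖(x (mulInd {h | q h = q' k} η) : G → ℂ) k‖ ^ 2 ≤ (‖x‖ * ‖η‖) ^ 2 := by
  classical
  have e : ∑ k ∈ s, ‖(x (mulInd {h | q h = q' k} η) : G → ℂ) k‖ ^ 2 =
      ∑ c ∈ s.image q', ∑ k ∈ s with q' k = c,
        ‖(x (mulInd {h | q h = c} η) : G → ℂ) k‖ ^ 2 := by
    rw [← Finset.sum_fiberwise_of_maps_to (t := s.image q') (g := q')
      (fun k hk => Finset.mem_image_of_mem _ hk)]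
    refine Finset.sum_congr rfl fun c _ => Finset.sum_congr rfl fun k hk => ?_
    rw [(Finset.mem_filter.1 hk).2]
  rw [e]
  calc ∑ c ∈ s.image q', ∑ k ∈ s with q' k = c,
        ‖(x (mulInd {h | q h = c} η) : G → ℂ) k‖ ^ 2
      ≤ ∑ c ∈ s.image q', ‖x‖ ^ 2 * ‖mulInd {h | q h = c} η‖ ^ 2 := by
        refine Finset.sum_le_sum fun c _ => ?_
        have h1 := normSq_ell2 (x (mulInd {h | q h = c} η))
        have h2 : ∑ k ∈ s with q' k = c, ‖(x (mulInd {h | q h = c} η) : G → ℂ) k‖ ^ 2 ≤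
            ‖x (mulInd {h | q h = c} η)‖ ^ 2 := by
          rw [← h1.2]
          exact h1.1.sum_le_tsum _ fun _ _ => by positivity
        refine h2.trans ?_
        rw [← mul_pow]
        exact pow_le_pow_left₀ (norm_nonneg _) (x.le_opNorm _) 2
    _ = ‖x‖ ^ 2 * ∑ c ∈ s.image q', ‖mulInd {h | q h = c} η‖ ^ 2 := by
        rw [Finset.mul_sum]
    _ ≤ ‖x‖ ^ 2 * ‖η‖ ^ 2 := by
        exact mul_le_mul_of_nonneg_left (sum_mulInd_le q η _) (by positivity)
    _ = _ := by ring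

theorem memlp_of_sum_le {f : G → ℂ} {C : ℝ} (h : ∀ s : Finset G, ∑ k ∈ s, ‖f k‖ ^ 2 ≤ C) :
    Memℓp f 2 := by
  rw [memℓp_gen_iff (by norm_num)]
  have e : (2 : ℝ≥0∞).toReal = ((2 : ℕ) : ℝ) := by norm_num
  rw [e]
  simp only [Real.rpow_natCast]
  exact summable_of_sum_le (fun _ => by positivity) h

theorem norm_le_of_sum_le {ξ : ell2 G} {C : ℝ} (hC : 0 ≤ C)
    (h : ∀ s : Finset G, ∑ k ∈ s, ‖(ξ : G → ℂ) k‖ ^ 2 ≤ C ^ 2) : ‖ξ‖ ≤ C := by
  have h1 := normSq_ell2 ξ
  have h2 : ‖ξ‖ ^ 2 ≤ C ^ 2 := by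
    rw [← h1.2]
    exact h1.1.tsum_le_of_sum_le h
  exact (pow_le_pow_iff_left₀ (norm_nonneg _) hC two_ne_zero).1 h2

/-- The generalised pinching `∑_c 1_{q' = c} x 1_{q = c}`. -/
def pinch : ell2 G →L[ℂ] ell2 G :=
  LinearMap.mkContinuous
    { toFun := fun η => ⟨fun k => (x (mulInd {h | q h = q' k} η) : G → ℂ) k,
        memlp_of_sum_le (pinch_bound q q' x η)⟩
      map_add' := by
        intro η ζ
        ext k
        show (x (mulInd {h | q h = q' k} (η + ζ)) : G → ℂ) k = _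
        rw [map_add, map_add]
        rfl
      map_smul' := by
        intro c η
        ext k
        show (x (mulInd {h | q h = q' k} (c • η)) : G → ℂ) k = _
        rw [map_smul, map_smul]
        rfl } ‖x‖ (by
    intro η
    exact norm_le_of_sum_le (by positivity) (pinch_bound q q' x η))

theorem pinch_apply (η : ell2 G) (k : G) :
    (pinch q q' x η : G → ℂ) k = (x (mulInd {h | q h = q' k} η) : G → ℂ) k := rfl

theorem norm_pinch_le : ‖pinch q q' x‖ ≤ ‖x‖ :=
  LinearMap.mkContinuous_norm_le _ (norm_nonneg _) _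

open Classical in
theorem pinch_delta (h k : G) :
    (pinch q q' x (delta h) : G → ℂ) k = if q h = q' k then (x (delta h) : G → ℂ) k else 0 := by
  rw [pinch_apply]
  by_cases hk : q h = q' k
  · rw [if_pos hk, mulInd_eq_self]
    intro g hg
    rw [delta_apply]
    rw [if_neg]
    rintro rfl
    exact hg hk
  · rw [if_neg hk, mulInd_eq_zero]
    · rw [map_zero]; rfl
    · intro g hg
      rw [delta_apply, if_neg]
      rintro rfl
      exact hk hg

end Pinch

end Pool.Agent.OpEq
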