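import Mathlib

/-!
# Definitions used in the statement

A tracial von Neumann algebra is given by a von Neumann algebra `M` on a Hilbert space `H` and a
vector `Ω` such that `τ(x) = ⟨x Ω, Ω⟩` is a faithful (automatically normal) tracial state on `M`.
-/

noncomputable section

namespace Pool.Agent.OpEq.Pub

open scoped InnerProductSpace

universe u v

/-- `M` is a II₁ factor, and `τ(x) = ⟨x Ω, Ω⟩` is its trace (a faithful normal tracial state):
`M` has trivial centre and is infinite dimensional. -/
structure IsII1Factor {H : Type u} [NormedAddCommGroup H] [InnerProductSpace ℂ H]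
    [CompleteSpace H] (M : VonNeumannAlgebra H) (Ω : H) : Prop where
  norm_Ω : ‖Ω‖ = 1
  trace : ∀ x ∈ M, ∀ y ∈ M, ⟪Ω, (x * y) Ω⟫_ℂ = ⟪Ω, (y * x) Ω⟫_ℂ
  faithful : ∀ x ∈ M, x Ω = 0 → x = 0
  centre : ∀ z ∈ M, (∀ x ∈ M, z * x = x * z) → ∃ c : ℂ, z = c • 1
  infinite : ¬ FiniteDimensional ℂ M.toStarSubalgebra

/-- `*`-polynomials with complex coefficients in the noncommuting variables `0, ..., n - 1`. -/
inductive StarPoly (n : ℕ) : Type
  | var (i : Fin n)
  | const (c : ℂ)
  | add (p q : StarPoly n)
  | mul (p q : StarPoly n)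
  | star (p : StarPoly n)

/-- Formulas of continuous logic for tracial von Neumann algebras, with free variables
`0, ..., n - 1`: real and imaginary parts of the trace of a `*`-polynomial, continuous
connectives `f : ℝᵏ → ℝ`, and the quantifiers `sup` and `inf`, which bind the variable `0` (and
renumber the others). -/
inductive Formula : ℕ → Type
  | re {n : ℕ} (p : StarPoly n) : Formula n
  | im {n : ℕ} (p : StarPoly n) : Formula n
  | conn {n : ℕ} (k : ℕ) (f : C(Fin k → ℝ, ℝ)) (φ : Fin k → Formula n) : Formula n
  | sup {n : ℕ} (φ : Formula (n + 1)) : Formula n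
  | inf {n : ℕ} (φ : Formula (n + 1)) : Formula n

/-- The value of a `*`-polynomial in the `*`-algebra `A`, for the assignment `v`. -/
def StarPoly.eval {A : Type u} [Ring A] [StarRing A] [Algebra ℂ A] {n : ℕ} (v : Fin n → A)
    (p : StarPoly n) : A :=
  StarPoly.rec (motive := fun _ => A) (fun i => v i) (fun c => algebraMap ℂ A c)
    (fun _ _ a b => a + b) (fun _ _ a b => a * b) (fun _ a => Star.star a) p

/-- The value of a formula in the `*`-algebra `A` with trace `τ` and unit ball `B`: the
quantifiers are the supremum and the infimum over `B`.  (For a tracial von Neumann algebra and its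
opposite, with `B` the operator norm unit ball, the values of a formula are bounded on assignments
in `B`, so these are suprema and infima of bounded families.) -/
def Formula.val {A : Type u} [Ring A] [StarRing A] [Algebra ℂ A] (τ : A → ℂ) (B : Set A) {n : ℕ}
    (φ : Formula n) : (Fin n → A) → ℝ :=
  Formula.rec (motive := fun n _ => (Fin n → A) → ℝ)
    (fun p v => (τ (p.eval v)).re)
    (fun p v => (τ (p.eval v)).im)
    (fun _ f _ r v => f (fun i => r i v))
    (fun _ r v => ⨆ x : B, r (Fin.cons x.1 v))
    (fun _ r v => ⨅ x : B, r (Fin.cons x.1 v)) φ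

/-- Elementary equivalence: every sentence (formula without free variables) has the same value in
`A` (with trace `τ` and unit ball `B`) and in `A'` (with trace `τ'` and unit ball `B'`). -/
structure ElemEquiv {A : Type u} [Ring A] [StarRing A] [Algebra ℂ A] {A' : Type v} [Ring A']
    [StarRing A'] [Algebra ℂ A'] (τ : A → ℂ) (B : Set A) (τ' : A' → ℂ) (B' : Set A') :
    Prop where
  out : ∀ φ : Formula 0, φ.val τ B Fin.elim0 = φ.val τ' B' Fin.elim0

/-- `M ≡ M^op`: the von Neumann algebra `M`, with trace `τ(x) = ⟨x Ω, Ω⟩` and operator norm unit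
ball, is elementarily equivalent to its opposite `M^op`, which has the same elements, linear
structure, involution, trace and norm, and the reversed product. -/
structure EquivOpposite {H : Type u} [NormedAddCommGroup H] [InnerProductSpace ℂ H]
    [CompleteSpace H] (M : VonNeumannAlgebra H) (Ω : H) : Prop where
  out : ElemEquiv (A := M.toStarSubalgebra) (A' := (M.toStarSubalgebra)ᵐᵒᵖ)
    (fun x => ⟪Ω, (x : H →L[ℂ] H) Ω⟫_ℂ) {x | ‖(x : H →L[ℂ] H)‖ ≤ 1}
    (fun x => ⟪Ω, (x.unop : H →L[ℂ] H) Ω⟫_ℂ) {x | ‖(x.unop : H →L[ℂ] H)‖ ≤ 1}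

end Pool.Agent.OpEq.Pub
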