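import Pool.Agent.OpEq.Claim1

/-!
# Separability
-/

noncomputable section

namespace Pool.Agent.OpEq

open scoped ENNReal InnerProductSpace ComplexOrder Topology
open Pool.Agent.InnerAm (ell2 delta)
open Pool.Agent.ExT (hasSum_delta)

theorem countable_GG : Countable GG := by
  have h1 : (Set.univ : Set GG) ⊆ ⋃ k : ℕ, ((GI (Set.Iio k) : Subgroup GG) : Set GG) := by
    intro g _
    obtain ⟨k, hk⟩ := exists_bound g
    exact Set.mem_iUnion.2 ⟨k, hk k le_rfl⟩
  have h2 : ∀ k : ℕ, ((GI (Set.Iio k) : Subgroup GG) : Set GG).Countable := by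
    intro k
    have hc : Countable (Fin k → F3) := inferInstance
    let f : ((GI (Set.Iio k) : Subgroup GG) : Set GG) → (Fin k → F3) := fun g i => g.1.1 i
    have hf : Function.Injective f := by
      intro g h hgh
      refine Subtype.ext (Subtype.ext (funext fun i => ?_))
      by_cases hi : i < k
      · exact congrFun hgh ⟨i, hi⟩
      · have e1 : g.1.1 i = 1 := g.2 i hi
        have e2 : h.1.1 i = 1 := h.2 i hi
        rw [e1, e2]
    exact hf.countable
  exact Set.countable_univ_iff.1 ((Set.countable_iUnion h2).mono h1)

theorem separable_ell2 : TopologicalSpace.SeparableSpace (ell2 GG) := by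
  have hc := countable_GG
  have h1 : (Set.range fun g : GG => (delta g : ell2 GG)).Countable := Set.countable_range _
  have h2 : TopologicalSpace.IsSeparable
      ((Submodule.span ℂ (Set.range fun g : GG => (delta g : ell2 GG)) : Submodule ℂ (ell2 GG)) :
        Set (ell2 GG)) := h1.isSeparable.span
  have h3 := h2.closure
  rw [← TopologicalSpace.isSeparable_univ_iff]
  refine h3.mono fun ξ _ => ?_
  have h4 := hasSum_delta ξ
  refine mem_closure_of_tendsto h4 (Filter.Eventually.of_forall fun s => ?_)
  exact Submodule.sum_mem _ fun g _ => Submodule.smul_mem _ _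
    (Submodule.subset_span ⟨g, rfl⟩)

end Pool.Agent.OpEq
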