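import Pool.Agent.OpEq.TG

/-!
# Slices (Fourier truncations that are bounded), commutators and the gap lemma
-/

noncomputable section

set_option linter.unusedSectionVars false

namespace Pool.Agent.OpEq

open scoped ENNReal InnerProductSpace ComplexOrder Topology
open Pool.Agent.InnerAm (ell2 delta normSq_ell2 delta_apply norm_delta compEquiv
  compEquiv_apply)
open Pool.Agent.ExT (mulInd mulInd_apply norm_le_of_sq inner_delta_left inner_delta_right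
  hasSum_delta ext_delta commVN mem_commVN TracialVNA)

variable {G : Type} [Group G] {φ : G →* G →* Circle}

/-- `S` is a set for which truncation of Fourier coefficients to `S` is contractive. -/
def IsSlice (S : Set G) : Prop :=
  ∃ (Q : Type) (q q' : G → Q), ∀ g h, q h = q' (g * h) ↔ g ∈ S

theorem isSlice_subgroup (S : Subgroup G) : IsSlice (S : Set G) := by
  refine ⟨Quotient (QuotientGroup.rightRel S), Quotient.mk _, Quotient.mk _, fun g h => ?_⟩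
  rw [Quotient.eq, QuotientGroup.rightRel_apply, mul_inv_cancel_right]
  rfl

theorem isSlice_level {Z : Type} [AddGroup Z] (D : G → Z) (hD : ∀ g h, D (g * h) = D g + D h)
    (j : Z) : IsSlice {g | D g = j} := by
  refine ⟨Z, D, fun k => -j + D k, fun g h => ?_⟩
  show D h = -j + D (g * h) ↔ D g = j
  rw [hD, ← add_assoc]
  constructor
  · intro h1
    have h2 : (0 : Z) + D h = -j + D g + D h := by rw [zero_add]; exact h1
    have := add_right_cancel h2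
    show D g = j
    rw [eq_comm, neg_add_eq_zero] at this
    exact this.symm
  · intro h1
    have h1 : D g = j := h1
    rw [h1, neg_add_cancel, zero_add]

theorem IsSlice.inter {S T : Set G} (hS : IsSlice S) (hT : IsSlice T) : IsSlice (S ∩ T) := by
  obtain ⟨Q, q, q', h⟩ := hS
  obtain ⟨P, p, p', h'⟩ := hT
  refine ⟨Q × P, fun g => (q g, p g), fun g => (q' g, p' g), fun g k => ?_⟩
  rw [Prod.ext_iff]
  exact and_congr (h g k) (h' g k)

open Classical in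
/-- Truncation of Fourier coefficients to the slice `S`. -/
def cut (S : Set G) (x : ell2 G →L[ℂ] ell2 G) : ell2 G →L[ℂ] ell2 G :=
  if h : IsSlice S then pinch h.choose_spec.choose h.choose_spec.choose_spec.choose x else 0

theorem norm_cut_le (S : Set G) (x : ell2 G →L[ℂ] ell2 G) : ‖cut S x‖ ≤ ‖x‖ := by
  unfold cut
  split_ifs with h
  · exact norm_pinch_le _ _ _
  · rw [norm_zero]; positivity

open Classical in
theorem cut_delta {S : Set G} (hS : IsSlice S) (x : ell2 G →L[ℂ] ell2 G) (h k : G) :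
    (cut S x (delta h) : G → ℂ) k = if k * h⁻¹ ∈ S then (x (delta h) : G → ℂ) k else 0 := by
  unfold cut
  rw [dif_pos hS, pinch_delta]
  have := hS.choose_spec.choose_spec.choose_spec (k * h⁻¹) h
  rw [inv_mul_cancel_right] at this
  by_cases hk : k * h⁻¹ ∈ S
  · rw [if_pos hk, if_pos (this.2 hk)]
  · rw [if_neg hk, if_neg fun h' => hk (this.1 h')]

theorem cut_delta_one {S : Set G} (hS : IsSlice S) (x : ell2 G →L[ℂ] ell2 G) :
    cut S x (delta 1) = mulInd S (x (delta 1)) := by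
  classical
  ext k
  rw [cut_delta hS, mulInd_apply, inv_one, mul_one]

theorem cut_mem {S : Set G} (hS : IsSlice S) {x : ell2 G →L[ℂ] ell2 G} (hx : x ∈ TGvn φ) :
    cut S x ∈ TGvn φ := by
  classical
  refine mem_TG_of_coeff fun h k => ?_
  rw [cut_delta hS, cut_delta_one hS, mulInd_apply]
  by_cases hk : k * h⁻¹ ∈ S
  · rw [if_pos hk, if_pos hk, apply_delta hx]
  · rw [if_neg hk, if_neg hk, mul_zero]

theorem cut_supp {S A : Set G} (hS : IsSlice S) {x : ell2 G →L[ℂ] ell2 G} (hx : SuppIn φ A x) :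
    SuppIn φ (S ∩ A) (cut S x) := by
  classical
  refine ⟨cut_mem hS hx.mem, fun g hg => ?_⟩
  rw [cut_delta_one hS, mulInd_apply]
  by_cases h : g ∈ S
  · rw [if_pos h]
    exact hx.supp g fun h' => hg ⟨h, h'⟩
  · rw [if_neg h]

theorem cut_supp' {S : Set G} (hS : IsSlice S) {x : ell2 G →L[ℂ] ell2 G} (hx : x ∈ TGvn φ) :
    SuppIn φ S (cut S x) := (cut_supp hS (suppIn_univ hx)).mono Set.inter_subset_left

theorem sub_cut_delta {S : Set G} (hS : IsSlice S) (x : ell2 G →L[ℂ] ell2 G) :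
    (x - cut S x) (delta 1) = mulInd Sᶜ (x (delta 1)) := by
  rw [sub_apply, cut_delta_one hS, sub_mulInd]

/-! ### Conjugation and commutators -/

theorem mulInd_mono (e : G ≃ G) (p : G → Circle) (T : Set G) (ξ : ell2 G) :
    mulInd T (mono e p ξ) = mono e p (mulInd {g | e.symm g ∈ T} ξ) := by
  classical
  ext k
  rw [mulInd_apply, mono_apply, mono_apply, mulInd_apply]
  by_cases hk : k ∈ T
  · rw [if_pos hk, if_pos (show e k ∈ {g | e.symm g ∈ T} from by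
      show e.symm (e k) ∈ T
      rwa [e.symm_apply_apply])]
  · rw [if_neg hk, if_neg (show ¬ e k ∈ {g | e.symm g ∈ T} from by
      show ¬ e.symm (e k) ∈ T
      rwa [e.symm_apply_apply]), mul_zero]

variable (φ)

/-- The commutator vector: `(u_B x - x u_B) δ = K_B (x δ)`. -/
def Kop (B : G) (ξ : ell2 G) : ell2 G := Lop φ B ξ - Rop φ B ξ

variable {φ}

theorem comm_delta {x : ell2 G →L[ℂ] ell2 G} (hx : x ∈ TGvn φ) (B : G) :
    (Lop φ B * x - x * Lop φ B) (delta 1) = Kop φ B (x (delta 1)) := by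
  rw [sub_apply]
  show Lop φ B (x (delta 1)) - x (Lop φ B (delta 1)) = _
  rw [Lop_delta_one, apply_delta' hx B]
  rfl

theorem Kop_add (B : G) (ξ η : ell2 G) : Kop φ B (ξ + η) = Kop φ B ξ + Kop φ B η := by
  unfold Kop
  rw [map_add, map_add]
  abel

theorem norm_Kop_le (B : G) (ξ : ell2 G) : ‖Kop φ B ξ‖ ≤ 2 * ‖ξ‖ := by
  unfold Kop
  refine (norm_sub_le _ _).trans ?_
  rw [norm_Lop_apply, norm_Rop_apply]
  linarith

theorem norm_mulInd_Rop (B : G) (S : Set G) (ξ : ell2 G) :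
    ‖mulInd {k | k * B⁻¹ ∈ S} (Rop φ B ξ)‖ = ‖mulInd S ξ‖ := by
  unfold Rop
  rw [mulInd_mono, norm_mono]
  congr 2
  congr 1
  ext g
  show (Equiv.mulRight B⁻¹).symm g * B⁻¹ ∈ S ↔ g ∈ S
  have e : (Equiv.mulRight B⁻¹).symm g = g * B := by
    rw [Equiv.symm_apply_eq]; simp
  rw [e, mul_inv_cancel_right]

theorem norm_mulInd_Lop (B : G) (S : Set G) (ξ : ell2 G) :
    ‖mulInd {k | k * B⁻¹ ∈ S} (Lop φ B ξ)‖ = ‖mulInd {g | B * g * B⁻¹ ∈ S} ξ‖ := by
  unfold Lop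
  rw [mulInd_mono, norm_mono]
  congr 2
  congr 1
  ext g
  show (Equiv.mulLeft B⁻¹).symm g * B⁻¹ ∈ S ↔ _
  have e : (Equiv.mulLeft B⁻¹).symm g = B * g := by
    rw [Equiv.symm_apply_eq]; simp
  rw [e]
  rfl

theorem norm_conj_le (B : G) (S : Set G) (ξ : ell2 G) :
    ‖mulInd {g | B * g * B⁻¹ ∈ S} ξ‖ ≤ ‖mulInd S ξ‖ + ‖Kop φ B ξ‖ := by
  rw [← norm_mulInd_Lop (φ := φ), ← norm_mulInd_Rop (φ := φ) B S]
  have e : Lop φ B ξ = Rop φ B ξ + Kop φ B ξ := by unfold Kop; abel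
  rw [e, map_add]
  exact (norm_add_le _ _).trans (add_le_add le_rfl (norm_mulInd_le _ _))

theorem norm_conj_ge (B : G) (S : Set G) (ξ : ell2 G) :
    ‖mulInd S ξ‖ ≤ ‖mulInd {g | B * g * B⁻¹ ∈ S} ξ‖ + ‖Kop φ B ξ‖ := by
  rw [← norm_mulInd_Lop (φ := φ), ← norm_mulInd_Rop (φ := φ) B S]
  have e : Rop φ B ξ = Lop φ B ξ - Kop φ B ξ := by unfold Kop; abel
  rw [e, map_sub]
  exact (norm_sub_le _ _).trans (add_le_add le_rfl (norm_mulInd_le _ _))

/-- If all elements of `T` commute with `B` with trivial phase then `K_B` vanishes on vectors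
supported in `T`. -/
theorem Kop_mulInd {B : G} {T : Set G} (hT : ∀ g ∈ T, B * g = g * B ∧ φ B g = φ g B)
    (ξ : ell2 G) : Kop φ B (mulInd T ξ) = 0 := by
  classical
  unfold Kop
  rw [sub_eq_zero]
  ext k
  rw [Lop_apply, Rop_apply, mulInd_apply, mulInd_apply]
  by_cases h1 : B⁻¹ * k ∈ T
  · obtain ⟨h2, h3⟩ := hT _ h1
    have e : k * B⁻¹ = B⁻¹ * k := by
      rw [mul_inv_eq_iff_eq_mul, ← h2, mul_inv_cancel_left]
    rw [e, if_pos h1, h3]
  · by_cases h4 : k * B⁻¹ ∈ T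
    · exfalso
      obtain ⟨h2, -⟩ := hT _ h4
      apply h1
      rw [inv_mul_cancel_right] at h2
      have e : B⁻¹ * k = k * B⁻¹ := by
        rw [inv_mul_eq_iff_eq_mul]; exact h2.symm
      rwa [e]
    · rw [if_neg h1, if_neg h4, mul_zero, mul_zero]

theorem norm_Kop_le_compl {B : G} {T : Set G} (hT : ∀ g ∈ T, B * g = g * B ∧ φ B g = φ g B)
    (ξ : ell2 G) : ‖Kop φ B ξ‖ ≤ 2 * ‖mulInd Tᶜ ξ‖ := by
  have e : Kop φ B ξ = Kop φ B (mulInd Tᶜ ξ) := by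
    conv_lhs => rw [← mulInd_add_compl T ξ]
    rw [Kop_add, Kop_mulInd hT, zero_add]
  rw [e]
  exact norm_Kop_le _ _

/-- If `B` commutes with the elements of `T` up to phases bounded away from `1` then `K_B` is
bounded below on `ℓ²(T)`. -/
theorem phase_gap {B : G} {T : Set G} {c : ℝ} (hc : 0 ≤ c)
    (hT : ∀ g ∈ T, B * g = g * B ∧ c ≤ ‖(φ B g : ℂ) - (φ g B : ℂ)‖) (ξ : ell2 G) :
    c * ‖mulInd T ξ‖ ≤ ‖Kop φ B ξ‖ := by
  classical
  have h1 : ‖(c : ℂ) • mono (Equiv.mulLeft B⁻¹) (fun _ => 1) (mulInd T ξ)‖ ≤ ‖Kop φ B ξ‖ := by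
    refine norm_le_of_sq fun k => ?_
    have e1 : (((c : ℂ) • mono (Equiv.mulLeft B⁻¹) (fun _ => 1) (mulInd T ξ) : ell2 G) :
        G → ℂ) k = (c : ℂ) * (mulInd T ξ : G → ℂ) (B⁻¹ * k) := by
      show (c : ℂ) * (mono (Equiv.mulLeft B⁻¹) (fun _ => 1) (mulInd T ξ) : G → ℂ) k = _
      rw [mono_apply, Circle.coe_one, one_mul]
      rfl
    rw [e1, mulInd_apply]
    by_cases h1 : B⁻¹ * k ∈ T
    · obtain ⟨h2, h3⟩ := hT _ h1
      have e : k * B⁻¹ = B⁻¹ * k := by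
        rw [mul_inv_eq_iff_eq_mul, ← h2, mul_inv_cancel_left]
      have e2 : (Kop φ B ξ : G → ℂ) k =
          ((φ B (B⁻¹ * k) : ℂ) - (φ (B⁻¹ * k) B : ℂ)) * (ξ : G → ℂ) (B⁻¹ * k) := by
        unfold Kop
        rw [lp.coeFn_sub, Pi.sub_apply, Lop_apply, Rop_apply, e, sub_mul]
      rw [if_pos h1, e2, norm_mul, norm_mul]
      refine mul_le_mul_of_nonneg_right ?_ (norm_nonneg _)
      rw [Complex.norm_real, Real.norm_eq_abs, abs_of_nonneg hc]
      exact h3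
    · rw [if_neg h1, mul_zero, norm_zero]
      positivity
  rwa [norm_smul, norm_mono, Complex.norm_real, Real.norm_eq_abs, abs_of_nonneg hc] at h1

/-! ### Additivity of the mass, and the gap lemma -/

theorem sq_mulInd (S : Set G) (ξ : ell2 G) :
    HasSum (fun g => S.indicator (fun g => ‖(ξ : G → ℂ) g‖ ^ 2) g) (‖mulInd S ξ‖ ^ 2) := by
  classical
  have h := normSq_ell2 (mulInd S ξ)
  have h2 := h.1.hasSum
  rw [h.2] at h2
  convert h2 using 1
  funext g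
  rw [mulInd_apply, Set.indicator_apply]
  split_ifs <;> simp

theorem sq_mulInd_le_add {S T X : Set G} (h : X ⊆ S ∪ T) (ξ : ell2 G) :
    ‖mulInd X ξ‖ ^ 2 ≤ ‖mulInd S ξ‖ ^ 2 + ‖mulInd T ξ‖ ^ 2 := by
  classical
  refine hasSum_le (fun g => ?_) (sq_mulInd X ξ) ((sq_mulInd S ξ).add (sq_mulInd T ξ))
  simp only [Set.indicator_apply]
  by_cases hX : g ∈ X
  · rw [if_pos hX]
    rcases h hX with h1 | h1
    · rw [if_pos h1]
      split_ifs
      · nlinarith [sq_nonneg ‖(ξ : G → ℂ) g‖]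
      · linarith
    · rw [if_pos h1]
      split_ifs
      · nlinarith [sq_nonneg ‖(ξ : G → ℂ) g‖]
      · linarith
  · rw [if_neg hX]
    have : 0 ≤ ‖(ξ : G → ℂ) g‖ ^ 2 := by positivity
    split_ifs <;> linarith

theorem sq_mulInd_three {S T U X : Set G} (h1 : S ⊆ X) (h2 : T ⊆ X) (h3 : U ⊆ X)
    (h4 : Disjoint S T) (h5 : Disjoint S U) (h6 : Disjoint T U) (ξ : ell2 G) :
    ‖mulInd S ξ‖ ^ 2 + ‖mulInd T ξ‖ ^ 2 + ‖mulInd U ξ‖ ^ 2 ≤ ‖mulInd X ξ‖ ^ 2 := by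
  classical
  refine hasSum_le (fun g => ?_) (((sq_mulInd S ξ).add (sq_mulInd T ξ)).add (sq_mulInd U ξ))
    (sq_mulInd X ξ)
  simp only [Set.indicator_apply]
  have h0 : 0 ≤ ‖(ξ : G → ℂ) g‖ ^ 2 := by positivity
  by_cases hS : g ∈ S
  · rw [if_pos hS, if_neg (Set.disjoint_left.1 h4 hS), if_neg (Set.disjoint_left.1 h5 hS),
      if_pos (h1 hS)]
    linarith
  · rw [if_neg hS]
    by_cases hT : g ∈ T
    · rw [if_pos hT, if_neg (Set.disjoint_left.1 h6 hT), if_pos (h2 hT)]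
      linarith
    · rw [if_neg hT]
      by_cases hU : g ∈ U
      · rw [if_pos hU, if_pos (h3 hU)]
        linarith
      · rw [if_neg hU]
        split_ifs <;> linarith

/-- The `14 ε` lemma of Murray and von Neumann. -/
theorem gap_lemma {B C : G} {S X : Set G} (hX : ∀ g ∈ X, g ∈ S ∨ B * g * B⁻¹ ∈ S)
    (h1 : ∀ g, g ∈ S → g ∈ X) (h2 : ∀ g, C * g * C⁻¹ ∈ S → g ∈ X)
    (h3 : ∀ g, C⁻¹ * g * C ∈ S → g ∈ X)
    (h4 : ∀ g, g ∈ S → C * g * C⁻¹ ∉ S) (h5 : ∀ g, g ∈ S → C⁻¹ * g * C ∉ S)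
    (h6 : ∀ g, C * g * C⁻¹ ∈ S → C⁻¹ * g * C ∉ S) (ξ : ell2 G) {ε : ℝ}
    (hB : ‖Kop φ B ξ‖ ≤ ε) (hC : ‖Kop φ C ξ‖ ≤ ε) : ‖mulInd X ξ‖ ≤ 10 * ε := by
  have a1 := sq_mulInd_le_add (S := S) (T := {g | B * g * B⁻¹ ∈ S}) (X := X)
    (fun g hg => hX g hg) ξ
  have a2 := sq_mulInd_three (S := S) (T := {g | C * g * C⁻¹ ∈ S}) (U := {g | C⁻¹ * g * C ∈ S})
    (X := X) h1 h2 h3 (Set.disjoint_left.2 h4) (Set.disjoint_left.2 h5)
    (Set.disjoint_left.2 h6) ξ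
  have a3 := norm_conj_le (φ := φ) B S ξ
  have a4 := norm_conj_ge (φ := φ) C S ξ
  have a5 := norm_conj_le (φ := φ) C {g | C⁻¹ * g * C ∈ S} ξ
  have e : {g | C * g * C⁻¹ ∈ {g | C⁻¹ * g * C ∈ S}} = S := by
    ext g
    show C⁻¹ * (C * g * C⁻¹) * C ∈ S ↔ g ∈ S
    have : C⁻¹ * (C * g * C⁻¹) * C = g := by group
    rw [this]
  rw [e] at a5
  set s := ‖mulInd S ξ‖
  set t1 := ‖mulInd {g | C * g * C⁻¹ ∈ S} ξ‖
  set t2 := ‖mulInd {g | C⁻¹ * g * C ∈ S} ξ‖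
  set b := ‖mulInd {g | B * g * B⁻¹ ∈ S} ξ‖
  set X' := ‖mulInd X ξ‖
  have hs : 0 ≤ s := norm_nonneg _
  have ht1 : 0 ≤ t1 := norm_nonneg _
  have ht2 : 0 ≤ t2 := norm_nonneg _
  have hb : 0 ≤ b := norm_nonneg _
  have hX' : 0 ≤ X' := norm_nonneg _
  have hε : 0 ≤ ε := (norm_nonneg _).trans hB
  have b1 : b ≤ s + ε := by linarith
  have b2 : s - ε ≤ t1 := by linarith
  have b3 : s - ε ≤ t2 := by linarith
  have hs6 : s ≤ 6 * ε := by
    by_contra hcon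
    push Not at hcon
    have c1 : (s - ε) ^ 2 ≤ t1 ^ 2 := pow_le_pow_left₀ (by linarith) b2 2
    have c2 : (s - ε) ^ 2 ≤ t2 ^ 2 := pow_le_pow_left₀ (by linarith) b3 2
    have c3 : b ^ 2 ≤ (s + ε) ^ 2 := pow_le_pow_left₀ hb b1 2
    nlinarith
  have c3 : b ^ 2 ≤ (s + ε) ^ 2 := pow_le_pow_left₀ hb b1 2
  have c4 : X' ^ 2 ≤ (10 * ε) ^ 2 := by nlinarith
  exact (pow_le_pow_iff_left₀ hX' (by positivity) two_ne_zero).1 c4

end Pool.Agent.OpEq
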