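import Pool.Agent.OpEq.Mono

/-!
# Twisted group von Neumann algebras
-/

noncomputable section

set_option linter.unusedSectionVars false

namespace Pool.Agent.OpEq

open scoped ENNReal InnerProductSpace ComplexOrder Topology
open Pool.Agent.InnerAm (ell2 delta normSq_ell2 delta_apply norm_delta compEquiv
  compEquiv_apply)
open Pool.Agent.ExT (mulInd mulInd_apply norm_le_of_sq inner_delta_left inner_delta_right
  hasSum_delta ext_delta commVN mem_commVN TracialVNA)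
open Pool.Agent.ExT.TracialVNA (norm_star_Ω norm_mul_Ω)

variable {G : Type} [Group G] (φ : G →* G →* Circle)

/-- `u_g`: `Lop φ g δ_h = φ(g, h) δ_{gh}`. -/
def Lop (g : G) : ell2 G →L[ℂ] ell2 G := mono (Equiv.mulLeft g⁻¹) (fun k => φ g (g⁻¹ * k))

/-- `Rop φ g δ_h = φ(h, g) δ_{hg}`. -/
def Rop (g : G) : ell2 G →L[ℂ] ell2 G := mono (Equiv.mulRight g⁻¹) (fun k => φ (k * g⁻¹) g)

theorem Lop_apply (g : G) (ξ : ell2 G) (k : G) :
    (Lop φ g ξ : G → ℂ) k = (φ g (g⁻¹ * k) : ℂ) * (ξ : G → ℂ) (g⁻¹ * k) := rfl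

theorem Rop_apply (g : G) (ξ : ell2 G) (k : G) :
    (Rop φ g ξ : G → ℂ) k = (φ (k * g⁻¹) g : ℂ) * (ξ : G → ℂ) (k * g⁻¹) := rfl

theorem Lop_delta (g h : G) : Lop φ g (delta h) = (φ g h : ℂ) • delta (g * h) := by
  unfold Lop
  rw [mono_delta]
  have e : (Equiv.mulLeft g⁻¹).symm h = g * h := by
    rw [Equiv.symm_apply_eq]; simp
  rw [e, inv_mul_cancel_left]

theorem Rop_delta (g h : G) : Rop φ g (delta h) = (φ h g : ℂ) • delta (h * g) := by
  unfold Rop
  rw [mono_delta]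
  have e : (Equiv.mulRight g⁻¹).symm h = h * g := by
    rw [Equiv.symm_apply_eq]; simp
  rw [e, mul_inv_cancel_right]

theorem Lop_delta_one (g : G) : Lop φ g (delta 1) = delta g := by
  rw [Lop_delta, map_one, Circle.coe_one, one_smul, mul_one]

theorem Rop_delta_one (g : G) : Rop φ g (delta 1) = delta g := by
  rw [Rop_delta, map_one, MonoidHom.one_apply, Circle.coe_one, one_smul, one_mul]

theorem Rop_mul (g h : G) : Rop φ g * Rop φ h = (φ h g : ℂ) • Rop φ (h * g) := by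
  refine ext_delta fun k => ?_
  rw [smul_apply, Rop_delta]
  show Rop φ g (Rop φ h (delta k)) = _
  rw [Rop_delta, map_smul, Rop_delta, smul_smul, smul_smul, mul_assoc k h g]
  congr 1
  rw [map_mul, MonoidHom.mul_apply, map_mul, Circle.coe_mul, Circle.coe_mul]
  ring

theorem Lop_mul (g h : G) : Lop φ g * Lop φ h = (φ g h : ℂ) • Lop φ (g * h) := by
  refine ext_delta fun k => ?_
  rw [smul_apply, Lop_delta]
  show Lop φ g (Lop φ h (delta k)) = _
  rw [Lop_delta, map_smul, Lop_delta, smul_smul, smul_smul, mul_assoc g h k]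
  congr 1
  rw [map_mul, map_mul, MonoidHom.mul_apply, Circle.coe_mul, Circle.coe_mul]
  ring

theorem Lop_Rop (g h : G) : Lop φ g * Rop φ h = Rop φ h * Lop φ g := by
  refine ext_delta fun k => ?_
  show Lop φ g (Rop φ h (delta k)) = Rop φ h (Lop φ g (delta k))
  rw [Rop_delta, map_smul, Lop_delta, Lop_delta, map_smul, Rop_delta, smul_smul, smul_smul,
    mul_assoc g k h]
  congr 1
  rw [map_mul, map_mul, MonoidHom.mul_apply, Circle.coe_mul, Circle.coe_mul]
  ring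

theorem Rop_star_mul (g : G) : star (Rop φ g) * Rop φ g = 1 := mono_star_mul _ _
theorem Rop_mul_star (g : G) : Rop φ g * star (Rop φ g) = 1 := mono_mul_star _ _
theorem Lop_star_mul (g : G) : star (Lop φ g) * Lop φ g = 1 := mono_star_mul _ _
theorem Lop_mul_star (g : G) : Lop φ g * star (Lop φ g) = 1 := mono_mul_star _ _
theorem norm_Lop_le (g : G) : ‖Lop φ g‖ ≤ 1 := norm_mono_le _ _
theorem norm_Lop_apply (g : G) (ξ : ell2 G) : ‖Lop φ g ξ‖ = ‖ξ‖ := norm_mono _ _ _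
theorem norm_Rop_apply (g : G) (ξ : ell2 G) : ‖Rop φ g ξ‖ = ‖ξ‖ := norm_mono _ _ _

theorem Lop_one : Lop φ 1 = 1 := by
  refine ext_delta fun k => ?_
  rw [Lop_delta, map_one, MonoidHom.one_apply, Circle.coe_one, one_smul, one_mul]
  rfl

/-- `M = L_φ(G)`, the commutant of the right multiplications. -/
def TGvn : VonNeumannAlgebra (ell2 G) := commVN (Set.range (Rop φ))

variable {φ}

theorem mem_TG {x : ell2 G →L[ℂ] ell2 G} : x ∈ TGvn φ ↔ ∀ g, Rop φ g * x = x * Rop φ g := by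
  rw [TGvn, mem_commVN]
  constructor
  · intro h g
    exact (h _ ⟨g, rfl⟩).1
  · rintro h _ ⟨g, rfl⟩
    refine ⟨h g, ?_⟩
    calc star (Rop φ g) * x = star (Rop φ g) * x * (Rop φ g * star (Rop φ g)) := by
          rw [Rop_mul_star, mul_one]
      _ = star (Rop φ g) * (x * Rop φ g) * star (Rop φ g) := by noncomm_ring
      _ = star (Rop φ g) * Rop φ g * x * star (Rop φ g) := by rw [← h g]; noncomm_ring
      _ = x * star (Rop φ g) := by rw [Rop_star_mul, one_mul]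

theorem Lop_mem (g : G) : Lop φ g ∈ TGvn φ := mem_TG.2 fun h => (Lop_Rop φ g h).symm

theorem apply_delta' {x : ell2 G →L[ℂ] ell2 G} (hx : x ∈ TGvn φ) (h : G) :
    x (delta h) = Rop φ h (x (delta 1)) := by
  have := DFunLike.congr_fun (mem_TG.1 hx h) (delta 1)
  have h2 : Rop φ h (x (delta 1)) = x (Rop φ h (delta 1)) := this
  rw [h2, Rop_delta_one]

theorem apply_delta {x : ell2 G →L[ℂ] ell2 G} (hx : x ∈ TGvn φ) (h k : G) :
    (x (delta h) : G → ℂ) k = (φ (k * h⁻¹) h : ℂ) * (x (delta 1) : G → ℂ) (k * h⁻¹) := by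
  rw [apply_delta' hx, Rop_apply]

theorem mem_TG_of {x : ell2 G →L[ℂ] ell2 G} (h : ∀ h, x (delta h) = Rop φ h (x (delta 1))) :
    x ∈ TGvn φ := by
  refine mem_TG.2 fun g => ext_delta fun k => ?_
  show Rop φ g (x (delta k)) = x (Rop φ g (delta k))
  rw [Rop_delta, map_smul, h k, h (k * g)]
  have := DFunLike.congr_fun (Rop_mul φ g k) (x (delta 1))
  exact this

theorem mem_TG_of_coeff {x : ell2 G →L[ℂ] ell2 G}
    (h : ∀ h k, (x (delta h) : G → ℂ) k =
      (φ (k * h⁻¹) h : ℂ) * (x (delta 1) : G → ℂ) (k * h⁻¹)) : x ∈ TGvn φ := by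
  refine mem_TG_of fun g => ?_
  ext k
  rw [h, Rop_apply]

theorem star_apply_delta {x : ell2 G →L[ℂ] ell2 G} (hx : x ∈ TGvn φ) (g : G) :
    (star x (delta (1 : G)) : G → ℂ) g =
      (φ g g : ℂ) * (starRingEnd ℂ) ((x (delta (1 : G)) : G → ℂ) g⁻¹) := by
  rw [← inner_delta_left, ContinuousLinearMap.star_eq_adjoint,
    ContinuousLinearMap.adjoint_inner_right, inner_delta_right, apply_delta hx, one_mul, map_mul,
    ← Circle.coe_inv_eq_conj, map_inv, MonoidHom.inv_apply, inv_inv]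

theorem TG_trace {x : ell2 G →L[ℂ] ell2 G} (hx : x ∈ TGvn φ) (y : ell2 G →L[ℂ] ell2 G) :
    ⟪delta (1 : G), (x * y) (delta (1 : G))⟫_ℂ =
        ∑' g, ((φ g g : ℂ)⁻¹ * (x (delta (1 : G)) : G → ℂ) g⁻¹) *
          (y (delta (1 : G)) : G → ℂ) g := by
  have e : ⟪delta (1 : G), (x * y) (delta (1 : G))⟫_ℂ =
      ⟪star x (delta (1 : G)), y (delta (1 : G))⟫_ℂ := by
    rw [ContinuousLinearMap.star_eq_adjoint, ContinuousLinearMap.adjoint_inner_left]
    rfl
  rw [e, lp.inner_eq_tsum]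
  refine tsum_congr fun g => ?_
  rw [star_apply_delta hx, RCLike.inner_apply, map_mul, Complex.conj_conj,
    ← Circle.coe_inv_eq_conj, Circle.coe_inv]
  ring

theorem TG_trace_comm {x y : ell2 G →L[ℂ] ell2 G} (hx : x ∈ TGvn φ) (hy : y ∈ TGvn φ) :
    ⟪delta (1 : G), (x * y) (delta (1 : G))⟫_ℂ = ⟪delta (1 : G), (y * x) (delta (1 : G))⟫_ℂ := by
  rw [TG_trace hx y, TG_trace hy x, ← (Equiv.inv G).tsum_eq]
  refine tsum_congr fun g => ?_
  rw [Equiv.inv_apply, inv_inv]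
  have : φ g⁻¹ g⁻¹ = φ g g := by
    rw [map_inv, map_inv, MonoidHom.inv_apply, inv_inv]
  rw [this]
  ring

theorem eq_of_delta_one {x y : ell2 G →L[ℂ] ell2 G} (hx : x ∈ TGvn φ) (hy : y ∈ TGvn φ)
    (h : x (delta (1 : G)) = y (delta (1 : G))) : x = y := by
  refine ext_delta fun g => ?_
  rw [apply_delta' hx, apply_delta' hy, h]

variable (φ)

/-- `L_φ(G)` as a tracial von Neumann algebra. -/
def TG : TracialVNA (ell2 G) where
  alg := TGvn φ
  Ω := delta (1 : G)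
  norm_Ω := norm_delta 1
  trace := fun _ hx _ hy => TG_trace_comm hx hy
  faithful := fun x hx h => eq_of_delta_one hx (zero_mem _) (by rw [h]; rfl)

variable {φ}

theorem norm_star_delta {x : ell2 G →L[ℂ] ell2 G} (hx : x ∈ TGvn φ) :
    ‖star x (delta (1 : G))‖ = ‖x (delta (1 : G))‖ := norm_star_Ω (N := TG φ) hx

theorem norm_mul_delta {z a : ell2 G →L[ℂ] ell2 G} (hz : z ∈ TGvn φ) (ha : a ∈ TGvn φ) :
    ‖(z * a) (delta (1 : G))‖ ≤ ‖a‖ * ‖z (delta (1 : G))‖ := norm_mul_Ω (N := TG φ) hz ha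

/-! ### Supports -/

/-- `x ∈ M` has Fourier support in `A`. -/
structure SuppIn (φ : G →* G →* Circle) (A : Set G) (x : ell2 G →L[ℂ] ell2 G) : Prop where
  mem : x ∈ TGvn φ
  supp : ∀ g, g ∉ A → (x (delta (1 : G)) : G → ℂ) g = 0

theorem apply_eq_zero {x : ell2 G →L[ℂ] ell2 G} {ξ : ell2 G} {k : G}
    (h : ∀ g, (ξ : G → ℂ) g ≠ 0 → (x (delta g) : G → ℂ) k = 0) : (x ξ : G → ℂ) k = 0 := by
  have h1 := (hasSum_delta ξ).mapL x
  have h2 := h1.mapL (lp.evalCLM ℂ (fun _ : G => ℂ) 2 k)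
  have h3 : ∀ g, (lp.evalCLM ℂ (fun _ : G => ℂ) 2 k) (x ((ξ : G → ℂ) g • delta g)) = 0 := by
    intro g
    rw [map_smul, map_smul]
    by_cases hg : (ξ : G → ℂ) g = 0
    · rw [hg, zero_smul]
    · have : (lp.evalCLM ℂ (fun _ : G => ℂ) 2 k) (x (delta g)) = (x (delta g) : G → ℂ) k := rfl
      rw [this, h g hg, smul_zero]
  rw [show (fun g => (lp.evalCLM ℂ (fun _ : G => ℂ) 2 k) (x ((ξ : G → ℂ) g • delta g))) =
    fun _ => 0 from funext h3] at h2
  exact h2.unique hasSum_zero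

theorem hasSum_apply (x : ell2 G →L[ℂ] ell2 G) (ξ : ell2 G) (k : G) :
    HasSum (fun g => (ξ : G → ℂ) g * (x (delta g) : G → ℂ) k) ((x ξ : G → ℂ) k) := by
  have h1 := (hasSum_delta ξ).mapL x
  have h2 := h1.mapL (lp.evalCLM ℂ (fun _ : G => ℂ) 2 k)
  simp only [map_smul] at h2
  exact h2

namespace SuppIn

variable {A B C : Set G} {x y : ell2 G →L[ℂ] ell2 G}

theorem delta_eq_zero (hx : SuppIn φ A x) {h k : G} (hk : k * h⁻¹ ∉ A) :
    (x (delta h) : G → ℂ) k = 0 := by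
  rw [apply_delta hx.mem, hx.supp _ hk, mul_zero]

theorem mono (hx : SuppIn φ A x) (h : A ⊆ B) : SuppIn φ B x :=
  ⟨hx.mem, fun g hg => hx.supp g fun h' => hg (h h')⟩

theorem mul (hx : SuppIn φ A x) (hy : SuppIn φ B y) (h : ∀ a ∈ A, ∀ b ∈ B, a * b ∈ C) :
    SuppIn φ C (x * y) := by
  refine ⟨mul_mem hx.mem hy.mem, fun g hg => ?_⟩
  show (x (y (delta 1)) : G → ℂ) g = 0
  refine apply_eq_zero fun b hb => hx.delta_eq_zero fun h' => hg ?_
  have hbB : b ∈ B := by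
    by_contra hbB
    exact hb (hy.supp b hbB)
  have := h _ h' b hbB
  rwa [inv_mul_cancel_right] at this

theorem star (hx : SuppIn φ A x) (h : ∀ a ∈ A, a⁻¹ ∈ C) : SuppIn φ C (star x) := by
  refine ⟨star_mem hx.mem, fun g hg => ?_⟩
  rw [star_apply_delta hx.mem, hx.supp g⁻¹, map_zero, mul_zero]
  intro h'
  have := h _ h'
  rw [inv_inv] at this
  exact hg this

theorem add (hx : SuppIn φ A x) (hy : SuppIn φ A y) : SuppIn φ A (x + y) :=
  ⟨add_mem hx.mem hy.mem, fun g hg => by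
    rw [add_apply, lp.coeFn_add, Pi.add_apply, hx.supp g hg, hy.supp g hg,
      add_zero]⟩

theorem sub (hx : SuppIn φ A x) (hy : SuppIn φ A y) : SuppIn φ A (x - y) :=
  ⟨sub_mem hx.mem hy.mem, fun g hg => by
    rw [sub_apply, lp.coeFn_sub, Pi.sub_apply, hx.supp g hg, hy.supp g hg,
      sub_zero]⟩

theorem inter (hx : SuppIn φ A x) (hx' : SuppIn φ B x) : SuppIn φ (A ∩ B) x :=
  ⟨hx.mem, fun g hg => by
    by_cases h : g ∈ A
    · exact hx'.supp g fun h' => hg ⟨h, h'⟩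
    · exact hx.supp g h⟩

end SuppIn

theorem suppIn_univ {x : ell2 G →L[ℂ] ell2 G} (hx : x ∈ TGvn φ) : SuppIn φ Set.univ x :=
  ⟨hx, fun g hg => absurd (Set.mem_univ g) hg⟩

theorem suppIn_one {A : Set G} (h : (1 : G) ∈ A) : SuppIn φ A 1 := by
  refine ⟨one_mem _, fun g hg => ?_⟩
  show (delta (1 : G) : G → ℂ) g = 0
  rw [delta_apply, if_neg]
  rintro rfl
  exact hg h

theorem suppIn_Lop {A : Set G} {h : G} (hh : h ∈ A) : SuppIn φ A (Lop φ h) := by
  refine ⟨Lop_mem h, fun g hg => ?_⟩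
  rw [Lop_delta_one, delta_apply, if_neg]
  rintro rfl
  exact hg hh

/-- Independence. -/
theorem trace_mul_of_supp {A B : Set G} {x y : ell2 G →L[ℂ] ell2 G} (hx : SuppIn φ A x)
    (hy : SuppIn φ B y) (h : ∀ g, g⁻¹ ∈ A → g ∈ B → g = 1) :
    ⟪delta (1 : G), (x * y) (delta (1 : G))⟫_ℂ =
      ⟪delta (1 : G), x (delta (1 : G))⟫_ℂ * ⟪delta (1 : G), y (delta (1 : G))⟫_ℂ := by
  rw [TG_trace hx.mem y, tsum_eq_single 1, inner_delta_left, inner_delta_left]
  · simp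
  · intro g hg
    by_cases h1 : g⁻¹ ∈ A
    · have h2 : g ∉ B := fun h' => hg (h g h1 h')
      rw [hy.supp g h2, mul_zero]
    · rw [hx.supp _ h1, mul_zero, zero_mul]

/-- Commutation of elements with commuting Fourier supports. -/
theorem commute_of_supp {A B : Set G} {x y : ell2 G →L[ℂ] ell2 G} (hx : SuppIn φ A x)
    (hy : SuppIn φ B y) (h : ∀ a ∈ A, ∀ b ∈ B, a * b = b * a ∧ φ a b = φ b a) :
    x * y = y * x := by
  refine eq_of_delta_one (mul_mem hx.mem hy.mem) (mul_mem hy.mem hx.mem) ?_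
  ext k
  show (x (y (delta 1)) : G → ℂ) k = (y (x (delta 1)) : G → ℂ) k
  have h1 := hasSum_apply x (y (delta 1)) k
  have h2 := hasSum_apply y (x (delta 1)) k
  let e : G ≃ G := (Equiv.inv G).trans (Equiv.mulLeft k)
  have h3 := (e.hasSum_iff).2 h2
  refine h1.unique ?_
  convert h3 using 1
  funext g
  show _ = (x (delta 1) : G → ℂ) (k * g⁻¹) * (y (delta (k * g⁻¹)) : G → ℂ) k
  rw [apply_delta hx.mem g k, apply_delta hy.mem (k * g⁻¹) k]
  by_cases ha : k * g⁻¹ ∈ A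
  · by_cases hg : g ∈ B
    · obtain ⟨h4, h5⟩ := h _ ha _ hg
      rw [inv_mul_cancel_right] at h4
      have e1 : k * (k * g⁻¹)⁻¹ = g := by
        rw [mul_inv_eq_iff_eq_mul]; exact h4
      rw [e1, h5]
      ring
    · rw [hy.supp g hg, zero_mul, hy.supp (k * (k * g⁻¹)⁻¹), mul_zero, mul_zero]
      intro hb
      obtain ⟨h4, -⟩ := h _ ha _ hb
      apply hg
      rw [inv_mul_cancel_right] at h4
      have e1 : k * (k * g⁻¹)⁻¹ = g := by
        have : k * g⁻¹ * (k * (k * g⁻¹)⁻¹) = k * g⁻¹ * g := by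
          rw [h4, inv_mul_cancel_right]
        exact mul_left_cancel this
      rwa [e1] at hb
  · rw [hx.supp _ ha, mul_zero, mul_zero, zero_mul]

end Pool.Agent.OpEq
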